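import Pool.Agent.N162.BC.Pencil

/-!
Families of curves on a variety.
-/

set_option autoImplicit false
set_option linter.overlappingInstances false
set_option linter.unusedSectionVars false
set_option linter.unusedDecidableInType false
set_option linter.unusedFintypeInType false
set_option linter.unusedVariables false
set_option maxHeartbeats 4000000
set_option synthInstance.maxHeartbeats 400000

open FF Polynomial Pool.Agent.W603.LV Pool.Agent.W602.GT

namespace Pool.Agent.N162.BC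

section

variable {K Ω : Type} [Field K] [Algebra ℂ K] [Field Ω] [Algebra ℂ Ω] {n : ℕ}

/-- the pullback of a canonical form does not depend on the coordinates -/
theorem pullback_indep (σ : K →ₐ[ℂ] Ω) {z z' : Fin n → K} {E E' : Fin n → Derivation ℂ K K}
    (hz : IsTranscendenceBasis ℂ z) (hE : ∀ i j, E i (z j) = if i = j then 1 else 0)
    (hz' : IsTranscendenceBasis ℂ z') (hE' : ∀ i j, E' i (z' j) = if i = j then 1 else 0)
    {ω : (Fin n → Derivation ℂ K K) → K} (hω : IsPluri 1 ω) (D : Fin n → Derivation ℂ Ω Ω) :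
    pullback σ z E ω D = pullback σ z' E' ω D := by
  have h1 : (Matrix.of fun i j => D i (σ (z j))) =
      (Matrix.of fun i k => D i (σ (z' k))) * (Matrix.of fun k j => E' k (z j)).map σ := by
    ext i j
    rw [Matrix.mul_apply, Matrix.of_apply]
    refine sub_eq_zero.1 (hom_der_ext σ hz'
      (fun a => D i (σ a) - ∑ k, D i (σ (z' k)) * σ (E' k a)) (fun a b => ?_) (fun c a => ?_)
      (fun a b => ?_) (fun l => ?_) (z j))
    · rw [map_add, map_add]
      simp only [map_add, mul_add, Finset.sum_add_distrib]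
      ring
    · rw [map_smul, Derivation.map_smul, smul_sub, Finset.smul_sum]
      congr 1
      refine Finset.sum_congr rfl fun k _ => ?_
      rw [Derivation.map_smul, map_smul, mul_smul_comm]
    · rw [map_mul, Derivation.leibniz, smul_eq_mul, smul_eq_mul, mul_sub, mul_sub, Finset.mul_sum,
        Finset.mul_sum]
      have h2 : ∀ k, D i (σ (z' k)) * σ (E' k (a * b)) =
          σ a * (D i (σ (z' k)) * σ (E' k b)) + σ b * (D i (σ (z' k)) * σ (E' k a)) := by
        intro k
        rw [Derivation.leibniz, smul_eq_mul, smul_eq_mul, map_add, map_mul, map_mul]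
        ring
      rw [Finset.sum_congr rfl fun k _ => h2 k, Finset.sum_add_distrib]
      ring
    · have h2 : ∀ k, D i (σ (z' k)) * σ (E' k (z' l)) = if k = l then D i (σ (z' k)) else 0 := by
        intro k
        rw [hE']
        split_ifs
        · rw [map_one, mul_one]
        · rw [map_zero, mul_zero]
      rw [Finset.sum_congr rfl fun k _ => h2 k, Finset.sum_ite_eq' Finset.univ l,
        if_pos (Finset.mem_univ _), sub_self]
  unfold pullback
  rw [h1, Matrix.det_mul, pluri_eq hz hE hω E']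
  unfold stdForm
  have h2 : ((Matrix.of fun k j => E' k (z j)).map σ).det =
      σ (Matrix.of fun k j => E' k (z j)).det := (AlgHom.map_det σ _).symm
  rw [h2, map_mul]
  ring

end

section

variable {K K' Ω : Type} [Field K] [Algebra ℂ K] [Field K'] [Algebra ℂ K'] [Algebra K K']
  [IsScalarTower ℂ K K'] [Algebra.IsAlgebraic K K'] [Field Ω] [Algebra ℂ Ω] {n : ℕ}

variable (K Ω) in
/-- the image of a point of `T'` on `T` -/
noncomputable def restr (σ : K' →ₐ[ℂ] Ω) : K →ₐ[ℂ] Ω := σ.comp (IsScalarTower.toAlgHom ℂ K K')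

theorem restr_apply (σ : K' →ₐ[ℂ] Ω) (a : K) : restr K Ω σ a = σ (algebraMap K K' a) := rfl

/-- the trace of a pulled back form -/
theorem pulled_trace (hK : Algebra.trdeg ℂ K = (n : ℕ)) {c : (K →ₐ[ℂ] Ω) →₀ ℤ}
    (hc : NullTrace n c) (ext : (K →ₐ[ℂ] Ω) ↪ (K' →ₐ[ℂ] Ω))
    (hext : ∀ σ, restr K Ω (ext σ) = σ) {ω' : (Fin n → Derivation ℂ K' K') → K'}
    (hω' : PulledBack K n ω') (z' : Fin n → K') (E' : Fin n → Derivation ℂ K' K')
    (hz' : IsTranscendenceBasis ℂ z') (hE' : ∀ i j, E' i (z' j) = if i = j then 1 else 0)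
    (D : Fin n → Derivation ℂ Ω Ω) :
    ∑ σ ∈ (c.embDomain ext).support, (c.embDomain ext σ : Ω) * pullback σ z' E' ω' D = 0 := by
  obtain ⟨ω, hω, hpl, hpb⟩ := hω'
  obtain ⟨z, hz⟩ := exists_tb (k := ℂ) (L := K) hK
  choose E hE using fun i : Fin n => Pool.Agent.W602.GT.exists_der z hz
    fun j => if i = j then (1 : K) else 0
  have hz2 : IsTranscendenceBasis ℂ (fun j => algebraMap K K' (z j)) := hz.algebraMap_comp
  choose E2 hE2 using fun i : Fin n => Pool.Agent.W602.GT.exists_der _ hz2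
    fun j => if i = j then (1 : K') else 0
  have h1 := hc ω hω z E hz hE D
  rw [Finsupp.support_embDomain, Finset.sum_map, ← h1]
  refine Finset.sum_congr rfl fun σ _ => ?_
  rw [Finsupp.embDomain_apply_self]
  congr 1
  rw [pullback_indep (ext σ) hz' hE' hz2 hE2 hpl D]
  unfold pullback
  have h2 : ∀ a : K, ext σ (algebraMap K K' a) = σ a := by
    intro a
    conv_rhs => rw [← hext σ]
    rfl
  rw [hpb z E E2 hz hE hE2, h2]
  simp only [h2]

theorem centred_iff {M : Type} [Field M] [Algebra Ω M] {τ : K →+* M} {v : Place Ω M}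
    {σ : K →ₐ[ℂ] Ω} : CentredAt τ v σ ↔ ∀ a : K, Ge v 1 (τ a - algebraMap Ω M (σ a)) := by
  unfold CentredAt Ge
  refine forall_congr' fun a => ?_
  rw [sub_eq_zero]
  constructor
  · rintro (h | h)
    · exact Or.inl h
    · exact Or.inr (by omega)
  · rintro (h | h)
    · exact Or.inl h
    · exact Or.inr (by omega)

/-- a point of a curve on `T'` which is mapped to the point `σ` of `T` is mapped to a point of `T'`
over `σ` -/
theorem lift_centre [IsAlgClosed Ω] {M : Type} [Field M] [Algebra Ω M] [IsFF Ω M]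
    {τ : K' →+* M}
    (hτ : ∀ z : ℂ, τ (algebraMap ℂ K' z) = algebraMap Ω M (algebraMap ℂ Ω z)) {v : Place Ω M}
    {σ : K →ₐ[ℂ] Ω} (h : CentredAt (τ.comp (algebraMap K K')) v σ) :
    ∃ σ' : K' →ₐ[ℂ] Ω, restr K Ω σ' = σ ∧ CentredAt τ v σ' := by
  have hcΩ : CharZero Ω := charZero_of_injective_algebraMap (algebraMap ℂ Ω).injective
  rw [centred_iff] at h
  let b1 : Algebra ℂ M := ((algebraMap Ω M).comp (algebraMap ℂ Ω)).toAlgebra
  let b2 : Algebra K' M := τ.toAlgebra
  let b3 : Algebra K M := (τ.comp (algebraMap K K')).toAlgebra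
  have b4 : IsScalarTower ℂ Ω M := IsScalarTower.of_algebraMap_eq fun z => rfl
  have b5 : IsScalarTower ℂ K' M := IsScalarTower.of_algebraMap_eq fun z => (hτ z).symm
  have b6 : IsScalarTower K K' M := IsScalarTower.of_algebraMap_eq fun z => rfl
  have hgen0 : ∀ κ : K, κ ≠ 0 → v.ord (algebraMap K M κ) = 0 := by
    intro e he
    have h1 := h e
    have h2 : σ e ≠ 0 := by simpa using he
    have h3 : algebraMap Ω M (σ e) ≠ 0 := by simpa using h2
    change v.ord (τ.comp (algebraMap K K') e) = 0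
    rcases h1 with h1 | h1
    · rw [sub_eq_zero.1 h1]
      exact v.ord_const h2
    · by_cases h0 : τ.comp (algebraMap K K') e - algebraMap Ω M (σ e) = 0
      · rw [h0, v.ord_zero] at h1
        omega
      have h5 := v.ord_add_eq h3 h0 (by rw [v.ord_const h2]; omega)
      rw [add_sub_cancel, v.ord_const h2] at h5
      exact h5.2
  let v' : Place K M :=
    { ord := v.ord
      ord_zero := v.ord_zero
      ord_mul := v.ord_mul
      ord_add := v.ord_add
      ord_const := fun {κ} hκ => hgen0 κ hκ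
      surj := v.surj }
  have hgen : Gen K' v := by
    intro e he
    have h1 : IsAlgebraic K (algebraMap K' M e) :=
      ((Algebra.IsAlgebraic.isAlgebraic (R := K) e)).algebraMap
    exact v'.ord_eq_zero_of_isAlgebraic (by simpa using he) h1
  obtain ⟨σ', hσ'⟩ := exists_cen (F := ℂ) hgen
  refine ⟨σ', ?_, centred_iff.2 hσ'⟩
  ext e
  rw [restr_apply]
  have h1 := (h e).sub (hσ' (algebraMap K K' e))
  have h2 : algebraMap K' M (algebraMap K K' e) = τ.comp (algebraMap K K') e := rfl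
  rw [h2, sub_sub_sub_cancel_left, ← map_sub] at h1
  exact sub_eq_zero.1 (not_ge_const h1)

theorem centre_unique {M : Type} [Field M] [Algebra Ω M] {τ : K →+* M} {v : Place Ω M}
    {σ σ' : K →ₐ[ℂ] Ω} (h : CentredAt τ v σ) (h' : CentredAt τ v σ') : σ = σ' := by
  rw [centred_iff] at h h'
  ext e
  have h1 := (h' e).sub (h e)
  rw [sub_sub_sub_cancel_left, ← map_sub] at h1
  exact sub_eq_zero.1 (not_ge_const h1)

theorem restr_surj [IsAlgClosed Ω] (σ : K →ₐ[ℂ] Ω) :
    ∃ σ' : K' →ₐ[ℂ] Ω, restr K Ω σ' = σ := by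
  let _ : Algebra K Ω := σ.toRingHom.toAlgebra
  have h1 : IsScalarTower ℂ K Ω := IsScalarTower.of_algebraMap_eq fun z => (σ.commutes z).symm
  refine ⟨(IsAlgClosed.lift (R := K) (S := K') (M := Ω) : K' →ₐ[K] Ω).restrictScalars ℂ, ?_⟩
  ext a
  rw [restr_apply]
  exact (IsAlgClosed.lift (R := K) (S := K') (M := Ω) : K' →ₐ[K] Ω).commutes a

/-- the image of a family of zero-cycles -/
theorem rat_push [IsAlgClosed Ω] {c : (K' →ₐ[ℂ] Ω) →₀ ℤ} (hc : c ∈ Rat K' Ω) :
    c.mapDomain (restr K Ω) ∈ Rat K Ω := by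
  classical
  have hcΩ : CharZero Ω := charZero_of_injective_algebraMap (algebraMap ℂ Ω).injective
  have hle : Rat K' Ω ≤ (Rat K Ω).comap
      (Finsupp.mapDomain.addMonoidHom (restr K Ω) : ((K' →ₐ[ℂ] Ω) →₀ ℤ) →+ _) := by
    conv_lhs => unfold Rat
    rw [AddSubgroup.closure_le]
    rintro g ⟨M, hM, a1, hFF, τ, f, hτ, hf0, hg⟩
    change g.mapDomain (restr K Ω) ∈ Rat K Ω
    refine AddSubgroup.subset_closure ⟨M, hM, a1, hFF, τ.comp (algebraMap K K'), f, ?_, hf0, ?_⟩
    · intro z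
      rw [RingHom.comp_apply, ← IsScalarTower.algebraMap_apply ℂ K K', hτ]
    intro σ
    have hfin := finite_support (k := Ω) f
    have hfin' : (Function.support fun v : Place Ω M => v.ord f).Finite := hfin
    have hsum : ∀ C : Set (Place Ω M), ∑ᶠ v ∈ C, v.ord f =
        ∑ v ∈ hfin'.toFinset with v ∈ C, v.ord f := fun C => finsum_mem_eq_sum_filter _ C hfin'
    rw [hsum]
    -- the centres
    have hne : Nonempty (K' →ₐ[ℂ] Ω) := ⟨(restr_surj σ).choose⟩
    have hcen : ∀ v : Place Ω M, ∃ σ' : K' →ₐ[ℂ] Ω,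
        CentredAt (τ.comp (algebraMap K K')) v σ → (restr K Ω σ' = σ ∧ CentredAt τ v σ') := by
      intro v
      by_cases h : CentredAt (τ.comp (algebraMap K K')) v σ
      · obtain ⟨σ', h1⟩ := lift_centre hτ h
        exact ⟨σ', fun _ => h1⟩
      · exact ⟨hne.some, fun h' => absurd h' h⟩
    choose s hs using hcen
    have hdown : ∀ (v : Place Ω M) (σ' : K' →ₐ[ℂ] Ω), CentredAt τ v σ' →
        CentredAt (τ.comp (algebraMap K K')) v (restr K Ω σ') := fun v σ' h a =>
      h (algebraMap K K' a)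
    obtain ⟨Z, hZ⟩ : ∃ Z : Finset (Place Ω M), Z = hfin'.toFinset.filter
      (fun v => v ∈ {v | CentredAt (τ.comp (algebraMap K K')) v σ}) := ⟨_, rfl⟩
    have hZm : ∀ v, v ∈ Z ↔ v.ord f ≠ 0 ∧ CentredAt (τ.comp (algebraMap K K')) v σ := by
      intro v
      rw [hZ, Finset.mem_filter, Set.Finite.mem_toFinset]
      rfl
    rw [← hZ]
    have h1 : ∑ v ∈ Z, v.ord f = ∑ σ' ∈ Z.image s, ∑ v ∈ Z with s v = σ', v.ord f :=
      (Finset.sum_fiberwise_of_maps_to (fun v hv => Finset.mem_image_of_mem s hv) _).symm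
    have h2 : ∀ σ' ∈ Z.image s, ∑ v ∈ Z with s v = σ', v.ord f = g σ' := by
      intro σ' hσ'
      rw [hg, hsum]
      obtain ⟨v0, hv0, hv0'⟩ := Finset.mem_image.1 hσ'
      have h3 := hs v0 ((hZm v0).1 hv0).2
      rw [hv0'] at h3
      refine Finset.sum_congr ?_ fun _ _ => rfl
      ext v
      rw [Finset.mem_filter, Finset.mem_filter, hZm, Set.Finite.mem_toFinset]
      constructor
      · rintro ⟨⟨h4, h5⟩, h6⟩
        refine ⟨h4, ?_⟩
        have h7 := (hs v h5).2
        rw [h6] at h7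
        exact h7
      · rintro ⟨h4, h5⟩
        have h6 := hdown v σ' h5
        rw [h3.1] at h6
        exact ⟨⟨h4, h6⟩, centre_unique (hs v h6).2 h5⟩
    have h3 : (g.mapDomain (restr K Ω)) σ =
        ∑ σ' ∈ g.support with restr K Ω σ' = σ, g σ' := by
      rw [Finsupp.mapDomain, Finsupp.sum_apply, Finsupp.sum, Finset.sum_filter]
      refine Finset.sum_congr rfl fun σ' _ => ?_
      rw [Finsupp.single_apply]
    rw [h3, h1, Finset.sum_congr rfl h2]
    refine Finset.sum_subset ?_ ?_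
    · intro σ' hσ'
      rw [Finset.mem_filter, Finsupp.mem_support_iff] at hσ'
      obtain ⟨h4, h5⟩ := hσ'
      rw [hg, hsum] at h4
      obtain ⟨v, hv, hv'⟩ := Finset.exists_ne_zero_of_sum_ne_zero h4
      rw [Finset.mem_filter] at hv
      have h6 : CentredAt τ v σ' := hv.2
      have h7 := hdown v σ' h6
      rw [h5] at h7
      refine Finset.mem_image.2 ⟨v, (hZm v).2 ⟨hv', h7⟩, ?_⟩
      exact centre_unique (hs v h7).2 h6
    · intro σ' hσ' hn
      obtain ⟨v0, hv0, hv0'⟩ := Finset.mem_image.1 hσ'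
      have h4 := hs v0 ((hZm v0).1 hv0).2
      rw [hv0'] at h4
      rw [Finset.mem_filter, not_and, Finsupp.mem_support_iff] at hn
      by_contra h5
      exact hn h5 h4.1
  exact hle hc

/-- **Correspondences which hit few members of a family of curves.** -/
theorem main_cover [Algebra.EssFiniteType ℂ K'] [IsAlgClosed Ω] {m : ℕ}
    (hK : Algebra.trdeg ℂ K = (m + 1 : ℕ)) (hΩ : Algebra.trdeg ℂ Ω = (m + 1 : ℕ))
    (L : IntermediateField ℂ K') (hL : Algebra.trdeg ℂ L = (m : ℕ))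
    (hLK : ∀ a : K', IsAlgebraic L a → a ∈ L)
    {V : ((Fin (m + 1) → Derivation ℂ K' K') → K') → Prop}
    (hV : ∀ ω, V ω → FibreForm L (m + 1) ω)
    (hgm : ∀ ω, FibreForm L (m + 1) ω → GMSpan L V ω) {U : Finset (L →ₐ[ℂ] Ω)}
    (hsep : Separates L (PulledBack K (m + 1)) V U) {c : (K →ₐ[ℂ] Ω) →₀ ℤ}
    (hc : NullTrace (m + 1) c)
    (hU : ∀ σ : K →ₐ[ℂ] Ω, c σ ≠ 0 → ∃ σ' : K' →ₐ[ℂ] Ω,
      (∀ a : K, σ' (algebraMap K K' a) = σ a) ∧ σ'.comp L.val ∈ U) : c ∈ Rat K Ω := by
  classical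
  have hK' : Algebra.trdeg ℂ K' = (m + 1 : ℕ) := by
    obtain ⟨z, hz⟩ := exists_tb (k := ℂ) (L := K) hK
    have h1 : IsTranscendenceBasis ℂ (fun j => algebraMap K K' (z j)) := hz.algebraMap_comp
    rw [← h1.cardinalMk_eq_trdeg]
    simp
  have hex : ∀ σ : K →ₐ[ℂ] Ω, ∃ σ' : K' →ₐ[ℂ] Ω, restr K Ω σ' = σ ∧
      (c σ ≠ 0 → σ'.comp L.val ∈ U) := by
    intro σ
    by_cases h : c σ ≠ 0
    · obtain ⟨σ', h1, h2⟩ := hU σ h
      refine ⟨σ', ?_, fun _ => h2⟩
      ext a
      exact h1 a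
    · obtain ⟨σ', h1⟩ := restr_surj (K' := K') σ
      exact ⟨σ', h1, fun h' => absurd h' h⟩
  choose e he1 he2 using hex
  have hinj : Function.Injective e := by
    intro σ τ h
    rw [← he1 σ, h, he1]
  have h1 : c.embDomain ⟨e, hinj⟩ ∈ Rat K' Ω := by
    refine main hK' hΩ L hL hLK hV hgm hsep (fun ω' hω' z E hz hE D => ?_) ?_
    · exact pulled_trace hK hc ⟨e, hinj⟩ he1 hω' z E hz hE D
    · intro σ' hσ'
      rw [Finsupp.support_embDomain, Finset.mem_map] at hσ'
      obtain ⟨σ, hσ, rfl⟩ := hσ'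
      exact he2 σ (Finsupp.mem_support_iff.1 hσ)
  have h2 := rat_push (K := K) h1
  have h3 : (c.embDomain ⟨e, hinj⟩).mapDomain (restr K Ω) = c := by
    rw [Finsupp.embDomain_eq_mapDomain, ← Finsupp.mapDomain_comp]
    have h4 : (restr K Ω) ∘ (⟨e, hinj⟩ : (K →ₐ[ℂ] Ω) ↪ (K' →ₐ[ℂ] Ω)) = id := by
      funext σ
      exact he1 σ
    rw [h4, Finsupp.mapDomain_id]
  rwa [h3] at h2

end

end Pool.Agent.N162.BC
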