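import Pool.Agent.N162.BC.Base

/-!
Descent of regular differentials from the algebraic closure of the constant field.
-/

set_option autoImplicit false
set_option linter.overlappingInstances false
set_option linter.unusedSectionVars false
set_option linter.unusedDecidableInType false
set_option linter.unusedFintypeInType false
set_option linter.unusedVariables false
set_option maxHeartbeats 4000000
set_option synthInstance.maxHeartbeats 400000

open FF Polynomial Pool.Agent.W603.LV IntermediateField Pool.Agent.W619.PQ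

open scoped TensorProduct

namespace Pool.Agent.N162.BC

section

variable {L K F K₁ : Type} [Field L] [Field K] [Field F] [Field K₁]
  [Algebra L K] [Algebra L F] [Algebra F K₁] [Algebra K K₁] [Algebra L K₁] [IsScalarTower L F K₁]
  [IsScalarTower L K K₁]

theorem transc_up' (LD : ∀ {ι : Type} (v : ι → K), LinearIndependent L v →
      LinearIndependent F (fun i => algebraMap K K₁ (v i))) {x : K} (hx : Transcendental L x) :
    Transcendental F (algebraMap K K₁ x) := by
  have h1 := LD _ (indep_pow hx)
  rw [transcendental_iff]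
  intro p hp
  rw [aeval_eq_sum_range] at hp
  ext j
  by_cases hj : j ∈ Finset.range (p.natDegree + 1)
  · have h2 := (linearIndependent_iff'.1 h1) (Finset.range (p.natDegree + 1)) (fun i => p.coeff i)
      (by
        rw [← hp]
        refine Finset.sum_congr rfl fun i _ => ?_
        rw [map_pow])
    rw [h2 j hj, coeff_zero]
  · rw [Finset.mem_range, not_lt] at hj
    rw [coeff_eq_zero_of_natDegree_lt (by omega), coeff_zero]

theorem exists_pole [CharZero L] [IsFF L K] (p : Place L K) :
    ∃ g : K, p.ord g < 0 ∧ ∀ q : Place L K, q ≠ p → 0 ≤ q.ord g := by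
  classical
  obtain ⟨γ, N, hγ, -⟩ := riemann L K
  have hdp : (1 : ℤ) ≤ p.deg := by exact_mod_cast p.deg_pos
  obtain ⟨n, hn⟩ : ∃ n : ℕ, γ + ell (0 : Place L K →₀ ℤ) < n :=
    ⟨(γ + ell (0 : Place L K →₀ ℤ) + 1).toNat, by omega⟩
  have h1 := hγ (Finsupp.single p (n : ℤ))
  rw [ddeg_single] at h1
  have h2 : (n : ℤ) ≤ n * p.deg := by nlinarith
  have h3 : ell (0 : Place L K →₀ ℤ) < ell (Finsupp.single p (n : ℤ)) := by omega
  have h4 : ∃ g ∈ LL (Finsupp.single p (n : ℤ)), g ∉ LL (0 : Place L K →₀ ℤ) := by
    by_contra hcon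
    push Not at hcon
    have h5 : LL (Finsupp.single p (n : ℤ)) ≤ LL (0 : Place L K →₀ ℤ) := hcon
    have h6 : ell (Finsupp.single p (n : ℤ)) ≤ ell (0 : Place L K →₀ ℤ) := by
      unfold ell
      exact_mod_cast Submodule.finrank_mono h5
    omega
  obtain ⟨g, hg, hg'⟩ := h4
  rw [mem_LL] at hg hg'
  push Not at hg'
  obtain ⟨hg0, q, hq⟩ := hg'
  have hg2 := hg.resolve_left hg0
  have hqp : q = p := by
    by_contra hne
    have h5 := hg2 q
    rw [Finsupp.single_apply, if_neg (fun h => hne h.symm)] at h5
    have h6 : (0 : Place L K →₀ ℤ) q = 0 := rfl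
    rw [h6] at hq
    omega
  have h6 : (0 : Place L K →₀ ℤ) q = 0 := rfl
  rw [h6] at hq
  refine ⟨g, by rw [← hqp]; omega, fun r hr => ?_⟩
  have h5 := hg2 r
  rw [Finsupp.single_apply, if_neg (fun h => hr h.symm)] at h5
  omega

variable [CharZero L] [CharZero K] [CharZero F] [IsAlgClosed F] [IsFF L K] [IsFF F K₁]
  [Algebra.IsAlgebraic L F]

theorem exists_up (LD : ∀ {ι : Type} (v : ι → K), LinearIndependent L v →
      LinearIndependent F (fun i => algebraMap K K₁ (v i)))
    (GEN : ∀ f : K₁, f ∈ Submodule.span F (Set.range (algebraMap K K₁)))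
    (p : Place L K) : ∃ P : Place F K₁, ∀ κ : K, P.ord (algebraMap K K₁ κ) = p.ord κ := by
  obtain ⟨g, hg, hg'⟩ := exists_pole p
  have hgt : Transcendental L g := p.transcendental_of_ord_ne (by omega)
  have hgt' := transc_up' LD hgt
  have hfin : FiniteDimensional F⟮algebraMap K K₁ g⟯ K₁ := IsFF.finite hgt'
  obtain ⟨S, hS, hS2⟩ := poles (k := F) (K := K₁) hgt'
  have hpos : 0 < Module.finrank F⟮algebraMap K K₁ g⟯ K₁ := Module.finrank_pos
  obtain ⟨P, hP⟩ : S.Nonempty := by
    rw [Finset.nonempty_iff_ne_empty]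
    rintro rfl
    rw [Finset.sum_empty] at hS2
    omega
  have hPg := (hS P).1 hP
  obtain ⟨q, hq⟩ := unr (L := L) GEN P
  have hqp : q = p := by
    by_contra hne
    have h1 := hg' q hne
    rw [hq] at hPg
    omega
  exact ⟨P, fun κ => by rw [hq, hqp]⟩

/-- the derivations `d/dx` are compatible -/
theorem der_compat {x : K} (hx : Transcendental L x) (D0 : Derivation L K K) (hD0 : D0 x = 1)
    (D1 : Derivation F K₁ K₁) (hD1 : D1 (algebraMap K K₁ x) = 1) (κ : K) :
    D1 (algebraMap K K₁ κ) = algebraMap K K₁ (D0 κ) := by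
  let D' : Derivation L K K₁ := Derivation.mk'
    { toFun := fun y => D1 (algebraMap K K₁ y) - algebraMap K K₁ (D0 y)
      map_add' := fun y z => by
        rw [map_add, map_add, map_add, map_add]
        ring
      map_smul' := fun c y => by
        rw [Algebra.smul_def, map_mul, D1.leibniz, D0.leibniz, D0.map_algebraMap,
          ← IsScalarTower.algebraMap_apply, IsScalarTower.algebraMap_apply L F K₁,
          D1.map_algebraMap, RingHom.id_apply, smul_zero, add_zero, smul_zero, add_zero,
          smul_eq_mul, smul_eq_mul, map_mul, ← IsScalarTower.algebraMap_apply L K K₁,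
          IsScalarTower.algebraMap_apply L F K₁, Algebra.smul_def,
          IsScalarTower.algebraMap_apply L F K₁]
        ring }
    (fun y z => by
      change D1 (algebraMap K K₁ (y * z)) - algebraMap K K₁ (D0 (y * z)) =
        y • (D1 (algebraMap K K₁ z) - algebraMap K K₁ (D0 z)) +
          z • (D1 (algebraMap K K₁ y) - algebraMap K K₁ (D0 y))
      rw [map_mul, D1.leibniz, D0.leibniz, smul_eq_mul,
        smul_eq_mul, smul_eq_mul, smul_eq_mul, Algebra.smul_def, Algebra.smul_def, map_add,
        map_mul, map_mul]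
      ring)
  have h1 : D' = 0 := by
    refine derv_eq_zero D' {x} (IsFF.isAlgebraic hx) ?_
    intro s hs
    rw [Set.mem_singleton_iff] at hs
    rw [hs]
    change D1 (algebraMap K K₁ x) - algebraMap K K₁ (D0 x) = 0
    rw [hD1, hD0, map_one, sub_self]
  have h2 : D' κ = 0 := by
    rw [h1]
    rfl
  exact sub_eq_zero.1 h2

/-- composition of a place with an endomorphism which is the identity on `K` -/
def plComp (P : Place F K₁) (g : K₁ →+* K₁) (γ : F →+* F)
    (hg : ∀ α : F, g (algebraMap F K₁ α) = algebraMap F K₁ (γ α))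
    (hs : ∃ t : K₁, t ≠ 0 ∧ P.ord (g t) = 1) : Place F K₁ where
  ord f := P.ord (g f)
  ord_zero := by rw [map_zero, P.ord_zero]
  ord_mul := by
    intro f h hf hh
    rw [map_mul, P.ord_mul (by simpa using hf) (by simpa using hh)]
  ord_add := by
    intro f h hf hh hfh
    rw [map_add]
    exact P.ord_add (by simpa using hf) (by simpa using hh)
      (by rw [← map_add]; exact (map_ne_zero g).2 hfh)
  ord_const := by
    intro c hc
    rw [hg, P.ord_const (by simpa using hc)]
  surj := hs

/-- **Descent of regular differentials.** -/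
theorem descent (LD : ∀ {ι : Type} (v : ι → K), LinearIndependent L v →
      LinearIndependent F (fun i => algebraMap K K₁ (v i)))
    (GEN : ∀ f : K₁, f ∈ Submodule.span F (Set.range (algebraMap K K₁)))
    {x : K} (hx : Transcendental L x) (D0 : Derivation L K K) (hD0 : D0 x = 1)
    (D1 : Derivation F K₁ K₁) (hD1 : D1 (algebraMap K K₁ x) = 1) {f : K₁}
    (hf : ∀ P : Place F K₁, vo P D1 ≤ P.ord f) (hf0 : f ≠ 0) :
    ∃ (n : ℕ) (l : Fin n → F) (T : Fin n → K),
      f = ∑ j, algebraMap F K₁ (l j) * algebraMap K K₁ (T j) ∧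
      ∀ (j : Fin n) (p : Place L K) (π : K), p.ord π = 1 → Ge p (p.ord (D0 π)) (T j) := by
  classical
  have hD1ne : D1 ≠ 0 := by
    rintro rfl
    simp at hD1
  -- the coordinates
  obtain ⟨ι, s, α, κ, hfs⟩ : ∃ (ι : Type) (s : Finset ι) (α : ι → F) (κ : ι → K),
      f = ∑ i ∈ s, algebraMap F K₁ (α i) * algebraMap K K₁ (κ i) := by
    have h1 := GEN f
    rw [Finsupp.mem_span_range_iff_exists_finsupp] at h1
    obtain ⟨c, hc⟩ := h1
    refine ⟨K, c.support, c, id, ?_⟩
    rw [← hc, Finsupp.sum]
    refine Finset.sum_congr rfl fun i _ => ?_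
    rw [Algebra.smul_def]
    rfl
  -- a finite extension which contains the coordinates
  obtain ⟨F', hF'def⟩ : ∃ F' : IntermediateField L F, F' = IntermediateField.adjoin L
    ((s.image α : Finset F) : Set F) := ⟨_, rfl⟩
  have hfin : FiniteDimensional L F' := by
    rw [hF'def]
    exact IntermediateField.finiteDimensional_adjoin
      (fun y _ => (Algebra.IsAlgebraic.isAlgebraic y).isIntegral)
  have hα : ∀ i ∈ s, α i ∈ F' := by
    intro i hi
    rw [hF'def]
    exact IntermediateField.subset_adjoin L _
      (Finset.mem_coe.2 (Finset.mem_image_of_mem _ hi))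
  choose α' hα' using fun i : s => (⟨⟨α i, hα i i.2⟩, rfl⟩ : ∃ a : F', (a : F) = α i)
  let b := Module.finBasis L F'
  have hnd := traceForm_nondegenerate L F'
  let b' := LinearMap.BilinForm.dualBasis (Algebra.traceForm L F') hnd b
  let T : Fin (Module.finrank L F') → K := fun j =>
    ∑ i : s, Algebra.trace L F' (α' i * b j) • κ i
  have hFs : f = ∑ i : s, algebraMap F K₁ (α i) * algebraMap K K₁ (κ i) := by
    rw [hfs, ← Finset.sum_coe_sort]
  refine ⟨Module.finrank L F', fun j => (b' j : F), T, ?_, ?_⟩
  · have h1 : ∀ i : s, (α i : F) = ∑ j, algebraMap L F (Algebra.trace L F' (α' i * b j)) *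
        (b' j : F) := by
      intro i
      have h2 := b'.sum_repr (α' i)
      have h3 := congrArg (Subtype.val : F' → F) h2
      rw [hα'] at h3
      rw [← h3]
      rw [AddSubmonoidClass.coe_finsetSum]
      refine Finset.sum_congr rfl fun j _ => ?_
      have h4 := LinearMap.BilinForm.dualBasis_repr_apply (B := Algebra.traceForm L F') hnd b
        (α' i) j
      rw [Algebra.traceForm_apply] at h4
      have h5 : b'.repr (α' i) j = Algebra.trace L F' (α' i * b j) := h4
      rw [h5, Algebra.smul_def]
      rfl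
    rw [hFs]
    have h2 : ∀ j, algebraMap F K₁ (b' j : F) * algebraMap K K₁ (T j) =
        ∑ i : s, algebraMap F K₁ (algebraMap L F (Algebra.trace L F' (α' i * b j)) *
          (b' j : F)) * algebraMap K K₁ (κ i) := by
      intro j
      simp only [T]
      rw [map_sum, Finset.mul_sum]
      refine Finset.sum_congr rfl fun i _ => ?_
      obtain ⟨c, hc⟩ : ∃ c, c = Algebra.trace L F' (α' i * b j) := ⟨_, rfl⟩
      rw [← hc, Algebra.smul_def, map_mul, map_mul, ← IsScalarTower.algebraMap_apply L K K₁,
        ← IsScalarTower.algebraMap_apply L F K₁]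
      ring
    rw [Finset.sum_congr rfl fun j _ => h2 j, Finset.sum_comm]
    refine Finset.sum_congr rfl fun i _ => ?_
    rw [← Finset.sum_mul, ← map_sum, ← h1]
  · intro j p π hπ
    obtain ⟨P, hP⟩ := exists_up LD GEN p
    have hPπ : P.ord (algebraMap K K₁ π) = 1 := by rw [hP, hπ]
    have hπ0 : π ≠ 0 := by
      rintro rfl
      rw [p.ord_zero] at hπ
      omega
    -- the conjugates
    have hconj : ∀ ρ : F' →ₐ[L] F, Ge P (P.ord (algebraMap K K₁ (D0 π)))
        (∑ i : s, algebraMap F K₁ (ρ (α' i)) * algebraMap K K₁ (κ i)) := by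
      intro ρ
      obtain ⟨γ0, hγ0⟩ := IsAlgClosed.surjective_domRestrict_of_isAlgebraic (K := L) (L := F')
        (M := F) (E := F) ρ
      obtain ⟨γ, hγdef⟩ : ∃ γ : F →+* F, γ = γ0 := ⟨_, rfl⟩
      have hγ : ∀ a : F', γ (a : F) = ρ a := fun a => by
        rw [← hγ0, hγdef]
        rfl
      have hγL : ∀ l : L, γ (algebraMap L F l) = algebraMap L F l := by
        intro l
        have h1 := hγ (algebraMap L F' l)
        rw [ρ.commutes] at h1
        exact h1
      obtain ⟨g, hg1, hg2⟩ := up (L := L) LD GEN ((algebraMap F K₁).comp γ) (algebraMap K K₁)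
        (fun l => by
          rw [RingHom.comp_apply, hγL, ← IsScalarTower.algebraMap_apply,
            ← IsScalarTower.algebraMap_apply])
      have hg1' : ∀ a : F, g (algebraMap F K₁ a) = algebraMap F K₁ (γ a) := hg1
      have hgf : g f = ∑ i : s, algebraMap F K₁ (ρ (α' i)) * algebraMap K K₁ (κ i) := by
        rw [hFs, map_sum]
        refine Finset.sum_congr rfl fun i _ => ?_
        rw [map_mul, hg1', hg2, ← hα', hγ]
      rw [← hgf]
      let Pg := plComp P g γ hg1' ⟨algebraMap K K₁ π, by simpa using hπ0, by rw [hg2, hPπ]⟩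
      have hPgπ : Pg.ord (algebraMap K K₁ π) = 1 := by
        change P.ord (g (algebraMap K K₁ π)) = 1
        rw [hg2, hPπ]
      have h1 := hf Pg
      rw [← vo_eq Pg hPgπ hD1ne, der_compat hx D0 hD0 D1 hD1] at h1
      right
      have h2 : Pg.ord (algebraMap K K₁ (D0 π)) = P.ord (algebraMap K K₁ (D0 π)) := by
        change P.ord (g (algebraMap K K₁ (D0 π))) = _
        rw [hg2]
      rw [h2] at h1
      exact h1
    have hT : algebraMap K K₁ (T j) = ∑ ρ : F' →ₐ[L] F, algebraMap F K₁ (ρ (b j)) *
        ∑ i : s, algebraMap F K₁ (ρ (α' i)) * algebraMap K K₁ (κ i) := by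
      simp only [T]
      rw [map_sum]
      have h1 : ∀ i : s, algebraMap K K₁ (Algebra.trace L F' (α' i * b j) • κ i) =
          ∑ ρ : F' →ₐ[L] F, algebraMap F K₁ (ρ (b j)) *
            (algebraMap F K₁ (ρ (α' i)) * algebraMap K K₁ (κ i)) := by
        intro i
        have h2 := trace_eq_sum_embeddings (K := L) (L := F') F (x := α' i * b j)
        rw [Algebra.smul_def, map_mul, ← IsScalarTower.algebraMap_apply L K K₁,
          IsScalarTower.algebraMap_apply L F K₁, h2, map_sum, Finset.sum_mul]
        refine Finset.sum_congr rfl fun ρ _ => ?_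
        rw [map_mul, map_mul]
        ring
      rw [Finset.sum_congr rfl fun i _ => h1 i, Finset.sum_comm]
      refine Finset.sum_congr rfl fun ρ _ => ?_
      rw [Finset.mul_sum]
    have h3 : Ge P (P.ord (algebraMap K K₁ (D0 π))) (algebraMap K K₁ (T j)) := by
      rw [hT]
      refine Ge.sum _ _ fun ρ _ => ?_
      have h4 := (Ge.const (P := P) (ρ (b j))).mul (hconj ρ)
      rwa [zero_add] at h4
    rcases h3 with h4 | h4
    · left
      simpa using h4
    · right
      rw [hP, hP] at h4
      exact h4

end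

end Pool.Agent.N162.BC
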