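import Mathlib

/-!
Derivations of a field with values in a vector space.
-/

set_option autoImplicit false
set_option linter.unusedSectionVars false

namespace Pool.Agent.N162.BC

section

variable {k A V : Type} [Field k] [Field A] [Algebra k A] [AddCommGroup V] [Module k V]
  [Module A V] [IsScalarTower k A V]

/-- the field of constants of a derivation -/
def consts (D : Derivation k A V) : IntermediateField k A where
  carrier := {x | D x = 0}
  mul_mem' := by
    intro a b ha hb
    simp only [Set.mem_ofPred_eq] at ha hb ⊢
    rw [D.leibniz, ha, hb]
    simp
  add_mem' := by
    intro a b ha hb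
    simp only [Set.mem_ofPred_eq] at ha hb ⊢
    rw [map_add, ha, hb, add_zero]
  algebraMap_mem' := fun r => D.map_algebraMap r
  inv_mem' := by
    intro a ha
    simp only [Set.mem_ofPred_eq] at ha ⊢
    rw [D.leibniz_inv, ha]
    simp

/-- a derivation is linear over its field of constants -/
def overConsts (D : Derivation k A V) : Derivation (consts D) A V :=
  Derivation.mk'
    { toFun := fun x => D x
      map_add' := fun x y => map_add D x y
      map_smul' := fun c x => by
        have h : D (c : A) = 0 := c.2
        change D ((c : A) * x) = (c : A) • D x
        rw [D.leibniz, h]
        simp }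
    (fun x y => D.leibniz x y)

theorem overConsts_apply (D : Derivation k A V) (x : A) : overConsts D x = D x := rfl

/-- a derivation vanishes if the field is algebraic over the constants -/
theorem derv_eq_zero [CharZero k] (D : Derivation k A V) (S : Set A)
    (hS : Algebra.IsAlgebraic (IntermediateField.adjoin k S) A) (h : ∀ s ∈ S, D s = 0) : D = 0 := by
  have hle : IntermediateField.adjoin k S ≤ consts D := by
    rw [IntermediateField.adjoin_le_iff]
    exact h
  let _ : Algebra (IntermediateField.adjoin k S) (consts D) :=
    (IntermediateField.inclusion hle).toRingHom.toAlgebra
  have : IsScalarTower (IntermediateField.adjoin k S) (consts D) A :=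
    IsScalarTower.of_algebraMap_eq fun x => rfl
  have halg : Algebra.IsAlgebraic (consts D) A :=
    Algebra.IsAlgebraic.extendScalars (R := IntermediateField.adjoin k S)
      (IntermediateField.inclusion hle).toRingHom.injective
  ext f
  have hint : IsIntegral (consts D) f := (halg.isAlgebraic f).isIntegral
  have hchar : CharZero (consts D) := charZero_of_injective_algebraMap
    (algebraMap k (consts D)).injective
  have h1 : overConsts D (Polynomial.aeval f (minpoly (consts D) f)) = 0 := by
    rw [minpoly.aeval, map_zero]
  rw [Derivation.map_aeval] at h1
  have h2 : Polynomial.aeval f (Polynomial.derivative (minpoly (consts D) f)) ≠ 0 :=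
    (minpoly.irreducible hint).separable.aeval_derivative_ne_zero (minpoly.aeval _ _)
  rw [overConsts_apply] at h1
  exact (smul_eq_zero.mp h1).resolve_left h2

end

end Pool.Agent.N162.BC
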