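import Pool.Agent.N162.BC.Local2

/-!
Every point with values in `Ω` which is not constant is the centre of a place.
-/

set_option autoImplicit false
set_option linter.overlappingInstances false
set_option linter.unusedSectionVars false
set_option linter.unusedDecidableInType false
set_option linter.unusedFintypeInType false
set_option linter.unusedVariables false
set_option maxHeartbeats 4000000
set_option synthInstance.maxHeartbeats 400000

open FF Polynomial Pool.Agent.W603.LV IntermediateField Pool.Agent.W619.PQ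

namespace Pool.Agent.N162.BC

section

variable {k F : Type} [Field k] [Field F] [Algebra k F]

theorem indep_of_poly {x : F} (hx : Transcendental k x) {ι : Type} [Fintype ι] (v : ι → F)
    (h : ∀ q : ι → k[X], ∑ i, aeval x (q i) * v i = 0 → ∀ i, q i = 0) :
    LinearIndependent k⟮x⟯ v := by
  classical
  rw [Fintype.linearIndependent_iff]
  intro g hg i
  choose p q hq hpq using fun i => exists_px_div (g i)
  have h1 := h (fun i => p i * ∏ j ∈ Finset.univ.erase i, q j) (by
    have h2 : ∀ i, aeval x (p i * ∏ j ∈ Finset.univ.erase i, q j) * v i =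
        aeval x (∏ j, q j) * (g i • v i) := by
      intro i
      have h3 : (g i : F) * aeval x (q i) = aeval x (p i) := by
        have := congrArg (Subtype.val : k⟮x⟯ → F) (hpq i)
        rw [← coe_px, ← coe_px]
        exact this
      rw [← Finset.mul_prod_erase Finset.univ q (Finset.mem_univ i), map_mul, map_mul, ← h3,
        Algebra.smul_def]
      change _ = _ * ((g i : F) * v i)
      ring
    rw [Finset.sum_congr rfl fun i _ => h2 i, ← Finset.mul_sum, hg, mul_zero]) i
  have h2 : p i = 0 := by
    rcases mul_eq_zero.1 h1 with h3 | h3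
    · exact h3
    · exfalso
      rw [Finset.prod_eq_zero_iff] at h3
      obtain ⟨j, -, hj⟩ := h3
      exact hq j hj
  have h3 := hpq i
  rw [h2, map_zero] at h3
  rcases mul_eq_zero.1 h3 with h4 | h4
  · exact h4
  · exfalso
    exact hq i (px_injective hx (by rw [h4, map_zero]))

theorem indep_pow {x : F} (hx : Transcendental k x) :
    LinearIndependent k (fun j : ℕ => x ^ j) := by
  have h1 := (Polynomial.basisMonomials k).linearIndependent.map'
    (Polynomial.aeval x : k[X] →ₐ[k] F).toLinearMap (by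
      rw [LinearMap.ker_eq_bot]
      exact transcendental_iff_injective.1 hx)
  have e : (fun i : ℕ => x ^ i) = (Polynomial.aeval x : k[X] →ₐ[k] F).toLinearMap ∘
      (Polynomial.basisMonomials k) := by
    funext i
    simp
  rw [e]
  exact h1

theorem indep_pow_mul {x : F} (hx : Transcendental k x) {ι : Type} {e : ι → F}
    (he : LinearIndependent k⟮x⟯ e) :
    LinearIndependent k (fun p : ℕ × ι => x ^ p.1 * e p.2) := by
  have h1 : LinearIndependent k (fun i : ℕ => (AdjoinSimple.gen k x) ^ i) := by
    apply LinearIndependent.of_comp (IsScalarTower.toAlgHom k k⟮x⟯ F).toLinearMap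
    have e : (IsScalarTower.toAlgHom k k⟮x⟯ F).toLinearMap ∘
        (fun i : ℕ => (AdjoinSimple.gen k x) ^ i) = fun i => x ^ i := by
      funext i
      simp
    rw [e]
    exact indep_pow hx
  have h2 := linearIndependent_smul h1 he
  have e : (fun p : ℕ × ι => x ^ p.1 * e p.2) =
      fun p : ℕ × ι => (AdjoinSimple.gen k x) ^ p.1 • e p.2 := by
    funext p
    rw [Algebra.smul_def, map_pow]
    rfl
  rw [e]
  exact h2

end

section

variable {F K Ω M : Type} [Field F] [Field K] [Field Ω] [Field M]
  [Algebra F K] [Algebra F Ω] [Algebra Ω M] [Algebra K M] [Algebra F M] [IsScalarTower F Ω M]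
  [IsScalarTower F K M] [CharZero Ω] [IsAlgClosed Ω] [IsFF Ω M]
  [CharZero F] [IsAlgClosed F] [IsFF F K]

variable (hlin : ∀ {ι : Type} (v : ι → K), LinearIndependent F v →
  LinearIndependent Ω (fun i => algebraMap K M (v i)))

include hlin

theorem transc_up {x : K} (hx : Transcendental F x) : Transcendental Ω (algebraMap K M x) := by
  have h1 := hlin _ (indep_pow hx)
  rw [transcendental_iff]
  intro p hp
  rw [aeval_eq_sum_range] at hp
  ext j
  by_cases hj : j ∈ Finset.range (p.natDegree + 1)
  · have h2 := (linearIndependent_iff'.1 h1) (Finset.range (p.natDegree + 1)) (fun i => p.coeff i)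
      (by
        rw [← hp]
        refine Finset.sum_congr rfl fun i _ => ?_
        rw [map_pow])
    rw [h2 j hj, coeff_zero]
  · rw [Finset.mem_range, not_lt] at hj
    rw [coeff_eq_zero_of_natDegree_lt (by omega), coeff_zero]

theorem indep_up {x : K} (hx : Transcendental F x) {ι : Type} [Fintype ι] {e : ι → K}
    (he : LinearIndependent F⟮x⟯ e) :
    LinearIndependent Ω⟮algebraMap K M x⟯ (fun i => algebraMap K M (e i)) := by
  classical
  refine indep_of_poly (transc_up hlin hx) _ fun q hq i => ?_
  have h1 := hlin _ (indep_pow_mul hx he)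
  obtain ⟨N, hN⟩ : ∃ N, ∀ i, (q i).natDegree < N := by
    refine ⟨(∑ i, (q i).natDegree) + 1, fun i => Nat.lt_succ_of_le ?_⟩
    exact Finset.single_le_sum (f := fun i => (q i).natDegree) (fun _ _ => Nat.zero_le _)
      (Finset.mem_univ i)
  have h2 := (linearIndependent_iff'.1 h1) (Finset.range N ×ˢ Finset.univ)
    (fun p => (q p.2).coeff p.1) (by
      rw [Finset.sum_product_right, ← hq]
      refine Finset.sum_congr rfl fun i _ => ?_
      rw [aeval_eq_sum_range' (hN i), Finset.sum_mul]
      refine Finset.sum_congr rfl fun j _ => ?_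
      rw [map_mul, map_pow, smul_mul_assoc])
  ext j
  rw [coeff_zero]
  by_cases hj : j < N
  · exact h2 (j, i) (Finset.mem_product.2 ⟨Finset.mem_range.2 hj, Finset.mem_univ _⟩)
  · exact coeff_eq_zero_of_natDegree_lt (by have := hN i; omega)

variable (hM : ∀ f : M, ∃ a ∈ BR Ω M (⊤ : Subring K), ∃ b ∈ BR Ω M (⊤ : Subring K),
  b ≠ 0 ∧ f * b = a)

include hM

/-- **Every point is the centre of a place.** -/
theorem exists_place_cen (σ : K →ₐ[F] Ω) : ∃ P : Place Ω M, Cen P σ := by
  classical
  obtain ⟨x, hx⟩ := IsFF.exists_transcendental (k := F) (K := K)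
  have hσx : Transcendental F (σ x) := fun h => hx ((isAlgebraic_algHom_iff σ σ.injective).1 h)
  have hτx := transc_up hlin hx
  have hfin : FiniteDimensional F⟮x⟯ K := IsFF.finite hx
  have hchar : CharZero F⟮x⟯ := charZero_of_injective_algebraMap (algebraMap F F⟮x⟯).injective
  obtain ⟨y, hy⟩ : ∃ y, y = algebraMap K M x - algebraMap Ω M (σ x) := ⟨_, rfl⟩
  have hyt : Transcendental Ω y := by
    intro h
    apply hτx
    have h1 : algebraMap K M x = y + algebraMap Ω M (σ x) := by
      rw [hy]
      ring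
    rw [h1]
    exact h.add (isAlgebraic_algebraMap _)
  have hfield : Ω⟮y⟯ = Ω⟮algebraMap K M x⟯ := by
    apply le_antisymm
    · rw [adjoin_simple_le_iff, hy]
      exact sub_mem (mem_adjoin_simple_self Ω _) (IntermediateField.algebraMap_mem _ _)
    · rw [adjoin_simple_le_iff]
      have h1 : algebraMap K M x = y + algebraMap Ω M (σ x) := by
        rw [hy]
        ring
      rw [h1]
      exact add_mem (mem_adjoin_simple_self Ω _) (IntermediateField.algebraMap_mem _ _)
  have hfinM : FiniteDimensional Ω⟮algebraMap K M x⟯ M := IsFF.finite hτx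
  -- the degree
  have hdeg : Module.finrank F⟮x⟯ K ≤ Module.finrank Ω⟮algebraMap K M x⟯ M := by
    have h1 := indep_up hlin hx (Module.finBasis F⟮x⟯ K).linearIndependent
    have h2 := h1.fintype_card_le_finrank
    rwa [Fintype.card_fin] at h2
  obtain ⟨S, hS, -, hS2⟩ := zeros (k := Ω) (K := M) hyt
  -- the places over the value of x
  have hcen : ∀ P ∈ S, ∃ τ : K →ₐ[F] Ω, Cen P τ ∧ τ x = σ x := by
    intro P hP
    have h1 : Ge P 1 y := Or.inr ((hS P).1 hP)
    rw [hy] at h1
    obtain ⟨τ, hτ⟩ := exists_cen (F := F) (gen_of_val (F := F) hσx h1)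
    refine ⟨τ, hτ, ?_⟩
    have h2 := (hτ x).sub h1
    rw [sub_sub_sub_cancel_left, ← map_sub] at h2
    exact (sub_eq_zero.1 (not_ge_const h2)).symm
  have hcard : S.card = Module.finrank Ω⟮y⟯ M := by
    rw [← hS2, Finset.card_eq_sum_ones]
    refine Finset.sum_congr rfl fun P hP => ?_
    obtain ⟨τ, hτ, hτx'⟩ := hcen P hP
    have h1 := gen_unif hM hτ hx
    rw [hτx', ← hy] at h1
    rw [h1, deg_one]
    rfl
  rw [hfield] at hcard
  rw [← hcard] at hdeg
  -- the embeddings
  let i1 : Algebra F⟮x⟯ Ω := (σ.toRingHom.comp (algebraMap F⟮x⟯ K)).toAlgebra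
  have hi1 : ∀ e : F⟮x⟯, algebraMap F⟮x⟯ Ω e = σ (e : K) := fun e => rfl
  have hagree : ∀ τ : K →ₐ[F] Ω, τ x = σ x → ∀ e : F⟮x⟯, τ (e : K) = σ (e : K) := by
    intro τ hτ e
    obtain ⟨e, he⟩ := e
    induction he using IntermediateField.adjoin_induction with
    | mem e he =>
      rw [Set.mem_singleton_iff] at he
      subst he
      exact hτ
    | algebraMap c =>
      change τ (algebraMap F K c) = σ (algebraMap F K c)
      rw [AlgHom.commutes, AlgHom.commutes]
    | add a b _ _ ha hb =>
      change τ (a + b) = σ (a + b)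
      rw [map_add, map_add]
      exact congrArg₂ _ ha hb
    | inv a _ ha =>
      change τ (a⁻¹) = σ (a⁻¹)
      rw [map_inv₀, map_inv₀]
      exact congrArg _ ha
    | mul a b _ _ ha hb =>
      change τ (a * b) = σ (a * b)
      rw [map_mul, map_mul]
      exact congrArg₂ _ ha hb
  have hT : ∀ τ : K →ₐ[F] Ω, τ x = σ x → ∃ τ' : K →ₐ[F⟮x⟯] Ω, ∀ e, τ' e = τ e := fun τ hτ =>
    ⟨{ τ with commutes' := fun e => (hagree τ hτ e).trans (hi1 e).symm }, fun e => rfl⟩
  have hcardT : Fintype.card (K →ₐ[F⟮x⟯] Ω) = Module.finrank F⟮x⟯ K := AlgHom.card _ _ _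
  choose τ hτc hτx' using hcen
  choose τ' hτ' using hT
  let φ : S → (K →ₐ[F⟮x⟯] Ω) := fun P => τ' (τ P.1 P.2) (hτx' P.1 P.2)
  have hφ : Function.Injective φ := by
    intro P Q hPQ
    have h1 : τ P.1 P.2 = τ Q.1 Q.2 := by
      ext e
      have h2 := congrArg (fun ψ : K →ₐ[F⟮x⟯] Ω => ψ e) hPQ
      simp only [φ] at h2
      rwa [hτ', hτ'] at h2
    have h2 := hτc P.1 P.2
    rw [h1] at h2
    exact Subtype.ext (gen_unique hM h2 (hτc Q.1 Q.2))
  have hbij : Function.Bijective φ := by
    rw [Fintype.bijective_iff_injective_and_card]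
    refine ⟨hφ, le_antisymm (Fintype.card_le_of_injective φ hφ) ?_⟩
    rw [hcardT, Fintype.card_coe]
    exact hdeg
  obtain ⟨P, hP⟩ := hbij.2 (τ' σ rfl)
  refine ⟨P.1, ?_⟩
  have h1 : τ P.1 P.2 = σ := by
    ext e
    have h2 := congrArg (fun ψ : K →ₐ[F⟮x⟯] Ω => ψ e) hP
    simp only [φ] at h2
    rwa [hτ', hτ'] at h2
  have h2 := hτc P.1 P.2
  rwa [h1] at h2

end

end Pool.Agent.N162.BC
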