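import Pool.Agent.N162.BC.Local
import Pool.Agent.N162.BC.Der
import Pool.Agent.N162.BC.Exist
import Pool.Agent.Helper386.D5V.Helper386_FF_Riemann

/-!
The extension of the constant field of a function field to an algebraic closure.
-/

set_option autoImplicit false
set_option linter.overlappingInstances false
set_option linter.unusedSectionVars false
set_option linter.unusedDecidableInType false
set_option linter.unusedFintypeInType false
set_option linter.unusedVariables false
set_option maxHeartbeats 4000000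
set_option synthInstance.maxHeartbeats 400000

open FF Polynomial Pool.Agent.W603.LV IntermediateField Pool.Agent.W619.PQ

open scoped TensorProduct

namespace Pool.Agent.N162.BC

section

variable {L K F K₁ : Type} [Field L] [Field K] [Field F] [Field K₁]
  [Algebra L K] [Algebra L F] [Algebra F K₁] [Algebra K K₁] [Algebra L K₁] [IsScalarTower L F K₁]
  [IsScalarTower L K K₁]

/-- universal property of the constant field extension -/
theorem up (LD : ∀ {ι : Type} (v : ι → K), LinearIndependent L v →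
      LinearIndependent F (fun i => algebraMap K K₁ (v i)))
    (GEN : ∀ f : K₁, f ∈ Submodule.span F (Set.range (algebraMap K K₁)))
    {R : Type} [CommRing R] (a : F →+* R) (b : K →+* R)
    (hab : ∀ l : L, a (algebraMap L F l) = b (algebraMap L K l)) :
    ∃ g : K₁ →+* R, (∀ α : F, g (algebraMap F K₁ α) = a α) ∧
      ∀ κ : K, g (algebraMap K K₁ κ) = b κ := by
  classical
  let ψ : F ⊗[L] K →ₐ[L] K₁ := Algebra.TensorProduct.lift (IsScalarTower.toAlgHom L F K₁)
    (IsScalarTower.toAlgHom L K K₁) (fun _ _ => Commute.all _ _)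
  have hψ : ∀ (α : F) (κ : K), ψ (α ⊗ₜ κ) = algebraMap F K₁ α * algebraMap K K₁ κ := by
    intro α κ
    simp [ψ]
  have hψs : ∀ (α : F) (t : F ⊗[L] K), ψ (α • t) = α • ψ t := by
    intro α t
    rw [Algebra.smul_def, Algebra.smul_def, map_mul]
    congr 1
    rw [Algebra.TensorProduct.algebraMap_apply, hψ, map_one, mul_one]
    rfl
  have hinj : Function.Injective ψ := by
    rw [injective_iff_map_eq_zero]
    intro t ht
    let κ := Module.Basis.ofVectorSpace L K
    let B := Algebra.TensorProduct.basis F κ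
    have h1 := LD κ κ.linearIndependent
    have h2 : ψ t = Finsupp.linearCombination F (fun i => algebraMap K K₁ (κ i)) (B.repr t) := by
      conv_lhs => rw [← B.linearCombination_repr t]
      rw [Finsupp.linearCombination_apply, Finsupp.linearCombination_apply, Finsupp.sum,
        Finsupp.sum, map_sum]
      refine Finset.sum_congr rfl fun i _ => ?_
      rw [hψs, Algebra.TensorProduct.basis_apply, hψ, map_one, one_mul]
    rw [h2] at ht
    have h3 := (linearIndependent_iff.1 h1) _ ht
    exact (LinearEquiv.map_eq_zero_iff B.repr).1 h3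
  have hsurj : Function.Surjective ψ := by
    intro f
    have h1 := GEN f
    induction h1 using Submodule.span_induction with
    | mem x hx =>
      obtain ⟨κ, rfl⟩ := hx
      exact ⟨1 ⊗ₜ κ, by rw [hψ, map_one, one_mul]⟩
    | zero => exact ⟨0, map_zero _⟩
    | add x y _ _ hx hy =>
      obtain ⟨s, hs⟩ := hx
      obtain ⟨t, ht⟩ := hy
      exact ⟨s + t, by rw [map_add, hs, ht]⟩
    | smul α x _ hx =>
      obtain ⟨s, hs⟩ := hx
      exact ⟨α • s, by rw [hψs, hs]⟩
  let e := AlgEquiv.ofBijective ψ ⟨hinj, hsurj⟩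
  let _ : Algebra L R := (a.comp (algebraMap L F)).toAlgebra
  let a' : F →ₐ[L] R := { a with commutes' := fun l => rfl }
  let b' : K →ₐ[L] R := { b with commutes' := fun l => (hab l).symm }
  let χ : F ⊗[L] K →ₐ[L] R := Algebra.TensorProduct.lift a' b' (fun _ _ => Commute.all _ _)
  refine ⟨(χ.comp e.symm.toAlgHom : K₁ →ₐ[L] R), fun α => ?_, fun κ => ?_⟩
  · have h1 : e (α ⊗ₜ 1) = algebraMap F K₁ α := by
      change ψ (α ⊗ₜ 1) = _
      rw [hψ, map_one, mul_one]
    change χ (e.symm (algebraMap F K₁ α)) = a α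
    rw [← h1, AlgEquiv.symm_apply_apply]
    simp [χ, a']
  · have h1 : e (1 ⊗ₜ κ) = algebraMap K K₁ κ := by
      change ψ (1 ⊗ₜ κ) = _
      rw [hψ, map_one, one_mul]
    change χ (e.symm (algebraMap K K₁ κ)) = b κ
    rw [← h1, AlgEquiv.symm_apply_apply]
    simp [χ, b']

theorem up_unique (GEN : ∀ f : K₁, f ∈ Submodule.span F (Set.range (algebraMap K K₁)))
    {R : Type} [CommRing R] {g g' : K₁ →+* R}
    (h1 : ∀ α : F, g (algebraMap F K₁ α) = g' (algebraMap F K₁ α))
    (h2 : ∀ κ : K, g (algebraMap K K₁ κ) = g' (algebraMap K K₁ κ)) : g = g' := by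
  ext f
  have h3 := GEN f
  induction h3 using Submodule.span_induction with
  | mem x hx =>
    obtain ⟨κ, rfl⟩ := hx
    exact h2 κ
  | zero => rw [map_zero, map_zero]
  | add x y _ _ hx hy => rw [map_add, map_add, hx, hy]
  | smul α x _ hx => rw [Algebra.smul_def, map_mul, map_mul, h1, hx]

variable [CharZero L] [CharZero K] [CharZero F] [IsAlgClosed F] [IsFF L K] [IsFF F K₁]
  [Algebra.IsAlgebraic L F]

theorem alg_of_gen {L K F K₁ : Type} [Field L] [Field K] [Field F] [Field K₁]
    [Algebra L K] [Algebra L F] [Algebra F K₁] [Algebra K K₁] [Algebra L K₁] [IsScalarTower L F K₁]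
    [IsScalarTower L K K₁] [Algebra.IsAlgebraic L F]
    (GEN : ∀ f : K₁, f ∈ Submodule.span F (Set.range (algebraMap K K₁))) :
    Algebra.IsAlgebraic K K₁ := by
  refine ⟨fun f => ?_⟩
  have h3 := GEN f
  induction h3 using Submodule.span_induction with
  | mem x hx =>
    obtain ⟨κ, rfl⟩ := hx
    exact isAlgebraic_algebraMap κ
  | zero => exact isAlgebraic_zero
  | add x y _ _ hx hy => exact hx.add hy
  | smul α x _ hx =>
    rw [Algebra.smul_def]
    refine IsAlgebraic.mul ?_ hx
    have h4 : IsAlgebraic L (algebraMap F K₁ α) :=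
      (Algebra.IsAlgebraic.isAlgebraic (R := L) α).algebraMap
    exact h4.extendScalars (algebraMap L K).injective

/-- places of the constant field extension are unramified -/
theorem unr (GEN : ∀ f : K₁, f ∈ Submodule.span F (Set.range (algebraMap K K₁)))
    (P : Place F K₁) : ∃ p : Place L K, ∀ κ : K, P.ord (algebraMap K K₁ κ) = p.ord κ := by
  classical
  have halg := alg_of_gen (K := K) (L := L) GEN
  -- nontrivial on K
  have hex : ∃ κ : K, P.ord (algebraMap K K₁ κ) ≠ 0 := by
    by_contra hcon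
    push Not at hcon
    let P' : Place K K₁ :=
      { ord := P.ord
        ord_zero := P.ord_zero
        ord_mul := P.ord_mul
        ord_add := P.ord_add
        ord_const := fun {c} _ => hcon c
        surj := P.surj }
    obtain ⟨t, ht0, ht⟩ := P.surj
    have h1 := P'.ord_eq_zero_of_isAlgebraic ht0 (halg.isAlgebraic t)
    change P.ord t = 0 at h1
    omega
  obtain ⟨κ0, hκ0⟩ := hex
  obtain ⟨e0, p, hp⟩ := exists_over (K := K) (rc L P) ⟨κ0, hκ0⟩
  have hp2 : ∀ f, P.ord (algebraMap K K₁ f) = e0 * p.ord f := hp.2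
  have he0 : (0 : ℤ) < e0 := by exact_mod_cast hp.1
  have hge : ∀ {e : K}, Ge p 0 e → Ge P 0 (algebraMap K K₁ e) := by
    intro e he
    rcases he with h | h
    · left
      rw [h, map_zero]
    · right
      rw [hp2]
      positivity
  obtain ⟨π, hπ0, hπ1⟩ := p.surj
  obtain ⟨R, hRdef⟩ : ∃ R, R = p.O.toSubring := ⟨_, rfl⟩
  have hRm : ∀ r, r ∈ R ↔ Ge p 0 r := fun r => by
    rw [hRdef]
    exact Iff.rfl
  have hRreg : ∀ r ∈ R, Ge P 0 (algebraMap K K₁ r) := fun r hr => hge ((hRm r).1 hr)
  have hπR : π ∈ R := (hRm π).2 (Or.inr (by omega))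
  have hB : ∀ b ∈ BR F K₁ R, Ge P 0 b := BR_reg P hRreg
  have hππ : 0 < P.ord (algebraMap K K₁ π) := by
    rw [hp2, hπ1]
    omega
  have hRfr : ∀ e : K, ∃ r ∈ R, ∃ s ∈ R, s ≠ 0 ∧ e * s = r := by
    intro e
    by_cases h0 : Ge p 0 e
    · exact ⟨e, (hRm e).2 h0, 1, one_mem _, one_ne_zero, mul_one e⟩
    · have h1 : e ≠ 0 := fun h => h0 (Or.inl h)
      refine ⟨1, one_mem _, e⁻¹, (hRm _).2 (Or.inr ?_), inv_ne_zero h1, mul_inv_cancel₀ h1⟩
      rw [p.ord_inv]
      by_contra hcon
      exact h0 (Or.inr (by omega))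
  have hM : ∀ f : K₁, ∃ a ∈ BR F K₁ (⊤ : Subring K), ∃ b ∈ BR F K₁ (⊤ : Subring K),
      b ≠ 0 ∧ f * b = a := by
    intro f
    refine ⟨f, ?_, 1, one_mem _, one_ne_zero, mul_one f⟩
    have h2 : Submodule.span F (Set.range (algebraMap K K₁)) ≤
        Subalgebra.toSubmodule (BR F K₁ (⊤ : Subring K)) := by
      rw [Submodule.span_le]
      rintro _ ⟨e, rfl⟩
      exact mem_BR (Subring.mem_top _)
    exact h2 (GEN f)
  have hfr := BR_frac hM hRfr
  -- a generator of the residue field
  obtain ⟨α, hα⟩ := Field.exists_primitive_element L p.RF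
  obtain ⟨θ, hθ, hθα⟩ := p.red_surjective α
  have hθ' : Ge p 0 θ := hθ
  obtain ⟨θ0, hθ0⟩ := exists_const P (hge hθ')
  have hred : ∀ g : L[X], p.Reg (aeval θ g) ∧ p.red (aeval θ g) = aeval α g := by
    intro g
    induction g using Polynomial.induction_on' with
    | add g h hg hh =>
      rw [map_add, map_add]
      exact ⟨p.reg_add hg.1 hh.1, by rw [p.red_add hg.1 hh.1, hg.2, hh.2]⟩
    | monomial n c =>
      rw [← C_mul_X_pow_eq_monomial, map_mul, map_mul, map_pow, map_pow, aeval_X, aeval_X, aeval_C,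
        aeval_C]
      have h1 : p.Reg (θ ^ n) := by
        have := hθ'.pow n
        rw [mul_zero] at this
        exact this
      refine ⟨p.reg_mul (p.reg_const c) h1, ?_⟩
      rw [p.red_mul (p.reg_const c) h1, p.red_pow hθ, hθα]
      rfl
  have hdiff : ∀ e : K, Ge p 0 e → p.red e = 0 → ∃ e' : K, Ge p 0 e' ∧ e = π * e' := by
    intro e he h0
    refine ⟨e / π, ?_, by field_simp⟩
    refine Ge.of_mul' (h := π) (m := 1) hπ0 hπ1 ?_
    have h1 : π * (e / π) = e := by field_simp
    rw [h1]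
    rcases (p.red_eq_zero_iff he).1 h0 with h2 | h2
    · exact Or.inl h2
    · exact Or.inr (by omega)
  have hlift : ∀ e : K, Ge p 0 e → ∃ g : L[X], ∃ e' : K, Ge p 0 e' ∧ e = aeval θ g + π * e' := by
    intro e he
    have h1 : p.red e ∈ (⊤ : IntermediateField L p.RF) := trivial
    rw [← hα] at h1
    have h2 : (IntermediateField.adjoin L {α}).toSubalgebra = Algebra.adjoin L {α} :=
      IntermediateField.adjoin_simple_toSubalgebra_of_isAlgebraic
        (Algebra.IsAlgebraic.isAlgebraic α)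
    have h3 : p.red e ∈ Algebra.adjoin L {α} := by
      rw [← h2]
      exact h1
    rw [Algebra.adjoin_singleton_eq_range_aeval] at h3
    obtain ⟨g, hg⟩ := h3
    have hg' : aeval α g = p.red e := hg
    have h4 := hred g
    obtain ⟨e', he', h5⟩ := hdiff (e - aeval θ g) (Ge.sub he h4.1) (by
      rw [p.red_sub he h4.1, h4.2, hg', sub_self])
    exact ⟨g, e', he', by rw [← h5]; ring⟩
  -- the minimal polynomial
  have hint : IsIntegral L α := Algebra.IsIntegral.isIntegral α
  obtain ⟨m, hm⟩ : ∃ m, m = minpoly L α := ⟨_, rfl⟩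
  obtain ⟨e'', he'', hme⟩ := hdiff (aeval θ m) (hred m).1 (by
    rw [(hred m).2, hm, minpoly.aeval])
  have hKe : ∀ g : L[X], algebraMap K K₁ (aeval θ g) = aeval (algebraMap K K₁ θ) g := fun g =>
    (Polynomial.aeval_algebraMap_apply K₁ θ g).symm
  have hFe : ∀ g : L[X], algebraMap F K₁ (aeval θ0 g) = aeval (algebraMap F K₁ θ0) g := fun g =>
    (Polynomial.aeval_algebraMap_apply K₁ θ0 g).symm
  obtain ⟨B, hBdef⟩ : ∃ B, B = BR F K₁ R := ⟨_, rfl⟩
  rw [← hBdef] at hB hfr
  have hRB : ∀ r, Ge p 0 r → algebraMap K K₁ r ∈ B := fun r hr => by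
    rw [hBdef]
    exact mem_BR ((hRm r).2 hr)
  have hFB : ∀ r : F, algebraMap F K₁ r ∈ B := fun r => B.algebraMap_mem r
  -- Taylor
  have htay : ∀ g : L[X], ∃ q ∈ B, aeval (algebraMap K K₁ θ) g - aeval (algebraMap F K₁ θ0) g =
      (algebraMap K K₁ θ - algebraMap F K₁ θ0) *
        (aeval (algebraMap F K₁ θ0) (derivative g) +
          q * (algebraMap K K₁ θ - algebraMap F K₁ θ0)) := by
    intro g
    obtain ⟨k, hk⟩ := binomExpansion (g.map (algebraMap L B)) (⟨_, hFB θ0⟩ : B)
      (⟨_, hRB θ hθ'⟩ - ⟨_, hFB θ0⟩)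
    refine ⟨k, k.2, ?_⟩
    have h1 := congrArg (Subtype.val : B → K₁) hk
    rw [add_sub_cancel, derivative_map, eval_map_algebraMap, eval_map_algebraMap,
      eval_map_algebraMap] at h1
    have hcoe : ∀ (b : B) (g : L[X]), ((aeval b g : B) : K₁) = aeval (b : K₁) g := by
      intro b g
      have := Polynomial.aeval_algHom_apply (B.val.restrictScalars L) b g
      exact this.symm
    simp only [Subalgebra.coe_add, Subalgebra.coe_mul, Subalgebra.coe_pow, Subalgebra.coe_sub,
      hcoe] at h1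
    rw [h1]
    ring
  obtain ⟨q, hqB, hq⟩ := htay m
  have hm0 : aeval θ0 m = 0 := by
    have h1 : Ge P 1 (aeval (algebraMap K K₁ θ) m) := by
      rw [← hKe, hme, map_mul]
      have h2 : Ge P 1 (algebraMap K K₁ π) := Or.inr (by omega)
      have h3 := h2.mul (hge he'')
      rwa [add_zero] at h3
    have h2 : Ge P 1 (aeval (algebraMap K K₁ θ) m - aeval (algebraMap F K₁ θ0) m) := by
      rw [hq]
      have h3 : Ge P 0 (aeval (algebraMap F K₁ θ0) (derivative m) +
          q * (algebraMap K K₁ θ - algebraMap F K₁ θ0)) := by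
        rw [← hFe]
        refine (Ge.const _).add ?_
        have h4 := (hB q hqB).mul hθ0
        rw [zero_add] at h4
        exact h4.mono (by norm_num)
      have h4 := hθ0.mul h3
      rwa [add_zero] at h4
    have h3 := h1.sub h2
    rw [sub_sub_cancel, ← hFe] at h3
    exact not_ge_const h3
  have hm1 : aeval θ0 (derivative m) ≠ 0 := by
    refine Separable.aeval_derivative_ne_zero ?_ hm0
    rw [hm]
    exact (minpoly.irreducible hint).separable
  obtain ⟨w, hw⟩ : ∃ w, w = aeval (algebraMap F K₁ θ0) (derivative m) +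
    q * (algebraMap K K₁ θ - algebraMap F K₁ θ0) := ⟨_, rfl⟩
  have hwB : w ∈ B := by
    rw [hw, ← hFe]
    exact add_mem (hFB _) (mul_mem hqB (sub_mem (hRB θ hθ') (hFB _)))
  have hw1 : w ≠ 0 ∧ P.ord w = 0 := by
    have h1 : Ge P 1 (q * (algebraMap K K₁ θ - algebraMap F K₁ θ0)) := by
      have h4 := (hB q hqB).mul hθ0
      rwa [zero_add] at h4
    rw [hw, ← hFe]
    by_cases h0 : q * (algebraMap K K₁ θ - algebraMap F K₁ θ0) = 0
    · rw [h0, add_zero]
      exact ⟨fun h => hm1 ((map_eq_zero (algebraMap F K₁)).1 h), P.ord_const hm1⟩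
    · have h2 := h1.resolve_left h0
      have h3 := P.ord_add_eq (f := algebraMap F K₁ (aeval θ0 (derivative m)))
        (fun h => hm1 ((map_eq_zero (algebraMap F K₁)).1 h)) h0 (by rw [P.ord_const hm1]; omega)
      rw [P.ord_const hm1] at h3
      exact h3
  have hθw : (algebraMap K K₁ θ - algebraMap F K₁ θ0) * w =
      algebraMap K K₁ π * algebraMap K K₁ e'' := by
    rw [hw, ← hq, ← hFe, hm0, map_zero, sub_zero, ← hKe, hme, map_mul]
  have hdiv : ∀ b ∈ B, Ge P 1 b → ∃ s ∈ B, ∃ s' ∈ B,
      s' ≠ 0 ∧ P.ord s' = 0 ∧ b * s' = algebraMap K K₁ π * s := by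
    refine div_of_span P _ hππ (algebraMap K K₁ '' (R : Set K)) ?_ hB
      (fun b hb => BR_span (by rwa [hBdef] at hb)) ?_
    · rintro _ ⟨r, hr, rfl⟩
      exact hRB r ((hRm r).1 hr)
    · rintro _ ⟨r, hr, rfl⟩
      obtain ⟨g, r', hr', hrg⟩ := hlift r ((hRm r).1 hr)
      obtain ⟨q', hq'B, hq'⟩ := htay g
      refine ⟨aeval θ0 g, algebraMap K K₁ e'' * (aeval (algebraMap F K₁ θ0) (derivative g) +
          q' * (algebraMap K K₁ θ - algebraMap F K₁ θ0)) + algebraMap K K₁ r' * w, ?_, w, hwB,
          hw1.1, hw1.2, ?_⟩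
      · refine add_mem (mul_mem (hRB _ he'') (add_mem ?_ (mul_mem hq'B
          (sub_mem (hRB θ hθ') (hFB _))))) (mul_mem (hRB _ hr') hwB)
        rw [← hFe]
        exact hFB _
      · rw [hrg, map_add, hKe, hFe, map_mul]
        linear_combination w * hq' + (aeval (algebraMap F K₁ θ0) (derivative g) +
          q' * (algebraMap K K₁ θ - algebraMap F K₁ θ0)) * hθw
  have hu := loc_unif P B hB (hRB π (Or.inr (by omega))) hππ hdiv hfr
  have he1 : (e0 : ℤ) = 1 := by
    rw [hp2, hπ1, mul_one] at hu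
    exact hu
  exact ⟨p, fun f => by rw [hp2, he1, one_mul]⟩

end

end Pool.Agent.N162.BC
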