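import Pool.Agent.N162.BC.Base2
import Pool.Agent.Helper386.D5V.Helper970_D5_Reg

/-!
Existence of the compositum of a regular function field and an algebraically closed extension of
the field of constants.
-/

set_option autoImplicit false
set_option linter.overlappingInstances false
set_option linter.unusedSectionVars false
set_option linter.unusedDecidableInType false
set_option linter.unusedFintypeInType false
set_option linter.unusedVariables false
set_option maxHeartbeats 4000000
set_option synthInstance.maxHeartbeats 400000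

open FF Polynomial Pool.Agent.W603.LV IntermediateField Pool.Agent.W619.PQ

namespace Pool.Agent.N162.BC

/-- **Existence of the compositum.** -/
theorem constr (L K F : Type) [Field L] [Field K] [Field F] [Algebra L K] [Algebra L F]
    [IsAlgClosed F] [CharZero F] [IsFF L K] (h : algebraicClosure L K = ⊥) :
    ∃ (K₁ : Type) (_ : Field K₁) (_ : Algebra F K₁) (_ : Algebra K K₁) (_ : Algebra L K₁)
      (_ : IsScalarTower L F K₁) (_ : IsScalarTower L K K₁) (_ : IsFF F K₁),
      (∀ {ι : Type} (v : ι → K), LinearIndependent L v →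
        LinearIndependent F (fun i => algebraMap K K₁ (v i))) ∧
      ∀ f : K₁, ∃ a ∈ BR F K₁ (⊤ : Subring K), ∃ b ∈ BR F K₁ (⊤ : Subring K),
        b ≠ 0 ∧ f * b = a := by
  classical
  obtain ⟨U, hU, hFU, hKU, hcomp, hLD⟩ := SF.regext L F K h
  let K₁ : IntermediateField F U := IntermediateField.adjoin F (Set.range (algebraMap K U))
  have hmem : ∀ κ : K, algebraMap K U κ ∈ K₁ := fun κ =>
    IntermediateField.subset_adjoin F _ ⟨κ, rfl⟩
  let i1 : Algebra K K₁ := ((algebraMap K U).codRestrict K₁.toSubfield.toSubring hmem).toAlgebra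
  have hi1 : ∀ κ : K, ((algebraMap K K₁ κ : K₁) : U) = algebraMap K U κ := fun κ => rfl
  let i2 : Algebra L K₁ := ((algebraMap F K₁).comp (algebraMap L F)).toAlgebra
  have i3 : IsScalarTower L F K₁ := IsScalarTower.of_algebraMap_eq fun l => rfl
  have i4 : IsScalarTower L K K₁ := IsScalarTower.of_algebraMap_eq fun l => by
    apply Subtype.ext
    rw [hi1]
    exact hcomp l
  have hLD' : ∀ {ι : Type} (v : ι → K), LinearIndependent L v →
      LinearIndependent F (fun i => algebraMap K K₁ (v i)) := by
    intro ι v hv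
    have h1 := hLD v hv
    exact LinearIndependent.of_comp K₁.val.toLinearMap h1
  have hcL : CharZero L := (algebraMap L F).charZero
  have hcK : CharZero K := (algebraMap L K).charZero_iff (algebraMap L K).injective |>.1 hcL
  have hcK₁ : CharZero K₁ := charZero_of_injective_algebraMap (algebraMap F K₁).injective
  have hFR : ∀ f : K₁, ∃ a ∈ BR F K₁ (⊤ : Subring K), ∃ b ∈ BR F K₁ (⊤ : Subring K),
      b ≠ 0 ∧ f * b = a := by
    intro f
    obtain ⟨f, hf⟩ := f
    have hf' := hf
    rw [IntermediateField.mem_adjoin_iff_div] at hf'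
    obtain ⟨r, hr, s, hs, hrs⟩ := hf'
    have key : ∀ r ∈ Algebra.adjoin F (Set.range (algebraMap K U)),
        ∃ a ∈ BR F K₁ (⊤ : Subring K), (a : U) = r := by
      intro r hr
      induction hr using Algebra.adjoin_induction with
      | mem x hx =>
        obtain ⟨κ, rfl⟩ := hx
        exact ⟨algebraMap K K₁ κ, mem_BR (Subring.mem_top _), rfl⟩
      | algebraMap r => exact ⟨algebraMap F K₁ r, Subalgebra.algebraMap_mem _ _, rfl⟩
      | add x y _ _ hx hy =>
        obtain ⟨a, ha, rfl⟩ := hx
        obtain ⟨b, hb, rfl⟩ := hy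
        exact ⟨a + b, add_mem ha hb, rfl⟩
      | mul x y _ _ hx hy =>
        obtain ⟨a, ha, rfl⟩ := hx
        obtain ⟨b, hb, rfl⟩ := hy
        exact ⟨a * b, mul_mem ha hb, rfl⟩
    obtain ⟨a, ha, har⟩ := key r hr
    obtain ⟨b, hb, hbs⟩ := key s hs
    by_cases hb0 : b = 0
    · refine ⟨0, zero_mem _, 1, one_mem _, one_ne_zero, ?_⟩
      rw [mul_one]
      apply Subtype.ext
      change f = 0
      rw [hrs, ← hbs, hb0]
      change r / 0 = 0
      rw [div_zero]
    · refine ⟨a, ha, b, hb, hb0, ?_⟩
      apply Subtype.ext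
      change f * (b : U) = a
      have hb0' : (b : U) ≠ 0 := fun h => hb0 (Subtype.ext h)
      rw [hrs, har, ← hbs, div_mul_cancel₀ _ hb0']
  -- finite generation
  obtain ⟨x, hx⟩ := IsFF.exists_transcendental (k := L) (K := K)
  have hx' : Transcendental F (algebraMap K K₁ x) := transc_up' hLD' hx
  have hsub : ∀ e ∈ L⟮x⟯, algebraMap K K₁ e ∈ F⟮algebraMap K K₁ x⟯ := by
    intro e he
    induction he using IntermediateField.adjoin_induction with
    | mem e he =>
      rw [Set.mem_singleton_iff] at he
      rw [he]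
      exact mem_adjoin_simple_self F _
    | algebraMap c =>
      rw [← IsScalarTower.algebraMap_apply L K K₁, IsScalarTower.algebraMap_apply L F K₁]
      exact IntermediateField.algebraMap_mem _ _
    | add a b _ _ ha hb =>
      rw [map_add]
      exact add_mem ha hb
    | inv a _ ha =>
      rw [map_inv₀]
      exact inv_mem ha
    | mul a b _ _ ha hb =>
      rw [map_mul]
      exact mul_mem ha hb
  have halgK : ∀ κ : K, IsAlgebraic F⟮algebraMap K K₁ x⟯ (algebraMap K K₁ κ) := by
    intro κ
    have halg := IsFF.isAlgebraic hx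
    obtain ⟨q, hq0, hq⟩ := halg.isAlgebraic κ
    let ψ : L⟮x⟯ →+* F⟮algebraMap K K₁ x⟯ :=
      ((algebraMap K K₁).comp (algebraMap L⟮x⟯ K)).codRestrict
        F⟮algebraMap K K₁ x⟯.toSubfield.toSubring (fun e => hsub e e.2)
    refine ⟨q.map ψ, (Polynomial.map_ne_zero_iff ψ.injective).2 hq0, ?_⟩
    have h1 := congrArg (algebraMap K K₁) hq
    rw [aeval_def, hom_eval₂, map_zero] at h1
    rw [aeval_def, eval₂_map, ← h1]
    congr 1
  have halgM : Algebra.IsAlgebraic F⟮algebraMap K K₁ x⟯ K₁ := by
    refine ⟨fun f => ?_⟩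
    have h2 : ∀ b ∈ BR F K₁ (⊤ : Subring K), IsAlgebraic F⟮algebraMap K K₁ x⟯ b := by
      intro b hb
      unfold BR at hb
      induction hb using Algebra.adjoin_induction with
      | mem z hz =>
        obtain ⟨e, -, rfl⟩ := hz
        exact halgK e
      | algebraMap r =>
        have := isAlgebraic_algebraMap (R := F⟮algebraMap K K₁ x⟯) (A := K₁)
          (algebraMap F F⟮algebraMap K K₁ x⟯ r)
        exact this
      | add a b _ _ ha hb => exact ha.add hb
      | mul a b _ _ ha hb => exact ha.mul hb
    obtain ⟨a, ha, b, hb, hb0, hab⟩ := hFR f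
    have h3 : f = a * b⁻¹ := by
      rw [← hab]
      field_simp
    rw [h3]
    exact (h2 a ha).mul (h2 b hb).inv
  have hess : Algebra.EssFiniteType F K₁ := by
    rw [IntermediateField.essFiniteType_iff]
    have h1 := (inferInstance : IsFF L K).ess
    obtain ⟨s, hs⟩ := IntermediateField.fg_top L K
    refine ⟨s.image (algebraMap K U), ?_⟩
    apply le_antisymm
    · rw [IntermediateField.adjoin_le_iff]
      intro z hz
      rw [Finset.coe_image] at hz
      obtain ⟨κ, -, rfl⟩ := hz
      exact hmem κ
    · rw [IntermediateField.adjoin_le_iff]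
      rintro _ ⟨κ, rfl⟩
      have h2 : κ ∈ IntermediateField.adjoin L (s : Set K) := by
        rw [hs]
        trivial
      induction h2 using IntermediateField.adjoin_induction with
      | mem e he =>
        apply IntermediateField.subset_adjoin
        rw [Finset.coe_image]
        exact ⟨e, he, rfl⟩
      | algebraMap c =>
        rw [← hcomp]
        exact IntermediateField.algebraMap_mem _ _
      | add a b _ _ ha hb =>
        rw [map_add]
        exact add_mem ha hb
      | inv a _ ha =>
        rw [map_inv₀]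
        exact inv_mem ha
      | mul a b _ _ ha hb =>
        rw [map_mul]
        exact mul_mem ha hb
  have hfin : FiniteDimensional F⟮algebraMap K K₁ x⟯ K₁ := by
    have h3 : Algebra.EssFiniteType F⟮algebraMap K K₁ x⟯ K₁ :=
      Algebra.EssFiniteType.of_comp F F⟮algebraMap K K₁ x⟯ K₁
    obtain ⟨s, hs⟩ := IntermediateField.fg_top F⟮algebraMap K K₁ x⟯ K₁
    have h5 : FiniteDimensional F⟮algebraMap K K₁ x⟯
        (IntermediateField.adjoin F⟮algebraMap K K₁ x⟯ (s : Set K₁)) :=
      IntermediateField.finiteDimensional_adjoin (fun x _ => (halgM.isAlgebraic x).isIntegral)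
    rw [hs] at h5
    exact IntermediateField.topEquiv.toLinearEquiv.finiteDimensional
  have hFF : IsFF F K₁ := IsFF.of_finite hx' hfin
  exact ⟨K₁, inferInstance, inferInstance, i1, i2, i3, i4, hFF, hLD', hFR⟩

/-- over an algebraic extension of the constants the compositum is generated as a vector space -/
theorem gen_of_fr {L K F K₁ : Type} [Field L] [Field K] [Field F] [Field K₁]
    [Algebra L K] [Algebra L F] [Algebra F K₁] [Algebra K K₁] [Algebra L K₁] [IsScalarTower L F K₁]
    [IsScalarTower L K K₁] [Algebra.IsAlgebraic L F]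
    (hFR : ∀ f : K₁, ∃ a ∈ BR F K₁ (⊤ : Subring K), ∃ b ∈ BR F K₁ (⊤ : Subring K),
      b ≠ 0 ∧ f * b = a) :
    ∀ f : K₁, f ∈ Submodule.span F (Set.range (algebraMap K K₁)) := by
  intro f
  obtain ⟨B, hBdef⟩ : ∃ B, B = BR F K₁ (⊤ : Subring K) := ⟨_, rfl⟩
  have hint : ∀ b ∈ B, IsIntegral K b := by
    intro b hb
    rw [hBdef] at hb
    unfold BR at hb
    induction hb using Algebra.adjoin_induction with
    | mem z hz =>
      obtain ⟨e, -, rfl⟩ := hz
      exact isIntegral_algebraMap
    | algebraMap r =>
      have h4 : IsIntegral L (algebraMap F K₁ r) :=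
        (Algebra.IsAlgebraic.isAlgebraic (R := L) r).isIntegral.algebraMap
      exact h4.tower_top
    | add a b _ _ ha hb => exact ha.add hb
    | mul a b _ _ ha hb => exact ha.mul hb
  have hinv : ∀ b ∈ B, b⁻¹ ∈ B := by
    intro b hb
    have h1 := (hint b hb).inv_mem_adjoin
    have h2 : (Algebra.adjoin K {b} : Set K₁) ⊆ B := by
      intro z hz
      induction hz using Algebra.adjoin_induction with
      | mem z hz =>
        rw [Set.mem_singleton_iff] at hz
        rw [hz]
        exact hb
      | algebraMap r =>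
        rw [hBdef]
        exact mem_BR (Subring.mem_top _)
      | add a b _ _ ha hb => exact add_mem ha hb
      | mul a b _ _ ha hb => exact mul_mem ha hb
    exact h2 h1
  obtain ⟨a, ha, b, hb, hb0, hab⟩ := hFR f
  rw [← hBdef] at ha hb
  have h3 : f = a * b⁻¹ := by
    rw [← hab]
    field_simp
  have h4 : f ∈ B := by
    rw [h3]
    exact mul_mem ha (hinv b hb)
  rw [hBdef] at h4
  have h5 := BR_span h4
  refine Submodule.span_mono ?_ h5
  rintro _ ⟨e, -, rfl⟩
  exact ⟨e, rfl⟩

end Pool.Agent.N162.BC
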