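import Pool.Agent.N162.BC.ML3
import Pool.Agent.Helper386.D5V.Helper386_FF_Riemann

/-!
A divisor on a constant curve whose logarithmic derivative vanishes is constant.
-/

set_option autoImplicit false
set_option linter.overlappingInstances false
set_option linter.unusedSectionVars false
set_option linter.unusedDecidableInType false
set_option linter.unusedFintypeInType false
set_option linter.unusedVariables false
set_option maxHeartbeats 4000000
set_option synthInstance.maxHeartbeats 400000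

open FF Polynomial Pool.Agent.W603.LV IntermediateField Pool.Agent.W619.PQ

namespace Pool.Agent.N162.BC

section

variable {F K Ω M : Type} [Field F] [Field K] [Field Ω] [Field M]
  [Algebra F K] [Algebra F Ω] [Algebra Ω M] [Algebra K M] [Algebra F M] [IsScalarTower F Ω M]
  [IsScalarTower F K M] [CharZero Ω] [IsAlgClosed Ω] [IsFF Ω M]
  [CharZero F] [IsAlgClosed F] [IsFF F K]

/-- **A divisor whose logarithmic derivative vanishes is linearly equivalent to a constant
divisor.** -/
theorem core (hM : ∀ f : M, ∃ a ∈ BR Ω M (⊤ : Subring K), ∃ b ∈ BR Ω M (⊤ : Subring K),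
      b ≠ 0 ∧ f * b = a)
    (hlin : ∀ {ι : Type} (v : ι → K), LinearIndependent F v →
      LinearIndependent Ω (fun i => algebraMap K M (v i)))
    (D : Derivation F M M) (hDK : ∀ e : K, D (algebraMap K M e) = 0)
    (δ : Ω → Ω) (hδ : ∀ a, D (algebraMap Ω M a) = algebraMap Ω M (δ a))
    (hδ0 : ∀ a, Transcendental F a → δ a ≠ 0)
    {x : K} (hx : Transcendental F x) (D0 : Derivation F K K) (hD0 : D0 x = 1)
    (c : (K →ₐ[F] Ω) →₀ ℤ)
    (hc : ∀ f : K, (∀ p : Place F K, vo p D0 ≤ p.ord f) →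
      ∑ σ ∈ c.support, (c σ : Ω) * (σ f * δ (σ x)) = 0) :
    ∃ f : M, f ≠ 0 ∧ ∀ (P : Place Ω M) (σ : K →ₐ[F] Ω), Cen P σ → P.ord f = c σ := by
  classical
  have hcM : CharZero M := charZero_of_injective_algebraMap (algebraMap Ω M).injective
  have hΩD : ∀ a : Ω, ∃ b : Ω, D (algebraMap Ω M a) = algebraMap Ω M b := fun a => ⟨_, hδ a⟩
  choose pl hpl using exists_place_cen hlin hM
  -- the divisor
  obtain ⟨Z, hZ⟩ : ∃ Z : Place Ω M →₀ ℤ, Z = ∑ σ ∈ c.support, Finsupp.single (pl σ) (c σ) :=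
    ⟨_, rfl⟩
  have hZc : ∀ (P : Place Ω M) (τ : K →ₐ[F] Ω), Cen P τ → Z P = c τ := by
    intro P τ hP
    rw [hZ, Finset.sum_apply']
    have h1 : ∀ σ ∈ c.support, (Finsupp.single (pl σ) (c σ)) P = if σ = τ then c σ else 0 := by
      intro σ _
      rw [Finsupp.single_apply]
      have h2 : pl σ = P ↔ σ = τ := by
        constructor
        · intro h
          have h3 := hpl σ
          rw [h] at h3
          exact h3.unique hP
        · intro h
          exact gen_unique hM (hpl σ) (by rw [h]; exact hP)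
      simp only [h2]
    rw [Finset.sum_congr rfl h1, Finset.sum_ite_eq']
    split_ifs with h2
    · rfl
    · rw [Finsupp.notMem_support_iff] at h2
      exact h2.symm
  -- a constant point
  obtain ⟨Q, hQ⟩ : ∃ Q : Place Ω M, Q.ord (algebraMap K M x) < 0 := by
    have hτx := transc_up hlin hx
    have hfin : FiniteDimensional Ω⟮algebraMap K M x⟯ M := IsFF.finite hτx
    obtain ⟨S, hS, hS2⟩ := poles (k := Ω) (K := M) hτx
    have hpos : 0 < Module.finrank Ω⟮algebraMap K M x⟯ M := Module.finrank_pos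
    obtain ⟨P, hP⟩ : S.Nonempty := by
      rw [Finset.nonempty_iff_ne_empty]
      rintro rfl
      rw [Finset.sum_empty] at hS2
      omega
    exact ⟨P, (hS P).1 hP⟩
  have hQg : ¬ Gen K Q := by
    intro h
    rcases h.reg x with h1 | h1
    · rw [h1, Q.ord_zero] at hQ
      omega
    · omega
  -- the candidates
  obtain ⟨Cd, hCd⟩ : ∃ Cd : ℕ → Prop, ∀ n, Cd n ↔ ∃ f : M, f ≠ 0 ∧ ∃ G : Place Ω M →₀ ℤ,
      (∀ P, Gen K P → G P = 0) ∧ 0 ≤ divisor Ω f + (Z + G) ∧ ddeg (Z + G) = n :=
    ⟨_, fun n => Iff.rfl⟩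
  have hex : ∃ n, Cd n := by
    obtain ⟨γ, N, hγ, -⟩ := riemann Ω M
    obtain ⟨m, hm⟩ : ∃ m : ℕ, γ + 1 ≤ ddeg Z + m := ⟨(γ + 1 - ddeg Z).toNat, by omega⟩
    have h1 := hγ (Z + Finsupp.single Q (m : ℤ))
    rw [ddeg_add, ddeg_single, deg_one] at h1
    have h2 : 0 < ell (Z + Finsupp.single Q (m : ℤ)) := by
      push_cast at h1
      omega
    obtain ⟨f, hf, hf0⟩ := exists_ne_zero_of_ell_pos h2
    rw [mem_LL' hf0] at hf
    have h3 := ddeg_nonneg hf
    rw [ddeg_add, ddeg_divisor, zero_add] at h3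
    refine ⟨(ddeg (Z + Finsupp.single Q (m : ℤ))).toNat, (hCd _).2 ⟨f, hf0,
      Finsupp.single Q (m : ℤ), ?_, hf, by omega⟩⟩
    intro P hP
    rw [Finsupp.single_apply, if_neg]
    rintro rfl
    exact hQg hP
  obtain ⟨f, hf0, G, hG, hE, hdeg⟩ := (hCd _).1 (Nat.find_spec hex)
  have hmin : ∀ n, Cd n → Nat.find hex ≤ n := fun n hn => Nat.find_min' hex hn
  obtain ⟨E, hEdef⟩ : ∃ E, E = divisor Ω f + (Z + G) := ⟨_, rfl⟩
  rw [← hEdef] at hE
  -- the dimension
  have hell : ell E ≤ 1 := by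
    by_contra hcon
    push Not at hcon
    have h1 : E - Finsupp.single Q 1 ≤ E := by
      rw [sub_le_self_iff]
      exact Finsupp.single_nonneg.2 zero_le_one
    have h2 := ell_le h1
    rw [ddeg_sub, ddeg_single, deg_one] at h2
    have h3 : 0 < ell (E - Finsupp.single Q 1) := by
      push_cast at h2
      omega
    obtain ⟨g, hg, hg0⟩ := exists_ne_zero_of_ell_pos h3
    rw [mem_LL' hg0] at hg
    have h4 : divisor Ω (f * g) + (Z + (G - Finsupp.single Q 1)) =
        divisor Ω g + (E - Finsupp.single Q 1) := by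
      rw [divisor_mul hf0 hg0, hEdef]
      abel
    have h5 : 0 ≤ ddeg (Z + (G - Finsupp.single Q 1)) := by
      have h6 := ddeg_nonneg hg
      rw [← h4, ddeg_add, ddeg_divisor, zero_add] at h6
      exact h6
    have h6 : ddeg (Z + (G - Finsupp.single Q 1)) = ddeg (Z + G) - 1 := by
      rw [← add_sub_assoc, ddeg_sub, ddeg_single, deg_one]
      norm_num
    have h7 := hmin (ddeg (Z + (G - Finsupp.single Q 1))).toNat ((hCd _).2 ⟨f * g,
      mul_ne_zero hf0 hg0, G - Finsupp.single Q 1, ?_, ?_, by omega⟩)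
    · omega
    · intro P hP
      rw [Finsupp.sub_apply, hG P hP, Finsupp.single_apply, if_neg, sub_zero]
      rintro rfl
      exact hQg hP
    · rw [h4]
      exact hg
  -- the function `h`
  obtain ⟨h, hh1, hh2⟩ := ml hM hx D0 hD0 c.support (fun σ => -((c σ : Ω) * δ (σ x)))
    (by
      intro f hf
      rw [← neg_eq_zero, ← Finset.sum_neg_distrib, ← hc f hf]
      refine Finset.sum_congr rfl fun σ _ => ?_
      ring)
  obtain ⟨φ, hφ⟩ : ∃ φ, φ = D f / f + h := ⟨_, rfl⟩
  have hEP : ∀ (P : Place Ω M) (τ : K →ₐ[F] Ω), Cen P τ → P.ord f = E P - c τ := by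
    intro P τ hP
    have h1 : E P = P.ord f + (Z P + G P) := by
      rw [hEdef]
      rfl
    rw [hZc P τ hP, hG P hP.gen] at h1
    omega
  have hφgen : ∀ (P : Place Ω M) (τ : K →ₐ[F] Ω), Cen P τ →
      Ge P 0 (φ + (E P : M) * algebraMap Ω M (δ (τ x)) *
        (algebraMap K M x - algebraMap Ω M (τ x))⁻¹) := by
    intro P τ hP
    have h1 := dlog_gen hM hP hx D hDK hΩD hf0
    rw [hδ, hEP P τ hP, div_eq_mul_inv _ (algebraMap K M x - algebraMap Ω M (τ x))] at h1
    have h2 := hh2 P τ hP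
    have h3 := h1.add h2
    have h4 : (if τ ∈ c.support then algebraMap Ω M (-((c τ : Ω) * δ (τ x))) else 0) =
        -((c τ : M) * algebraMap Ω M (δ (τ x))) := by
      split_ifs with h5
      · rw [map_neg, map_mul, map_intCast]
      · rw [Finsupp.notMem_support_iff.1 h5]
        simp
    rw [h4] at h3
    convert h3 using 1
    rw [hφ]
    push_cast
    ring
  have hφreg : ∀ P : Place Ω M, ¬ Gen K P → Ge P 0 φ := by
    intro P hP
    rw [hφ]
    exact (dlog_nongen (F := F) hM hP D hDK hΩD hf0).add (hh1 P hP)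
  have hterm : ∀ (P : Place Ω M) (τ : K →ₐ[F] Ω), Cen P τ → E P ≠ 0 →
      (E P : M) * algebraMap Ω M (δ (τ x)) * (algebraMap K M x - algebraMap Ω M (τ x))⁻¹ ≠ 0 ∧
      P.ord ((E P : M) * algebraMap Ω M (δ (τ x)) *
        (algebraMap K M x - algebraMap Ω M (τ x))⁻¹) = -1 := by
    intro P τ hP hne
    have h1 := gen_unif hM hP hx
    have h2 : algebraMap K M x - algebraMap Ω M (τ x) ≠ 0 := by
      intro h
      rw [h, P.ord_zero] at h1
      omega
    have h3 : δ (τ x) ≠ 0 :=
      hδ0 _ fun hal => hx ((isAlgebraic_algHom_iff τ τ.injective).1 hal)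
    have h4 : (E P : M) * algebraMap Ω M (δ (τ x)) = algebraMap Ω M ((E P : Ω) * δ (τ x)) := by
      rw [map_mul, map_intCast]
    have h5 : (E P : Ω) * δ (τ x) ≠ 0 := mul_ne_zero (by exact_mod_cast hne) h3
    rw [h4]
    have h6 : algebraMap Ω M ((E P : Ω) * δ (τ x)) ≠ 0 :=
      fun h => h5 ((map_eq_zero (algebraMap Ω M)).1 h)
    refine ⟨mul_ne_zero h6 (inv_ne_zero h2), ?_⟩
    rw [P.ord_mul h6 (inv_ne_zero h2), P.ord_const h5, P.ord_inv, h1]
    norm_num
  have hE0 : ∀ P, 0 ≤ E P := fun P => hE P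
  have hφge : ∀ P : Place Ω M, Ge P (-E P) φ := by
    intro P
    by_cases hP : Gen K P
    · obtain ⟨τ, hτ⟩ := exists_cen (F := F) hP
      by_cases hne : E P = 0
      · have h1 := hφgen P τ hτ
        rw [hne] at h1
        simp only [Int.cast_zero, zero_mul, add_zero] at h1
        rw [hne, neg_zero]
        exact h1
      · have h1 := hφgen P τ hτ
        have h2 : Ge P (-1) ((E P : M) * algebraMap Ω M (δ (τ x)) *
            (algebraMap K M x - algebraMap Ω M (τ x))⁻¹) := Or.inr (hterm P τ hτ hne).2.ge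
        have h3 := (h1.mono (by norm_num : (-1 : ℤ) ≤ 0)).sub h2
        rw [add_sub_cancel_right] at h3
        have h4 := hE0 P
        exact h3.mono (by omega)
    · exact (hφreg P hP).mono (by have := hE0 P; omega)
  have hφL : φ ∈ LL E := by
    rw [mem_LL]
    by_cases h0 : φ = 0
    · exact Or.inl h0
    · exact Or.inr fun P => (hφge P).resolve_left h0
  have h1L : (1 : M) ∈ LL E := by
    rw [mem_LL]
    right
    intro P
    rw [P.ord_one]
    have := hE0 P
    omega
  obtain ⟨a, ha⟩ : ∃ a : Ω, φ = algebraMap Ω M a := by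
    have h1 : Module.finrank Ω (LL E) = 1 := by
      have h2 : Module.finrank Ω (LL E) ≤ 1 := by
        unfold ell at hell
        exact_mod_cast hell
      have h3 : 0 < Module.finrank Ω (LL E) := by
        rw [Module.finrank_pos_iff_exists_ne_zero]
        exact ⟨⟨1, h1L⟩, fun h => one_ne_zero (congrArg Subtype.val h)⟩
      omega
    have h2 : (⟨1, h1L⟩ : LL E) ≠ 0 := fun h => one_ne_zero (congrArg Subtype.val h)
    obtain ⟨a, ha⟩ := exists_smul_eq_of_finrank_eq_one h1 h2 ⟨φ, hφL⟩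
    refine ⟨a, ?_⟩
    have h3 := congrArg Subtype.val ha
    simp only [SetLike.val_smul, Algebra.smul_def, mul_one] at h3
    exact h3.symm
  have hEgen : ∀ (P : Place Ω M) (τ : K →ₐ[F] Ω), Cen P τ → E P = 0 := by
    intro P τ hP
    by_contra hne
    have h1 := hφgen P τ hP
    obtain ⟨h2, h3⟩ := hterm P τ hP hne
    have h4 : Ge P 0 φ := by
      rw [ha]
      exact Ge.const a
    have h5 := h1.sub h4
    rw [add_sub_cancel_left] at h5
    rcases h5 with h6 | h6
    · exact h2 h6
    · omega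
  refine ⟨f⁻¹, inv_ne_zero hf0, fun P σ hP => ?_⟩
  rw [P.ord_inv, hEP P σ hP, hEgen P σ hP]
  ring

end

end Pool.Agent.N162.BC
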