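import Pool.Agent.W602.GT.Defs
import Pool.Agent.Helper386.D5V.Helper386_FF_Div

/-!
Families of zero-cycles on a variety, in terms of function fields.

* A variety `T` of dimension `n` is given by its function field `K` over `ℂ`.
* `Ω` is an algebraic closure of the function field of a variety `S`. A dominant rational map from
  a generically finite covering of `S` to `T` is a homomorphism `σ : K →ₐ[ℂ] Ω`. A correspondence
  from `S` to `T` is, modulo correspondences supported over proper closed subsets of `S` and of
  `T`, a zero-cycle `c = ∑ c(σ) σ`, an element of `(K →ₐ[ℂ] Ω) →₀ ℤ`.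
-/

set_option autoImplicit false

open FF Pool.Agent.W602.GT

namespace Pool.Agent.N162.BC

section

variable {K Ω : Type} [Field K] [Algebra ℂ K] [Field Ω] [Algebra ℂ Ω] {n : ℕ}

/-- The value on the vector fields `D` of the pullback of the canonical form `ω` under the rational
map given by `σ : K → Ω`, computed with coordinates `z` and their dual vector fields `E`. -/
noncomputable def pullback (σ : K →ₐ[ℂ] Ω) (z : Fin n → K) (E : Fin n → Derivation ℂ K K)
    (ω : (Fin n → Derivation ℂ K K) → K) (D : Fin n → Derivation ℂ Ω Ω) : Ω :=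
  (Matrix.of fun i j => D i (σ (z j))).det * σ (ω E)

/-- `ω` is a global section of the canonical bundle of the smooth projective models of `K`: a
rational canonical form which is regular at all prime divisors. -/
def GlobalForm (n : ℕ) (ω : (Fin n → Derivation ℂ K K) → K) : Prop :=
  IsPluri 1 ω ∧ ∀ P : Place ℂ K, Divisorial n P → RegAt P ω

/-- The trace of the family of zero-cycles `∑ c(σ) σ` is zero: the sum of the pullbacks
`c(σ) σ^* ω` is zero for all global canonical forms `ω`. -/
def NullTrace (n : ℕ) (c : (K →ₐ[ℂ] Ω) →₀ ℤ) : Prop :=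
  ∀ ω : (Fin n → Derivation ℂ K K) → K, GlobalForm n ω →
    ∀ (z : Fin n → K) (E : Fin n → Derivation ℂ K K), IsTranscendenceBasis ℂ z →
      (∀ i j, E i (z j) = if i = j then 1 else 0) → ∀ D : Fin n → Derivation ℂ Ω Ω,
        ∑ σ ∈ c.support, (c σ : Ω) * pullback σ z E ω D = 0

/-- `M` is the function field of a curve over `Ω` with a map to the variety with the function field
`K`, given by `τ : K → M`. The point `v` of the curve is mapped to the point `σ`. -/
def CentredAt {M : Type} [Field M] [Algebra Ω M] (τ : K →+* M) (v : Place Ω M)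
    (σ : K →ₐ[ℂ] Ω) : Prop :=
  ∀ a : K, τ a = algebraMap Ω M (σ a) ∨ 0 < v.ord (τ a - algebraMap Ω M (σ a))

variable (K Ω) in
/-- Rational equivalence of zero-cycles on `T × Spec Ω`, modulo the cycles which are supported on
`D × Spec Ω` for a proper closed subset `D` of `T`: the subgroup generated by the cycles
`∑_v ord_v(f) τ(v)`, where `f ≠ 0` is a rational function on a curve over `Ω`, `τ` is a map from
this curve to `T × Spec Ω`, and the sum extends over the points `v` of the curve such that `τ(v)` is
not contained in `D × Spec Ω` for any such `D`. -/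
noncomputable def Rat : AddSubgroup ((K →ₐ[ℂ] Ω) →₀ ℤ) :=
  AddSubgroup.closure {c | ∃ (M : Type) (_ : Field M) (_ : Algebra Ω M) (_ : IsFF Ω M)
    (τ : K →+* M) (f : M), (∀ z : ℂ, τ (algebraMap ℂ K z) = algebraMap Ω M (algebraMap ℂ Ω z)) ∧
      f ≠ 0 ∧ ∀ σ : K →ₐ[ℂ] Ω, c σ = ∑ᶠ v ∈ {v : Place Ω M | CentredAt τ v σ}, v.ord f}

/-- For a fibration `T → B` in curves, where `L ⊂ K` is the function field of `B`, the form `ω` is
regular on the generic fibre: it is a rational canonical form of `T` which is regular at the prime
divisors which dominate `B`. These forms are a vector space over `L`; it is the space of regular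
differentials on the generic fibre (tensored with the one-dimensional space of canonical forms on
`B`). -/
def FibreForm (L : IntermediateField ℂ K) (n : ℕ) (ω : (Fin n → Derivation ℂ K K) → K) : Prop :=
  IsPluri 1 ω ∧ ∀ P : Place ℂ K, (∀ l ∈ L, l ≠ 0 → P.ord l = 0) → RegAt P ω

/-- The Lie derivative of the form `ω` along the rational vector field `D`. -/
noncomputable def lieForm (D : Derivation ℂ K K) (ω : (Fin n → Derivation ℂ K K) → K)
    (X : Fin n → Derivation ℂ K K) : K :=
  D (ω X) - ∑ i, ω (Function.update X i ⁅D, X i⁆)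

/-- The forms which are generated by the forms in `V` under the Gauss-Manin connection of the
fibration `T → B`, where `L ⊂ K` is the function field of `B`: the smallest vector space over `L`
which contains `V` and which is closed under the Lie derivatives along the rational vector fields
`D` on `T` which are lifts of rational vector fields on `B`. (For vertical `D` the Lie derivatives
are the forms which are exact on the generic fibre; modulo these, the Lie derivatives are given by
the Gauss-Manin connection on the de Rham cohomology of the generic fibre.) -/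
inductive GMSpan (L : IntermediateField ℂ K) (V : ((Fin n → Derivation ℂ K K) → K) → Prop) :
    ((Fin n → Derivation ℂ K K) → K) → Prop
  | base {ω : (Fin n → Derivation ℂ K K) → K} : V ω → GMSpan L V ω
  | add {ω ω' : (Fin n → Derivation ℂ K K) → K} :
      GMSpan L V ω → GMSpan L V ω' → GMSpan L V (fun X => ω X + ω' X)
  | mul {l : K} {ω : (Fin n → Derivation ℂ K K) → K} :
      l ∈ L → GMSpan L V ω → GMSpan L V (fun X => l * ω X)
  | lie {D : Derivation ℂ K K} {ω : (Fin n → Derivation ℂ K K) → K} :
      (∀ l ∈ L, D l ∈ L) → GMSpan L V ω → GMSpan L V (lieForm D ω)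

/-- A set `G` of canonical forms separates the fibres `u ∈ U` of `T → B` on `V`, where `u : L → Ω` is
a generic point of `B` with values in `Ω`, and `G` and `V` are sets of forms which are regular on the
generic fibre: for each `u ∈ U`, the image of the map
`G ⊗ Ω → ⨁_{u ∈ U} (H⁰(generic fibre) ⊗_{L, u} Ω)` contains the elements of `V` at `u`. This is stated
for the dual map: if `φ_u` are `u`-semilinear functions with values in `Ω` on the space of forms which
are regular on the generic fibre, and if `∑_u φ_u` is zero on `G`, then all `φ_u` are zero on `V`. -/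
def Separates (L : IntermediateField ℂ K) (G V : ((Fin n → Derivation ℂ K K) → K) → Prop)
    (U : Finset (L →ₐ[ℂ] Ω)) : Prop :=
  ∀ φ : (L →ₐ[ℂ] Ω) → ((Fin n → Derivation ℂ K K) → K) → Ω,
    (∀ u ∈ U, ∀ ω ω', FibreForm L n ω → FibreForm L n ω' →
      φ u (fun D => ω D + ω' D) = φ u ω + φ u ω') →
    (∀ u ∈ U, ∀ (l : L) (ω), FibreForm L n ω → φ u (fun D => (l : K) * ω D) = u l * φ u ω) →
    (∀ ω, G ω → ∑ u ∈ U, φ u ω = 0) →
    ∀ u ∈ U, ∀ ω, V ω → φ u ω = 0

/-- The canonical form `ω'` on `T'` is the pullback of the canonical form `ω` on `T`, where `T' → T` is a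
generically finite dominant map and `K → K'` the corresponding extension of function fields: both
forms have the same coefficient in terms of coordinates `z` on `T`. -/
def IsPullback {K K' : Type} [Field K] [Algebra ℂ K] [Field K'] [Algebra ℂ K'] [Algebra K K']
    {n : ℕ} (ω : (Fin n → Derivation ℂ K K) → K) (ω' : (Fin n → Derivation ℂ K' K') → K') : Prop :=
  IsPluri 1 ω' ∧
    ∀ (z : Fin n → K) (E : Fin n → Derivation ℂ K K) (E' : Fin n → Derivation ℂ K' K'),
      IsTranscendenceBasis ℂ z → (∀ i j, E i (z j) = if i = j then 1 else 0) →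
      (∀ i j, E' i (algebraMap K K' (z j)) = if i = j then 1 else 0) →
      ω' E' = algebraMap K K' (ω E)

/-- The canonical form `ω'` on `T'` is the pullback of a global canonical form on `T`. -/
def PulledBack (K : Type) {K' : Type} [Field K] [Algebra ℂ K] [Field K'] [Algebra ℂ K']
    [Algebra K K'] (n : ℕ) (ω' : (Fin n → Derivation ℂ K' K') → K') : Prop :=
  ∃ ω : (Fin n → Derivation ℂ K K) → K, GlobalForm n ω ∧ IsPullback ω ω'

/-- The image of the function field `L` of the base in the function field `K'`. -/
noncomputable def baseField (L K' : Type) [Field L] [Algebra ℂ L] [Field K'] [Algebra ℂ K']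
    [Algebra L K'] [IsScalarTower ℂ L K'] : IntermediateField ℂ K' :=
  (IsScalarTower.toAlgHom ℂ L K').fieldRange

/-- Let `T'_i → B` be finitely many families of curves on `T` over the same base `B`, with the
function fields `K' i` of `T'_i` and `L` of `B`. Let `V` be a set of tuples `(ω_i)` of canonical forms
on the `T'_i`. This is the smallest vector space over `L` of such tuples which contains `V`, and which
is closed under the Lie derivatives along rational vector fields `D_i` on the `T'_i` which are lifts
of the same rational vector field `D_0` on `B`. -/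
inductive GMSpanTuple (L : Type) {ι : Type} (K' : ι → Type) {n : ℕ} [Field L] [Algebra ℂ L]
    [∀ i, Field (K' i)] [∀ i, Algebra ℂ (K' i)] [∀ i, Algebra L (K' i)]
    (V : (∀ i, (Fin n → Derivation ℂ (K' i) (K' i)) → K' i) → Prop) :
    (∀ i, (Fin n → Derivation ℂ (K' i) (K' i)) → K' i) → Prop
  | base {ω : ∀ i, (Fin n → Derivation ℂ (K' i) (K' i)) → K' i} : V ω → GMSpanTuple L K' V ω
  | add {ω ω' : ∀ i, (Fin n → Derivation ℂ (K' i) (K' i)) → K' i} :
      GMSpanTuple L K' V ω → GMSpanTuple L K' V ω' → GMSpanTuple L K' V (fun i X => ω i X + ω' i X)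
  | mul {l : L} {ω : ∀ i, (Fin n → Derivation ℂ (K' i) (K' i)) → K' i} :
      GMSpanTuple L K' V ω → GMSpanTuple L K' V (fun i X => algebraMap L (K' i) l * ω i X)
  | lie {D₀ : Derivation ℂ L L} {D : ∀ i, Derivation ℂ (K' i) (K' i)}
      {ω : ∀ i, (Fin n → Derivation ℂ (K' i) (K' i)) → K' i} :
      (∀ i (l : L), D i (algebraMap L (K' i) l) = algebraMap L (K' i) (D₀ l)) →
        GMSpanTuple L K' V ω → GMSpanTuple L K' V (fun i => lieForm (D i) (ω i))

/-- The pullbacks to the `T'_i` of the global canonical forms of `T` separate the points `u ∈ U` of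
the common base `B` of the families `T'_i → B` on `V`, where `u : L → Ω` is a generic point of `B` with
values in `Ω`, and `V` is a set of tuples `(ω_i)` of forms which are regular on the generic fibres. Let
`W` be the space over `L` of all tuples of forms which are regular on the generic fibres; then for
each `u ∈ U` the image of the map `H⁰(T, canonical bundle) ⊗ Ω → ⨁_{u ∈ U} W ⊗_{L, u} Ω`, given by the
pullbacks, contains the elements of `V` at `u`. This is stated for the dual map: if `φ_u` are
`u`-semilinear functions with values in `Ω` on `W`, and if `∑_u φ_u` is zero on the tuples of the pullbacks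
of the global forms of `T`, then all `φ_u` are zero on `V`. -/
def SeparatesTuple (K : Type) {L Ω ι : Type} {K' : ι → Type} {n : ℕ} [Field K] [Algebra ℂ K]
    [Field L] [Algebra ℂ L] [Field Ω] [Algebra ℂ Ω] [∀ i, Field (K' i)] [∀ i, Algebra ℂ (K' i)]
    [∀ i, Algebra K (K' i)] [∀ i, Algebra L (K' i)] [∀ i, IsScalarTower ℂ L (K' i)]
    (V : (∀ i, (Fin n → Derivation ℂ (K' i) (K' i)) → K' i) → Prop)
    (U : Finset (L →ₐ[ℂ] Ω)) : Prop :=
  ∀ φ : (L →ₐ[ℂ] Ω) → (∀ i, (Fin n → Derivation ℂ (K' i) (K' i)) → K' i) → Ω,
    (∀ u ∈ U, ∀ ω ω' : ∀ i, (Fin n → Derivation ℂ (K' i) (K' i)) → K' i,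
      (∀ i, FibreForm (baseField L (K' i)) n (ω i)) →
      (∀ i, FibreForm (baseField L (K' i)) n (ω' i)) →
      φ u (fun i X => ω i X + ω' i X) = φ u ω + φ u ω') →
    (∀ u ∈ U, ∀ (l : L) (ω : ∀ i, (Fin n → Derivation ℂ (K' i) (K' i)) → K' i),
      (∀ i, FibreForm (baseField L (K' i)) n (ω i)) →
      φ u (fun i X => algebraMap L (K' i) l * ω i X) = u l * φ u ω) →
    (∀ (η : (Fin n → Derivation ℂ K K) → K) (ω : ∀ i, (Fin n → Derivation ℂ (K' i) (K' i)) → K' i),
      GlobalForm n η → (∀ i, IsPullback η (ω i)) → ∑ u ∈ U, φ u ω = 0) →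
    ∀ u ∈ U, ∀ ω, V ω → φ u ω = 0

end

end Pool.Agent.N162.BC
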