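import Pool.Agent.N162.BC.Exist

/-!
Functions with prescribed simple poles at points which are not constant: Euler's formula.
-/

set_option autoImplicit false
set_option linter.overlappingInstances false
set_option linter.unusedSectionVars false
set_option linter.unusedDecidableInType false
set_option linter.unusedFintypeInType false
set_option linter.unusedVariables false
set_option maxHeartbeats 4000000
set_option synthInstance.maxHeartbeats 400000

open FF Polynomial Pool.Agent.W603.LV IntermediateField Pool.Agent.W619.PQ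

namespace Pool.Agent.N162.BC

section

variable {F K Ω : Type} [Field F] [Field K] [Field Ω] [Algebra F K] [Algebra F Ω]
  [CharZero F] [IsAlgClosed F] [IsFF F K]

/-- a basis which consists of functions without poles outside of the poles of `x` -/
theorem exists_basis {x : K} (hx : Transcendental F x) :
    ∃ e : Module.Basis (Fin (Module.finrank F⟮x⟯ K)) F⟮x⟯ K, ∀ i, e i ∈ BB (k := F) x := by
  have hfin : FiniteDimensional F⟮x⟯ K := IsFF.finite hx
  let e0 := Module.finBasis F⟮x⟯ K
  choose g hg hgB hgc using fun i => clear (k := F) hx (e0 i)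
  have hu : ∀ i, IsUnit (px x (g i) : F⟮x⟯) := by
    intro i
    rw [isUnit_iff_ne_zero]
    intro h0
    exact hg i (px_injective hx (by rw [h0, map_zero]))
  refine ⟨e0.isUnitSMul hu, fun i => ?_⟩
  rw [Module.Basis.isUnitSMul_apply, Algebra.smul_def]
  have h1 : algebraMap F⟮x⟯ K (px x (g i)) = aeval x (g i) := coe_px (g i)
  rw [h1]
  exact hgB i

theorem agree_simple {x : K} {σ τ : K →ₐ[F] Ω} (h : τ x = σ x) (e : F⟮x⟯) :
    τ (e : K) = σ (e : K) := by
  obtain ⟨e, he⟩ := e
  induction he using IntermediateField.adjoin_induction with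
  | mem e he =>
    rw [Set.mem_singleton_iff] at he
    subst he
    exact h
  | algebraMap c =>
    change τ (algebraMap F K c) = σ (algebraMap F K c)
    rw [AlgHom.commutes, AlgHom.commutes]
  | add a b _ _ ha hb =>
    change τ (a + b) = σ (a + b)
    rw [map_add, map_add]
    exact congrArg₂ _ ha hb
  | inv a _ ha =>
    change τ (a⁻¹) = σ (a⁻¹)
    rw [map_inv₀, map_inv₀]
    exact congrArg _ ha
  | mul a b _ _ ha hb =>
    change τ (a * b) = σ (a * b)
    rw [map_mul, map_mul]
    exact congrArg₂ _ ha hb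

/-- dual bases separate the points of the fibre -/
theorem dual_sum [IsAlgClosed Ω] [CharZero Ω] {x : K} (hx : Transcendental F x) {n : ℕ}
    (e b : Fin n → K) (hn : n = Module.finrank F⟮x⟯ K)
    (h : ∀ i j, Algebra.trace F⟮x⟯ K (b i * e j) = if i = j then 1 else 0)
    {σ τ : K →ₐ[F] Ω} (hστ : τ x = σ x) [Decidable (σ = τ)] :
    ∑ i, σ (b i) * τ (e i) = if σ = τ then 1 else 0 := by
  classical
  have hfin : FiniteDimensional F⟮x⟯ K := IsFF.finite hx
  have hchar : CharZero F⟮x⟯ := charZero_of_injective_algebraMap (algebraMap F F⟮x⟯).injective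
  let i1 : Algebra F⟮x⟯ Ω := (σ.toRingHom.comp (algebraMap F⟮x⟯ K)).toAlgebra
  have hi1 : ∀ e : F⟮x⟯, algebraMap F⟮x⟯ Ω e = σ (e : K) := fun e => rfl
  have hT : ∀ τ : K →ₐ[F] Ω, τ x = σ x → ∃ τ' : K →ₐ[F⟮x⟯] Ω, ∀ e, τ' e = τ e := fun τ hτ =>
    ⟨{ τ with commutes' := fun e => (agree_simple hτ e).trans (hi1 e).symm }, fun e => rfl⟩
  have hcardT : Fintype.card (K →ₐ[F⟮x⟯] Ω) = Module.finrank F⟮x⟯ K := AlgHom.card _ _ _
  obtain ⟨σ', hσ'⟩ := hT σ rfl
  obtain ⟨τ', hτ'⟩ := hT τ hστ
  let B : Matrix (K →ₐ[F⟮x⟯] Ω) (Fin n) Ω := Matrix.of fun ρ i => ρ (b i)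
  let E : Matrix (K →ₐ[F⟮x⟯] Ω) (Fin n) Ω := Matrix.of fun ρ i => ρ (e i)
  have h1 : B.transpose * E = 1 := by
    ext i j
    rw [Matrix.mul_apply, Matrix.one_apply]
    have h2 := trace_eq_sum_embeddings (K := F⟮x⟯) (L := K) Ω (x := b i * e j)
    rw [h] at h2
    simp only [B, E, Matrix.transpose_apply, Matrix.of_apply]
    have h3 : (algebraMap F⟮x⟯ Ω) (if i = j then 1 else 0) = if i = j then (1 : Ω) else 0 := by
      split_ifs
      · rw [map_one]
      · rw [map_zero]
    rw [h3] at h2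
    rw [h2]
    refine Finset.sum_congr rfl fun ρ _ => ?_
    rw [map_mul]
  have heq : Fintype.card (Fin n) = Fintype.card (K →ₐ[F⟮x⟯] Ω) := by
    rw [Fintype.card_fin, hcardT, hn]
  have h2 : E * B.transpose = 1 := (Matrix.mul_eq_one_comm_of_card_eq _ _ _ heq).1 h1
  have h3 := congrFun (congrFun h2 τ') σ'
  rw [Matrix.mul_apply, Matrix.one_apply] at h3
  have h4 : ∑ i, σ (b i) * τ (e i) = ∑ j, E τ' j * B.transpose j σ' := by
    refine Finset.sum_congr rfl fun i _ => ?_
    simp only [B, E, Matrix.transpose_apply, Matrix.of_apply, hσ', hτ']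
    ring
  rw [h4, h3]
  have h5 : (τ' = σ') ↔ (σ = τ) := by
    constructor
    · intro h
      ext z
      rw [← hσ', ← hτ', h]
    · intro h
      ext z
      rw [hσ', hτ', h]
  by_cases h6 : σ = τ
  · rw [if_pos h6, if_pos (h5.2 h6)]
  · rw [if_neg h6, if_neg fun h7 => h6 (h5.1 h7)]

end

end Pool.Agent.N162.BC
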