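import Pool.Agent.N162.BC.Fibre
import Pool.Agent.Helper386.D5V.Helper399_FF4a

/-!
A regular differential which is a trace and which is exact is zero.
-/

set_option autoImplicit false
set_option linter.overlappingInstances false
set_option linter.unusedSectionVars false
set_option linter.unusedDecidableInType false
set_option linter.unusedFintypeInType false
set_option linter.unusedVariables false
set_option maxHeartbeats 4000000
set_option synthInstance.maxHeartbeats 400000

open FF Polynomial Pool.Agent.W603.LV IntermediateField Pool.Agent.W619.PQ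

namespace Pool.Agent.N162.BC

section

variable {F K₁ N : Type} [Field F] [Field K₁] [Field N] [CharZero F] [IsAlgClosed F]
  [Algebra F K₁] [Algebra F N] [IsFF F K₁] [IsFF F N]

/-- derivations of `K₁` into an extension are multiples of `d/dx` -/
theorem der_hom {A : Type} [Field A] [Algebra F A] (D : Derivation F A A)
    (D1 : Derivation F K₁ K₁) {x : K₁}
    (hD1 : D1 x = 1) (hx : Transcendental F x) (σ : K₁ →ₐ[F] A) (a : K₁) :
    D (σ a) = D (σ x) * σ (D1 a) := by
  have hcK : CharZero K₁ := charZero_of_injective_algebraMap (algebraMap F K₁).injective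
  let _ : Algebra K₁ A := σ.toRingHom.toAlgebra
  have hst : IsScalarTower F K₁ A := IsScalarTower.of_algebraMap_eq fun z => (σ.commutes z).symm
  have hsm : ∀ (b : K₁) (c : A), b • c = σ b * c := fun b c => Algebra.smul_def b c
  let E : Derivation F K₁ A := Derivation.mk'
    { toFun := fun y => D (σ y) - D (σ x) * σ (D1 y)
      map_add' := fun y z => by
        rw [map_add, map_add, map_add, map_add]
        ring
      map_smul' := fun c y => by
        have e1 : σ (c • y) = c • σ y := map_smul σ c y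
        have e2 : D (c • σ y) = c • D (σ y) := D.map_smul c (σ y)
        have e3 : σ (c • D1 y) = c • σ (D1 y) := map_smul σ c _
        rw [RingHom.id_apply, D1.map_smul, e1, e2, e3, Algebra.smul_def,
          Algebra.smul_def, Algebra.smul_def]
        ring }
    (fun y z => by
      change D (σ (y * z)) - D (σ x) * σ (D1 (y * z)) = y • (D (σ z) - D (σ x) * σ (D1 z)) +
        z • (D (σ y) - D (σ x) * σ (D1 y))
      rw [map_mul, D.leibniz, D1.leibniz, smul_eq_mul, smul_eq_mul, smul_eq_mul, smul_eq_mul,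
        hsm, hsm, map_add, map_mul, map_mul]
      ring)
  have h1 : E = 0 := by
    refine derv_eq_zero E {x} (IsFF.isAlgebraic hx) ?_
    intro s hs
    rw [Set.mem_singleton_iff] at hs
    rw [hs]
    change D (σ x) - D (σ x) * σ (D1 x) = 0
    rw [hD1, map_one, mul_one, sub_self]
  have h2 : E a = 0 := by
    rw [h1]
    rfl
  exact sub_eq_zero.1 h2

/-- the pullback of a regular differential is regular -/
theorem pullback_reg (D : Derivation F N N) (hD : D ≠ 0) (D1 : Derivation F K₁ K₁) {x : K₁}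
    (hD1 : D1 x = 1) (hx : Transcendental F x) {f : K₁}
    (hf : ∀ p : Place F K₁, vo p D1 ≤ p.ord f) (σ : K₁ →ₐ[F] N) (P : Place F N) :
    Ge P (vo P D) (σ f * D (σ x)) := by
  have hcK : CharZero K₁ := charZero_of_injective_algebraMap (algebraMap F K₁).injective
  have hcN : CharZero N := charZero_of_injective_algebraMap (algebraMap F N).injective
  by_cases hf0 : f = 0
  · rw [hf0, map_zero, zero_mul]
    exact Or.inl rfl
  have hD1ne : D1 ≠ 0 := by
    rintro rfl
    simp at hD1
  let _ : Algebra K₁ N := σ.toRingHom.toAlgebra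
  have hst : IsScalarTower F K₁ N := IsScalarTower.of_algebraMap_eq fun z => (σ.commutes z).symm
  have hσx : Transcendental F (σ x) := fun h => hx ((isAlgebraic_algHom_iff σ
    (RingHom.injective σ.toRingHom)).1 h)
  have halg : Algebra.IsAlgebraic K₁ N := by
    have h1 := IsFF.isAlgebraic hσx
    refine ⟨fun a => ?_⟩
    have hle : ∀ e : F⟮σ x⟯, ∃ b : K₁, algebraMap K₁ N b = (e : N) := by
      rintro ⟨e, he⟩
      have h2 : F⟮σ x⟯ ≤ σ.fieldRange := by
        rw [IntermediateField.adjoin_simple_le_iff]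
        exact ⟨x, rfl⟩
      obtain ⟨b, hb⟩ := h2 he
      exact ⟨b, hb⟩
    choose ψ hψ using hle
    let ψ' : F⟮σ x⟯ →+* K₁ :=
      { toFun := ψ
        map_one' := by
          apply (algebraMap K₁ N).injective
          rw [hψ, map_one]
          rfl
        map_mul' := fun a b => by
          apply (algebraMap K₁ N).injective
          rw [hψ, map_mul, hψ, hψ]
          rfl
        map_zero' := by
          apply (algebraMap K₁ N).injective
          rw [hψ, map_zero]
          rfl
        map_add' := fun a b => by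
          apply (algebraMap K₁ N).injective
          rw [hψ, map_add, hψ, hψ]
          rfl }
    obtain ⟨q, hq0, hq⟩ := h1.isAlgebraic a
    refine ⟨q.map ψ', (Polynomial.map_ne_zero_iff ψ'.injective).2 hq0, ?_⟩
    rw [aeval_def, eval₂_map]
    rw [aeval_def] at hq
    rw [← hq]
    congr 1
    ext e
    exact hψ e
  have hex : ∃ a : K₁, P.ord (algebraMap K₁ N a) ≠ 0 := by
    by_contra hcon
    push Not at hcon
    let P' : Place K₁ N :=
      { ord := P.ord
        ord_zero := P.ord_zero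
        ord_mul := P.ord_mul
        ord_add := P.ord_add
        ord_const := fun {c} _ => hcon c
        surj := P.surj }
    obtain ⟨t, ht0, ht⟩ := P.surj
    have h1 := P'.ord_eq_zero_of_isAlgebraic ht0 (halg.isAlgebraic t)
    change P.ord t = 0 at h1
    omega
  obtain ⟨e, p, hp⟩ := exists_over P hex
  have he : (1 : ℤ) ≤ e := by exact_mod_cast hp.1
  have hp2 : ∀ a, P.ord (σ a) = e * p.ord a := hp.2
  have hπ := ord_unif p
  have hπ0 := der_pi_ne_zero hD1ne p hπ
  have h1 : D (σ x) = D (σ (unif p)) * σ (D1 (unif p))⁻¹ := by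
    rw [der_hom D D1 hD1 hx σ (unif p), map_inv₀, mul_assoc, mul_inv_cancel₀, mul_one]
    simpa using hπ0
  have h2 : P.ord (σ (unif p)) ≠ 0 := by
    rw [hp2, hπ]
    omega
  obtain ⟨h3, h4⟩ := ord_der P hD h2
  have h5 : σ f * D (σ x) = σ (f * (D1 (unif p))⁻¹) * D (σ (unif p)) := by
    rw [h1, map_mul]
    ring
  have h6 : f * (D1 (unif p))⁻¹ ≠ 0 := mul_ne_zero hf0 (inv_ne_zero hπ0)
  have h7 : σ (f * (D1 (unif p))⁻¹) ≠ 0 := by simpa using h6
  rw [h5]
  refine Or.inr ?_
  rw [P.ord_mul h7 h3, hp2, h4, hp2, hπ, p.ord_mul hf0 (inv_ne_zero hπ0), p.ord_inv]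
  have h8 := hf p
  unfold vo at h8 ⊢
  nlinarith

/-- an exact differential which is regular vanishes -/
theorem exact_reg (D : Derivation F N N) (hD : D ≠ 0) {G : N}
    (h : ∀ P : Place F N, Ge P (vo P D) (D G)) : D G = 0 := by
  have hcN : CharZero N := charZero_of_injective_algebraMap (algebraMap F N).injective
  by_contra hG
  have hGt : Transcendental F G := by
    intro hal
    obtain ⟨c, hc⟩ := Pool.Agent.W602.GT.const_of_algebraic hal
    rw [hc, D.map_algebraMap] at hG
    exact hG rfl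
  obtain ⟨S, hS, hS2⟩ := poles (k := F) (K := N) hGt
  have hfin : FiniteDimensional F⟮G⟯ N := IsFF.finite hGt
  have hpos : 0 < Module.finrank F⟮G⟯ N := Module.finrank_pos
  obtain ⟨P, hP⟩ : S.Nonempty := by
    rw [Finset.nonempty_iff_ne_empty]
    rintro rfl
    rw [Finset.sum_empty] at hS2
    omega
  have hPG := (hS P).1 hP
  obtain ⟨h1, h2⟩ := ord_der P hD (f := G) (by omega)
  have h3 := (h P).resolve_left h1
  omega

end

/-- **The trace of a regular differential is zero if it is exact.** -/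
theorem exact_zero {F K₁ Ω : Type} [Field F] [Field K₁] [Field Ω] [CharZero F] [IsAlgClosed F]
    [Algebra F K₁] [Algebra F Ω] [IsFF F K₁] (htr : Algebra.trdeg F Ω = 1)
    (δ : Derivation F Ω Ω) (hδ : δ ≠ 0) (D1 : Derivation F K₁ K₁) {x : K₁}
    (hD1 : D1 x = 1) (hx : Transcendental F x) {f : K₁}
    (hf : ∀ p : Place F K₁, vo p D1 ≤ p.ord f) (c : (K₁ →ₐ[F] Ω) →₀ ℤ) (G : Ω)
    (h : ∑ σ ∈ c.support, (c σ : Ω) * (σ f * δ (σ x)) = δ G) : δ G = 0 := by
  classical
  have hcK : CharZero K₁ := charZero_of_injective_algebraMap (algebraMap F K₁).injective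
  have hcΩ : CharZero Ω := charZero_of_injective_algebraMap (algebraMap F Ω).injective
  obtain ⟨w, hw⟩ := exists_transc (L := F) (Ω := Ω) htr
  have hess : Algebra.EssFiniteType F K₁ := IsFF.ess
  obtain ⟨s, hs⟩ := IntermediateField.fg_top F K₁
  -- the field of definition
  obtain ⟨T, hT⟩ : ∃ T : Finset Ω, T = {w, G} ∪ c.support.biUnion fun σ => s.image σ :=
    ⟨_, rfl⟩
  obtain ⟨N, hN⟩ : ∃ N : IntermediateField F Ω, N = IntermediateField.adjoin F (T : Set Ω) :=
    ⟨_, rfl⟩
  have hTN : ∀ a ∈ T, a ∈ N := fun a ha => by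
    rw [hN]
    exact IntermediateField.subset_adjoin F _ (Finset.mem_coe.2 ha)
  have hwN : w ∈ N := hTN w (by rw [hT]; simp)
  have hGN : G ∈ N := hTN G (by rw [hT]; simp)
  have hσN : ∀ σ ∈ c.support, ∀ a : K₁, σ a ∈ N := by
    intro σ hσ a
    have h1 : (⊤ : IntermediateField F K₁).map σ ≤ N := by
      rw [← hs, IntermediateField.adjoin_map, IntermediateField.adjoin_le_iff]
      rintro _ ⟨b, hb, rfl⟩
      refine hTN _ ?_
      rw [hT, Finset.mem_union]
      exact Or.inr (Finset.mem_biUnion.2 ⟨σ, hσ, Finset.mem_image_of_mem _ hb⟩)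
    exact h1 ⟨a, IntermediateField.mem_top, rfl⟩
  have hNess : Algebra.EssFiniteType F N := by
    rw [IntermediateField.essFiniteType_iff]
    exact ⟨T, hN.symm⟩
  have hcN : CharZero N := charZero_of_injective_algebraMap (algebraMap F N).injective
  have hbN : IsTranscendenceBasis F (fun _ : Unit => (⟨w, hwN⟩ : N)) := by
    refine IsTranscendenceBasis.of_comp_algebraMap (A' := Ω) ?_
    exact basis_one htr hw
  have hNtr : Algebra.trdeg F N = 1 := by
    rw [← hbN.cardinalMk_eq_trdeg]
    simp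
  have hFFN : IsFF F N := ⟨hNess, hNtr⟩
  -- the derivations
  have hδw : δ w ≠ 0 := der_ne htr hδ hw
  obtain ⟨δ', hδ'⟩ : ∃ δ' : Derivation F Ω Ω, δ' = (δ w)⁻¹ • δ := ⟨_, rfl⟩
  have hδa : ∀ a, δ' a = (δ w)⁻¹ * δ a := fun a => by
    rw [hδ', Derivation.smul_apply, smul_eq_mul]
  obtain ⟨D, hD⟩ := Pool.Agent.W602.GT.exists_der _ hbN (fun _ => 1)
  have hDw : D ⟨w, hwN⟩ = 1 := hD ()
  have hDne : D ≠ 0 := by
    intro h0
    rw [h0] at hDw
    exact zero_ne_one hDw
  have hDδ : ∀ a : N, δ' (a : Ω) = (D a : Ω) := by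
    have hsm : ∀ (b : N) (c : Ω), b • c = (b : Ω) * c := fun b c => Algebra.smul_def b c
    let E : Derivation F N Ω := Derivation.mk'
      { toFun := fun y => δ' (y : Ω) - (D y : Ω)
        map_add' := fun y z => by
          rw [map_add]
          change δ' ((y : Ω) + (z : Ω)) - ((D y : Ω) + (D z : Ω)) = _
          rw [map_add]
          ring
        map_smul' := fun c y => by
          rw [RingHom.id_apply, D.map_smul]
          change δ' (c • (y : Ω)) - c • (D y : Ω) = _
          rw [δ'.map_smul, Algebra.smul_def, Algebra.smul_def, Algebra.smul_def]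
          ring }
      (fun y z => by
        change δ' ((y : Ω) * (z : Ω)) - (D (y * z) : Ω) =
          y • (δ' (z : Ω) - (D z : Ω)) + z • (δ' (y : Ω) - (D y : Ω))
        rw [δ'.leibniz, D.leibniz, smul_eq_mul, smul_eq_mul, smul_eq_mul, smul_eq_mul, hsm, hsm]
        change _ - ((y : Ω) * (D z : Ω) + (z : Ω) * (D y : Ω)) = _
        ring)
    have h1 : E = 0 := by
      refine derv_eq_zero E (Set.range fun _ : Unit => (⟨w, hwN⟩ : N)) hbN.isAlgebraic_field ?_
      rintro _ ⟨_, rfl⟩
      change δ' w - (D ⟨w, hwN⟩ : Ω) = 0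
      rw [hDw, hδa, inv_mul_cancel₀ hδw]
      exact sub_self _
    intro a
    have h2 : E a = 0 := by
      rw [h1]
      rfl
    exact sub_eq_zero.1 h2
  -- the points over `N`
  have hex : ∀ σ : c.support, ∃ σ' : K₁ →ₐ[F] N, ∀ a, (σ' a : Ω) = σ.1 a := by
    intro σ
    exact ⟨σ.1.codRestrict N.toSubalgebra (hσN σ.1 σ.2), fun a => rfl⟩
  choose τ hτ using hex
  have hsum : ∑ σ : c.support, (c σ.1 : N) * (τ σ f * D (τ σ x)) = D ⟨G, hGN⟩ := by
    apply Subtype.ext
    rw [← hDδ]
    change algebraMap N Ω (∑ σ : c.support, (c σ.1 : N) * (τ σ f * D (τ σ x))) = δ' G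
    have h' : ∑ σ : c.support, (c σ.1 : Ω) * (σ.1 f * δ (σ.1 x)) = δ G := by
      rw [← h]
      exact Finset.sum_coe_sort c.support (fun σ => (c σ : Ω) * (σ f * δ (σ x)))
    rw [map_sum, hδa, ← h', Finset.mul_sum]
    refine Finset.sum_congr rfl fun σ _ => ?_
    rw [map_mul, map_mul, map_intCast]
    change ((c σ.1 : ℤ) : Ω) * ((τ σ f : Ω) * (D (τ σ x) : Ω)) = _
    rw [← hDδ, hτ, hτ, hδa]
    ring
  have h1 : D ⟨G, hGN⟩ = 0 := by
    refine exact_reg D hDne fun P => ?_
    rw [← hsum]
    refine Ge.sum _ _ fun σ _ => ?_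
    have h2 := (Ge.intCast (P := P) (c σ.1)).mul
      (pullback_reg D hDne D1 hD1 hx hf (τ σ) P)
    rwa [zero_add] at h2
  have h2 : δ' G = 0 := by
    have := hDδ ⟨G, hGN⟩
    rw [h1] at this
    exact this
  rw [hδa] at h2
  rcases mul_eq_zero.1 h2 with h3 | h3
  · exact absurd h3 (inv_ne_zero hδw)
  · exact h3

theorem exact_fibre_aux (L K Ω F : Type) [Field L] [Field K] [Field Ω] [Field F] [Algebra L K]
    [Algebra L Ω] [Algebra L F] [Algebra F Ω] [IsScalarTower L F Ω]
    [IsAlgClosed Ω] [CharZero Ω] [IsAlgClosed F] [Algebra.IsAlgebraic L F]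
    [IsFF L K] (h : algebraicClosure L K = ⊥)
    (hΩ : Algebra.trdeg L Ω = 1) (δ : Derivation L Ω Ω) (hδ : δ ≠ 0) {x : K}
    (hx : Transcendental L x) (D0 : Derivation L K K) (hD0 : D0 x = 1)
    (c : (K →ₐ[L] Ω) →₀ ℤ) {T : K}
    (hT : ∀ (p : Place L K) (π : K), p.ord π = 1 → Ge p (p.ord (D0 π)) T) (G : Ω)
    (hG : ∑ σ ∈ c.support, (c σ : Ω) * (σ T * δ (σ x)) = δ G) : δ G = 0 := by
  classical
  have hcL : CharZero L := (algebraMap L Ω).charZero
  have hcK : CharZero K := (algebraMap L K).charZero_iff (algebraMap L K).injective |>.1 hcL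
  have hcF : CharZero F := charZero_of_injective_algebraMap (algebraMap L F).injective
  obtain ⟨K₁, hK₁, a1, a2, a3, a4, a5, hFF1, LD, FR⟩ := constr L K F h
  have GEN := gen_of_fr (L := L) FR
  have hcK₁ : CharZero K₁ := charZero_of_injective_algebraMap (algebraMap F K₁).injective
  -- extension of points
  have hext : ∀ σ : K →ₐ[L] Ω, ∃ σ₁ : K₁ →ₐ[F] Ω, ∀ κ, σ₁ (algebraMap K K₁ κ) = σ κ := by
    intro σ
    obtain ⟨g, hg1, hg2⟩ := up (L := L) LD GEN (algebraMap F Ω) (σ : K →+* Ω) (fun l => by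
      rw [← IsScalarTower.algebraMap_apply L F Ω]
      exact (σ.commutes l).symm)
    exact ⟨{ g with commutes' := hg1 }, hg2⟩
  choose ext hext using hext
  have hextinj : Function.Injective ext := by
    intro σ τ hστ
    ext κ
    rw [← hext, ← hext, hστ]
  let c₁ : (K₁ →ₐ[F] Ω) →₀ ℤ := Finsupp.embDomain ⟨ext, hextinj⟩ c
  have hc₁ : ∀ σ, c₁ (ext σ) = c σ := fun σ => Finsupp.embDomain_apply_self ⟨ext, hextinj⟩ c σ
  have hc₁s : c₁.support = c.support.map ⟨ext, hextinj⟩ := Finsupp.support_embDomain _ _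
  -- the derivations
  have hx₁ : Transcendental F (algebraMap K K₁ x) := transc_up' LD hx
  obtain ⟨D1, hD1⟩ := Pool.Agent.W602.GT.exists_der (fun _ : Unit => algebraMap K K₁ x)
    (IsFF.basis hx₁) (fun _ => 1)
  have hD1' : D1 (algebraMap K K₁ x) = 1 := hD1 ()
  have hD1ne : D1 ≠ 0 := by
    intro h0
    rw [h0] at hD1'
    exact zero_ne_one hD1'
  have htrF : Algebra.trdeg F Ω = 1 := by
    have h1 := trdeg_add_eq L F (A := Ω)
    have h2 : Algebra.trdeg L F = 0 := trdeg_eq_zero
    rw [h2, zero_add, hΩ] at h1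
    exact h1
  by_cases hT0 : T = 0
  · rw [← hG]
    refine Finset.sum_eq_zero fun σ _ => ?_
    rw [hT0, map_zero, zero_mul, mul_zero]
  have hreg : ∀ P : Place F K₁, vo P D1 ≤ P.ord (algebraMap K K₁ T) := by
    intro P
    obtain ⟨p, hp⟩ := unr (L := L) GEN P
    obtain ⟨π, hπ0, hπ⟩ := p.surj
    have h1 : P.ord (algebraMap K K₁ π) = 1 := by rw [hp, hπ]
    rw [← vo_eq P h1 hD1ne, der_compat hx D0 hD0 D1 hD1', hp, hp]
    exact (hT p π hπ).resolve_left hT0
  let δF : Derivation F Ω Ω := Derivation.mk'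
    { toFun := fun a => δ a
      map_add' := fun a b => map_add δ a b
      map_smul' := fun α a => by
        rw [RingHom.id_apply, Algebra.smul_def, δ.leibniz, der_alg δ α, smul_zero, add_zero,
          smul_eq_mul, ← Algebra.smul_def] }
    (fun a b => δ.leibniz a b)
  have hδF : ∀ a, δF a = δ a := fun a => rfl
  have hδF0 : δF ≠ 0 := by
    intro h0
    apply hδ
    ext a
    rw [← hδF, h0]
    rfl
  have hG' : ∑ σ ∈ c₁.support,
      (c₁ σ : Ω) * (σ (algebraMap K K₁ T) * δF (σ (algebraMap K K₁ x))) = δF G := by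
    rw [hc₁s, Finset.sum_map, hδF, ← hG]
    simp only [Function.Embedding.coeFn_mk, hc₁, hext, hδF]
  exact exact_zero htrF δF hδF0 D1 hD1' hx₁ hreg c₁ G hG'

/-- **The trace of a differential which is regular on the generic fibre is zero if it is
exact.** -/
theorem exact_fibre (L K Ω : Type) [Field L] [Field K] [Field Ω] [Algebra L K] [Algebra L Ω]
    [IsAlgClosed Ω] [CharZero Ω] [IsFF L K] (h : algebraicClosure L K = ⊥)
    (hΩ : Algebra.trdeg L Ω = 1) (δ : Derivation L Ω Ω) (hδ : δ ≠ 0) {x : K}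
    (hx : Transcendental L x) (D0 : Derivation L K K) (hD0 : D0 x = 1)
    (c : (K →ₐ[L] Ω) →₀ ℤ) {T : K}
    (hT : ∀ (p : Place L K) (π : K), p.ord π = 1 → Ge p (p.ord (D0 π)) T) (G : Ω)
    (hG : ∑ σ ∈ c.support, (c σ : Ω) * (σ T * δ (σ x)) = δ G) : δ G = 0 := by
  have hcL : CharZero L := (algebraMap L Ω).charZero
  have hFc : IsAlgClosed (algebraicClosure L Ω) := IsAlgClosure.isAlgClosed L
  have hFa : Algebra.IsAlgebraic L (algebraicClosure L Ω) := IsAlgClosure.isAlgebraic
  exact exact_fibre_aux L K Ω (algebraicClosure L Ω) h hΩ δ hδ hx D0 hD0 c hT G hG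

end Pool.Agent.N162.BC
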