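import Pool.Agent.N162.BC.Core
import Pool.Agent.N162.BC.Constr

/-!
Families of zero-cycles on one fibre.
-/

set_option autoImplicit false
set_option linter.overlappingInstances false
set_option linter.unusedSectionVars false
set_option linter.unusedDecidableInType false
set_option linter.unusedFintypeInType false
set_option linter.unusedVariables false
set_option maxHeartbeats 4000000
set_option synthInstance.maxHeartbeats 400000

open FF Polynomial Pool.Agent.W603.LV IntermediateField Pool.Agent.W619.PQ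

namespace Pool.Agent.N162.BC

section

variable {L Ω : Type} [Field L] [Field Ω] [Algebra L Ω] [CharZero L]

theorem basis_one (h : Algebra.trdeg L Ω = 1) {a : Ω} (ha : Transcendental L a) :
    IsTranscendenceBasis L (fun _ : Unit => a) := by
  have h1 : AlgebraicIndependent L (fun _ : Unit => a) := by
    rw [algebraicIndependent_unique_type_iff]
    exact ha
  refine h1.isTranscendenceBasis_of_lift_trdeg_le_of_finite ?_
  rw [h]
  simp

theorem alg_one (h : Algebra.trdeg L Ω = 1) {a : Ω} (ha : Transcendental L a) :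
    Algebra.IsAlgebraic L⟮a⟯ Ω := by
  have h1 := (basis_one h ha).isAlgebraic_field
  have h2 : Set.range (fun _ : Unit => a) = {a} := by simp
  rwa [h2] at h1

theorem exists_transc (h : Algebra.trdeg L Ω = 1) : ∃ a : Ω, Transcendental L a := by
  by_contra hc
  push Not at hc
  have h2 : Algebra.IsAlgebraic L Ω := ⟨fun x => by
    have := hc x
    simpa [Transcendental] using this⟩
  rw [_root_.trdeg_eq_zero_iff.2 h2] at h
  exact zero_ne_one h

theorem der_alg {F : Type} [Field F] [Algebra L F] [Algebra F Ω] [IsScalarTower L F Ω]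
    [Algebra.IsAlgebraic L F] (δ : Derivation L Ω Ω) (a : F) : δ (algebraMap F Ω a) = 0 := by
  let D' : Derivation L F Ω := Derivation.mk'
    { toFun := fun y => δ (algebraMap F Ω y)
      map_add' := fun y z => by rw [map_add, map_add]
      map_smul' := fun c y => by
        rw [RingHom.id_apply, Algebra.smul_def, map_mul, ← IsScalarTower.algebraMap_apply L F Ω,
          ← Algebra.smul_def, δ.map_smul] }
    (fun y z => by
      change δ (algebraMap F Ω (y * z)) = y • δ (algebraMap F Ω z) + z • δ (algebraMap F Ω y)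
      rw [map_mul, δ.leibniz, smul_eq_mul, smul_eq_mul, Algebra.smul_def, Algebra.smul_def])
  have h0 : Algebra.IsAlgebraic (IntermediateField.adjoin L (∅ : Set F)) F :=
    Algebra.IsAlgebraic.tower_top (K := L) _
  have h1 : D' = 0 := derv_eq_zero D' ∅ h0 (fun s hs => absurd hs (Set.notMem_empty s))
  have h2 : D' a = 0 := by
    rw [h1]
    rfl
  exact h2

theorem der_ne (h : Algebra.trdeg L Ω = 1) {δ : Derivation L Ω Ω} (hδ : δ ≠ 0) {a : Ω}
    (ha : Transcendental L a) : δ a ≠ 0 := by
  intro h0
  apply hδ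
  refine derv_eq_zero δ {a} (alg_one h ha) ?_
  intro s hs
  rw [Set.mem_singleton_iff] at hs
  rw [hs, h0]

end

theorem fibre_aux (L K Ω F : Type) [Field L] [Field K] [Field Ω] [Field F] [Algebra L K]
    [Algebra L Ω] [Algebra L F] [Algebra F Ω] [IsScalarTower L F Ω]
    [IsAlgClosed Ω] [CharZero Ω] [IsAlgClosed F] [Algebra.IsAlgebraic L F]
    [IsFF L K] (h : algebraicClosure L K = ⊥)
    (hΩ : Algebra.trdeg L Ω = 1) (δ : Derivation L Ω Ω) (hδ : δ ≠ 0) {x : K}
    (hx : Transcendental L x) (D0 : Derivation L K K) (hD0 : D0 x = 1)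
    (c : (K →ₐ[L] Ω) →₀ ℤ)
    (hc : ∀ T : K, (∀ (p : Place L K) (π : K), p.ord π = 1 → Ge p (p.ord (D0 π)) T) →
      ∑ σ ∈ c.support, (c σ : Ω) * (σ T * δ (σ x)) = 0) :
    ∃ (M : Type) (_ : Field M) (_ : Algebra Ω M) (_ : Algebra K M) (_ : IsFF Ω M),
      (∀ l : L, algebraMap Ω M (algebraMap L Ω l) = algebraMap K M (algebraMap L K l)) ∧
      ∃ f : M, f ≠ 0 ∧ ∀ σ : K →ₐ[L] Ω, ∃ P : Place Ω M, P.ord f = c σ ∧
        ∀ v : Place Ω M, (∀ κ : K, Ge v 1 (algebraMap K M κ - algebraMap Ω M (σ κ))) ↔ v = P := by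
  classical
  have hcL : CharZero L := (algebraMap L Ω).charZero
  have hcK : CharZero K := (algebraMap L K).charZero_iff (algebraMap L K).injective |>.1 hcL
  have hcF : CharZero F := charZero_of_injective_algebraMap (algebraMap L F).injective
  obtain ⟨K₁, hK₁, a1, a2, a3, a4, a5, hFF1, LD, FR⟩ := constr L K F h
  have GEN := gen_of_fr (L := L) FR
  have hcK₁ : CharZero K₁ := charZero_of_injective_algebraMap (algebraMap F K₁).injective
  have h' : algebraicClosure F K₁ = ⊥ := by
    rw [eq_bot_iff]
    intro z hz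
    rw [mem_algebraicClosure_iff] at hz
    obtain ⟨c, hc⟩ := Pool.Agent.W602.GT.const_of_algebraic hz
    rw [hc]
    exact IntermediateField.algebraMap_mem _ _
  obtain ⟨M, hMf, b1, b2, b3, b4, b5, hFF2, hlin, hM⟩ := constr F K₁ Ω h'
  have hcM : CharZero M := charZero_of_injective_algebraMap (algebraMap Ω M).injective
  let b6 : Algebra K M := ((algebraMap K₁ M).comp (algebraMap K K₁)).toAlgebra
  have hb6 : ∀ κ : K, algebraMap K M κ = algebraMap K₁ M (algebraMap K K₁ κ) := fun κ => rfl
  have b7 : IsScalarTower K K₁ M := IsScalarTower.of_algebraMap_eq fun κ => rfl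
  have halgK := alg_of_gen (L := L) GEN
  -- extension of points
  have hext : ∀ σ : K →ₐ[L] Ω, ∃ σ₁ : K₁ →ₐ[F] Ω, ∀ κ, σ₁ (algebraMap K K₁ κ) = σ κ := by
    intro σ
    obtain ⟨g, hg1, hg2⟩ := up (L := L) LD GEN (algebraMap F Ω) (σ : K →+* Ω) (fun l => by
      rw [← IsScalarTower.algebraMap_apply L F Ω]
      exact (σ.commutes l).symm)
    exact ⟨{ g with commutes' := hg1 }, hg2⟩
  choose ext hext using hext
  have hextu : ∀ (τ : K₁ →ₐ[F] Ω) (σ : K →ₐ[L] Ω), (∀ κ, τ (algebraMap K K₁ κ) = σ κ) →
      τ = ext σ := by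
    intro τ σ hτ
    have h1 : (τ : K₁ →+* Ω) = (ext σ : K₁ →+* Ω) := by
      refine up_unique GEN (fun α => ?_) (fun κ => ?_)
      · change τ (algebraMap F K₁ α) = ext σ (algebraMap F K₁ α)
        rw [AlgHom.commutes, AlgHom.commutes]
      · change τ (algebraMap K K₁ κ) = ext σ (algebraMap K K₁ κ)
        rw [hτ, hext]
    ext z
    exact congrArg (fun g : K₁ →+* Ω => g z) h1
  have hextinj : Function.Injective ext := by
    intro σ τ hστ
    ext κ
    rw [← hext, ← hext, hστ]
  let c₁ : (K₁ →ₐ[F] Ω) →₀ ℤ := Finsupp.embDomain ⟨ext, hextinj⟩ c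
  have hc₁ : ∀ σ, c₁ (ext σ) = c σ := fun σ => Finsupp.embDomain_apply_self ⟨ext, hextinj⟩ c σ
  have hc₁s : c₁.support = c.support.map ⟨ext, hextinj⟩ := Finsupp.support_embDomain _ _
  -- the derivations
  have hx₁ : Transcendental F (algebraMap K K₁ x) := transc_up' LD hx
  obtain ⟨D1, hD1⟩ := Pool.Agent.W602.GT.exists_der (fun _ : Unit => algebraMap K K₁ x)
    (IsFF.basis hx₁) (fun _ => 1)
  have hD1' : D1 (algebraMap K K₁ x) = 1 := hD1 ()
  have htrF : Algebra.trdeg F Ω = 1 := by
    have h1 := trdeg_add_eq L F (A := Ω)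
    have h2 : Algebra.trdeg L F = 0 := trdeg_eq_zero
    rw [h2, zero_add, hΩ] at h1
    exact h1
  have htrM : Algebra.trdeg K₁ M = 1 := by
    have h1 := trdeg_add_eq F K₁ (A := M)
    have h2 := trdeg_add_eq F Ω (A := M)
    rw [hFF1.trdeg] at h1
    rw [htrF, hFF2.trdeg, ← h1] at h2
    have h3 : Algebra.trdeg K₁ M < Cardinal.aleph0 := by
      by_contra hcon
      push Not at hcon
      have h4 : (1 : Cardinal) + Algebra.trdeg K₁ M = Algebra.trdeg K₁ M :=
        Cardinal.add_eq_right hcon (Cardinal.one_le_aleph0.trans hcon)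
      rw [h4] at h2
      rw [← h2] at hcon
      have h5 : (1 : Cardinal.{0}) + 1 < Cardinal.aleph0 :=
        Cardinal.add_lt_aleph0 Cardinal.one_lt_aleph0 Cardinal.one_lt_aleph0
      exact absurd hcon (not_le.2 h5)
    obtain ⟨n, hn⟩ := Cardinal.lt_aleph0.1 h3
    rw [hn] at h2 ⊢
    have h4 : (1 + 1 : ℕ) = 1 + n := by exact_mod_cast h2
    have h5 : n = 1 := by omega
    rw [h5, Nat.cast_one]
  obtain ⟨w, hw⟩ := exists_transc (L := F) (Ω := Ω) htrF
  have hwalg := alg_one (L := F) htrF hw
  have hwM : Transcendental K₁ (algebraMap Ω M w) := by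
    intro hal
    have h1 : ∀ e ∈ F⟮w⟯, IsAlgebraic K₁ (algebraMap Ω M e) := by
      intro e he
      induction he using IntermediateField.adjoin_induction with
      | mem e he =>
        rw [Set.mem_singleton_iff] at he
        rw [he]
        exact hal
      | algebraMap c =>
        rw [← IsScalarTower.algebraMap_apply F Ω M, IsScalarTower.algebraMap_apply F K₁ M]
        exact isAlgebraic_algebraMap _
      | add a b _ _ ha hb =>
        rw [map_add]
        exact ha.add hb
      | inv a _ ha =>
        rw [map_inv₀]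
        exact ha.inv
      | mul a b _ _ ha hb =>
        rw [map_mul]
        exact ha.mul hb
    have h2 : ∀ a : Ω, IsAlgebraic K₁ (algebraMap Ω M a) := by
      intro a
      let A : IntermediateField K₁ M := algebraicClosure K₁ M
      have hA : ∀ e : F⟮w⟯, algebraMap Ω M (e : Ω) ∈ A := fun e =>
        mem_algebraicClosure_iff.2 (h1 e e.2)
      let ψ : F⟮w⟯ →+* A := ((algebraMap Ω M).comp (algebraMap F⟮w⟯ Ω)).codRestrict
        A.toSubfield.toSubring hA
      obtain ⟨q, hq0, hq⟩ := hwalg.isAlgebraic a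
      have h3 : IsAlgebraic A (algebraMap Ω M a) := by
        refine ⟨q.map ψ, (Polynomial.map_ne_zero_iff ψ.injective).2 hq0, ?_⟩
        have h1 := congrArg (algebraMap Ω M) hq
        rw [aeval_def, hom_eval₂, map_zero] at h1
        rw [aeval_def, eval₂_map, ← h1]
        congr 1
      exact IsAlgebraic.restrictScalars K₁ h3
    have h3 : ∀ b ∈ BR Ω M (⊤ : Subring K₁), IsAlgebraic K₁ b := by
      intro b hb
      unfold BR at hb
      induction hb using Algebra.adjoin_induction with
      | mem z hz =>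
        obtain ⟨e, -, rfl⟩ := hz
        exact isAlgebraic_algebraMap e
      | algebraMap r => exact h2 r
      | add a b _ _ ha hb => exact ha.add hb
      | mul a b _ _ ha hb => exact ha.mul hb
    have h4 : Algebra.IsAlgebraic K₁ M := by
      refine ⟨fun f => ?_⟩
      obtain ⟨a, ha, b, hb, hb0, hab⟩ := hM f
      have h5 : f = a * b⁻¹ := by
        rw [← hab]
        field_simp
      rw [h5]
      exact (h3 a ha).mul (h3 b hb).inv
    rw [trdeg_eq_zero_iff.2 h4] at htrM
    exact zero_ne_one htrM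
  obtain ⟨D', hD'⟩ := Pool.Agent.W602.GT.exists_der (fun _ : Unit => algebraMap Ω M w)
    (basis_one htrM hwM) (fun _ => algebraMap Ω M (δ w))
  have hD'w : D' (algebraMap Ω M w) = algebraMap Ω M (δ w) := hD' ()
  let D : Derivation F M M := D'.restrictScalars F
  have hDK : ∀ e : K₁, D (algebraMap K₁ M e) = 0 := fun e => D'.map_algebraMap e
  have hDF : ∀ α : F, D (algebraMap Ω M (algebraMap F Ω α)) = 0 := fun α => by
    rw [tower (F := F) (K := K₁) (Ω := Ω) (M := M) α, hDK]
  have hδD : ∀ a : Ω, D (algebraMap Ω M a) = algebraMap Ω M (δ a) := by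
    let E : Derivation F Ω M := Derivation.mk'
      { toFun := fun y => D (algebraMap Ω M y) - algebraMap Ω M (δ y)
        map_add' := fun y z => by
          rw [map_add, map_add, map_add, map_add]
          ring
        map_smul' := fun α y => by
          have h2 : ∀ m : M, α • m = algebraMap Ω M (algebraMap F Ω α) * m := fun m => by
            rw [Algebra.smul_def, IsScalarTower.algebraMap_apply F Ω M]
          rw [RingHom.id_apply, Algebra.smul_def, h2, map_mul, D.leibniz, δ.leibniz, hDF,
            der_alg δ α,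
            smul_zero, add_zero, smul_zero, add_zero, smul_eq_mul, smul_eq_mul, map_mul]
          ring }
      (fun y z => by
        change D (algebraMap Ω M (y * z)) - algebraMap Ω M (δ (y * z)) =
          y • (D (algebraMap Ω M z) - algebraMap Ω M (δ z)) +
            z • (D (algebraMap Ω M y) - algebraMap Ω M (δ y))
        rw [map_mul, D.leibniz, δ.leibniz, smul_eq_mul,
          smul_eq_mul, smul_eq_mul, smul_eq_mul, Algebra.smul_def, Algebra.smul_def, map_add,
          map_mul, map_mul]
        ring)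
    have h1 : E = 0 := by
      refine derv_eq_zero E {w} hwalg ?_
      intro s hs
      rw [Set.mem_singleton_iff] at hs
      rw [hs]
      change D (algebraMap Ω M w) - algebraMap Ω M (δ w) = 0
      rw [sub_eq_zero]
      exact hD'w
    intro a
    have h2 : E a = 0 := by
      rw [h1]
      rfl
    exact sub_eq_zero.1 h2
  have hδ0 : ∀ a : Ω, Transcendental F a → δ a ≠ 0 := by
    intro a ha
    refine der_ne hΩ hδ fun hal => ha ?_
    exact hal.extendScalars (algebraMap L F).injective
  -- the relations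
  have hrel : ∀ f : K₁, (∀ p : Place F K₁, vo p D1 ≤ p.ord f) →
      ∑ σ ∈ c₁.support, (c₁ σ : Ω) * (σ f * δ (σ (algebraMap K K₁ x))) = 0 := by
    intro f hf
    rw [hc₁s, Finset.sum_map]
    simp only [Function.Embedding.coeFn_mk, hc₁, hext]
    by_cases hf0 : f = 0
    · refine Finset.sum_eq_zero fun σ _ => ?_
      rw [hf0, map_zero, zero_mul, mul_zero]
    obtain ⟨n, l, T, hfT, hT⟩ := descent LD GEN hx D0 hD0 D1 hD1' hf hf0
    have h1 : ∀ σ : K →ₐ[L] Ω, ext σ f = ∑ j, algebraMap F Ω (l j) * σ (T j) := by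
      intro σ
      rw [hfT, map_sum]
      refine Finset.sum_congr rfl fun j _ => ?_
      rw [map_mul, AlgHom.commutes, hext]
    have h2 : ∀ σ ∈ c.support, (c σ : Ω) * (ext σ f * δ (σ x)) =
        ∑ j, algebraMap F Ω (l j) * ((c σ : Ω) * (σ (T j) * δ (σ x))) := by
      intro σ _
      rw [h1, Finset.sum_mul, Finset.mul_sum]
      refine Finset.sum_congr rfl fun j _ => ?_
      ring
    rw [Finset.sum_congr rfl h2, Finset.sum_comm]
    refine Finset.sum_eq_zero fun j _ => ?_
    rw [← Finset.mul_sum, hc (T j) (hT j), mul_zero]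
  obtain ⟨f, hf0, hf⟩ := core hM hlin D hDK δ hδD hδ0 hx₁ D1 hD1' c₁ hrel
  refine ⟨M, hMf, b1, b6, hFF2, ?_, f, hf0, ?_⟩
  · intro l
    rw [hb6, ← IsScalarTower.algebraMap_apply L K K₁, IsScalarTower.algebraMap_apply L F K₁,
      ← tower (F := F) (K := K₁) (Ω := Ω) (M := M), ← IsScalarTower.algebraMap_apply L F Ω]
  · intro σ
    obtain ⟨P, hP⟩ := exists_place_cen hlin hM (ext σ)
    refine ⟨P, by rw [hf P _ hP, hc₁], fun v => ?_⟩
    constructor
    · intro hv
      have hgen0 : ∀ κ : K, κ ≠ 0 → v.ord (algebraMap K M κ) = 0 := by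
        intro e he
        have h1 := hv e
        have h2 : σ e ≠ 0 := by simpa using he
        have h3 : algebraMap Ω M (σ e) ≠ 0 := by simpa using h2
        rcases h1 with h1 | h1
        · rw [sub_eq_zero.1 h1]
          exact v.ord_const h2
        · by_cases h0 : algebraMap K M e - algebraMap Ω M (σ e) = 0
          · rw [h0, v.ord_zero] at h1
            omega
          have h5 := v.ord_add_eq h3 h0 (by rw [v.ord_const h2]; omega)
          rw [add_sub_cancel, v.ord_const h2] at h5
          exact h5.2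
      let v' : Place K M :=
        { ord := v.ord
          ord_zero := v.ord_zero
          ord_mul := v.ord_mul
          ord_add := v.ord_add
          ord_const := fun {κ} hκ => hgen0 κ hκ
          surj := v.surj }
      have hgen : Gen K₁ v := by
        intro e he
        have h1 : IsAlgebraic K (algebraMap K₁ M e) := (halgK.isAlgebraic e).algebraMap
        exact v'.ord_eq_zero_of_isAlgebraic (by simpa using he) h1
      obtain ⟨τ, hτ⟩ := exists_cen (F := F) hgen
      have h2 : τ = ext σ := by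
        refine hextu τ σ fun κ => ?_
        have h3 := (hτ (algebraMap K K₁ κ)).sub (hv κ)
        rw [hb6, sub_sub_sub_cancel_left, ← map_sub] at h3
        exact (sub_eq_zero.1 (not_ge_const h3)).symm
      rw [h2] at hτ
      exact gen_unique hM hτ hP
    · rintro rfl κ
      have h1 := hP (algebraMap K K₁ κ)
      rw [hext] at h1
      exact h1

/-- **Families of zero-cycles on one fibre.** -/
theorem fibre (L K Ω : Type) [Field L] [Field K] [Field Ω] [Algebra L K] [Algebra L Ω]
    [IsAlgClosed Ω] [CharZero Ω] [IsFF L K] (h : algebraicClosure L K = ⊥)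
    (hΩ : Algebra.trdeg L Ω = 1) (δ : Derivation L Ω Ω) (hδ : δ ≠ 0) {x : K}
    (hx : Transcendental L x) (D0 : Derivation L K K) (hD0 : D0 x = 1)
    (c : (K →ₐ[L] Ω) →₀ ℤ)
    (hc : ∀ T : K, (∀ (p : Place L K) (π : K), p.ord π = 1 → Ge p (p.ord (D0 π)) T) →
      ∑ σ ∈ c.support, (c σ : Ω) * (σ T * δ (σ x)) = 0) :
    ∃ (M : Type) (_ : Field M) (_ : Algebra Ω M) (_ : Algebra K M) (_ : IsFF Ω M),
      (∀ l : L, algebraMap Ω M (algebraMap L Ω l) = algebraMap K M (algebraMap L K l)) ∧
      ∃ f : M, f ≠ 0 ∧ ∀ σ : K →ₐ[L] Ω, ∃ P : Place Ω M, P.ord f = c σ ∧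
        ∀ v : Place Ω M, (∀ κ : K, Ge v 1 (algebraMap K M κ - algebraMap Ω M (σ κ))) ↔ v = P := by
  have hcL : CharZero L := (algebraMap L Ω).charZero
  have hFc : IsAlgClosed (algebraicClosure L Ω) := IsAlgClosure.isAlgClosed L
  have hFa : Algebra.IsAlgebraic L (algebraicClosure L Ω) := IsAlgClosure.isAlgebraic
  exact fibre_aux L K Ω (algebraicClosure L Ω) h hΩ δ hδ hx D0 hD0 c hc

end Pool.Agent.N162.BC
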