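import Pool.Agent.N162.BC.Fibre
import Pool.Agent.N162.BC.Defs

/-!
Canonical forms and fibrations in curves.
-/

set_option autoImplicit false
set_option linter.overlappingInstances false
set_option linter.unusedSectionVars false
set_option linter.unusedDecidableInType false
set_option linter.unusedFintypeInType false
set_option linter.unusedVariables false
set_option maxHeartbeats 4000000
set_option synthInstance.maxHeartbeats 400000

open FF Polynomial Pool.Agent.W603.LV Pool.Agent.W602.GT

namespace Pool.Agent.N162.BC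

/-- a finite transcendence basis -/
theorem exists_tb {k L : Type} [Field k] [CharZero k] [Field L] [Algebra k L] {m : ℕ}
    (h : Algebra.trdeg k L = m) : ∃ t : Fin m → L, IsTranscendenceBasis k t := by
  obtain ⟨ι, z, hz⟩ := exists_isTranscendenceBasis' k L
  have h1 := hz.cardinalMk_eq_trdeg
  rw [h] at h1
  have h2 : Cardinal.lift.{0} (Cardinal.mk ι) = Cardinal.lift.{0} (Cardinal.mk (Fin m)) := by
    rw [h1]
    simp
  obtain ⟨e⟩ := Cardinal.lift_mk_eq'.1 h2
  exact ⟨z ∘ e.symm, (isTranscendenceBasis_equiv e.symm).2 hz⟩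

/-- adding one element to a transcendence basis -/
theorem snoc_tb {k L A : Type} [Field k] [Field L] [Field A] [Algebra k L] [Algebra L A]
    [Algebra k A] [IsScalarTower k L A] {m : ℕ} {t : Fin m → L} (ht : IsTranscendenceBasis k t)
    {a : A} (ha : IsTranscendenceBasis L (fun _ : Unit => a)) :
    IsTranscendenceBasis k (Fin.snoc (α := fun _ => A) (fun i => algebraMap L A (t i)) a) := by
  have h1 : IsTranscendenceBasis L (fun _ : Fin 1 => a) := by
    have := (isTranscendenceBasis_equiv (Equiv.ofUnique (Fin 1) Unit)).2 ha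
    exact this
  have h2 := ht.sumElim_comp h1
  have h3 := (isTranscendenceBasis_equiv ((finSumFinEquiv (m := m) (n := 1)).symm.trans
    (Equiv.sumComm (Fin m) (Fin 1)))).2 h2
  convert h3 using 1
  funext i
  refine Fin.lastCases ?_ (fun j => ?_) i
  · rw [Fin.snoc_last]
    have h4 : finSumFinEquiv.symm (Fin.last m) = (Sum.inr 0 : Fin m ⊕ Fin 1) := by
      rw [Equiv.symm_apply_eq]
      rfl
    rw [Function.comp_apply, Equiv.trans_apply, h4]
    rfl
  · rw [Fin.snoc_castSucc]
    have h4 : finSumFinEquiv.symm (Fin.castSucc j) = (Sum.inl j : Fin m ⊕ Fin 1) := by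
      rw [Equiv.symm_apply_eq]
      rfl
    rw [Function.comp_apply, Equiv.trans_apply, h4]
    rfl

/-- the determinant of a matrix of derivatives which is triangular -/
theorem det_tri {A : Type} [Field A] {m : ℕ} (M : Matrix (Fin (m + 1)) (Fin (m + 1)) A)
    (h : ∀ (i : Fin (m + 1)) (j : Fin m), M i (Fin.castSucc j) = if i = Fin.castSucc j then 1 else 0) :
    M.det = M (Fin.last m) (Fin.last m) := by
  have h1 : M.BlockTriangular id := by
    intro i j hij
    change j < i at hij
    have hj : j ≠ Fin.last m := by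
      intro h0
      rw [h0] at hij
      exact absurd hij (not_lt.2 (Fin.le_last i))
    obtain ⟨j', rfl⟩ := Fin.exists_castSucc_eq.2 hj
    rw [h, if_neg (ne_of_gt hij)]
  rw [Matrix.det_of_isUpperTriangular h1, Fin.prod_univ_castSucc]
  have h2 : ∀ i : Fin m, M (Fin.castSucc i) (Fin.castSucc i) = 1 := fun i => by
    rw [h, if_pos rfl]
  rw [Finset.prod_congr rfl fun i _ => h2 i, Finset.prod_const_one, one_mul]

section

variable {K : Type} [Field K] [Algebra ℂ K] {m : ℕ} (L : IntermediateField ℂ K)

/-- the canonical form `T dz_1 ∧ ... ∧ dz_n` -/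
noncomputable def stdForm {n : ℕ} (z : Fin n → K) (T : K) (D : Fin n → Derivation ℂ K K) : K :=
  T * (Matrix.of fun i j => D i (z j)).det

theorem stdForm_pluri {n : ℕ} (z : Fin n → K) (T : K) : IsPluri 1 (stdForm z T) := by
  intro A D
  unfold stdForm
  have h1 : (Matrix.of fun i j => (∑ k, A i k • D k) (z j)) = A * Matrix.of fun i j => D i (z j) := by
    ext i j
    rw [Matrix.mul_apply, Matrix.of_apply]
    have h2 : (∑ k, A i k • D k) (z j) = ∑ k, (A i k • D k) (z j) := by
      rw [← Derivation.coeFnAddMonoidHom_apply, map_sum, Finset.sum_apply]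
      rfl
    rw [h2]
    rfl
  rw [h1, Matrix.det_mul]
  ring

theorem stdForm_dual {n : ℕ} (z : Fin n → K) (T : K) {E : Fin n → Derivation ℂ K K}
    (hE : ∀ i j, E i (z j) = if i = j then 1 else 0) : stdForm z T E = T := by
  unfold stdForm
  have h1 : (Matrix.of fun i j => E i (z j)) = 1 := by
    ext i j
    rw [Matrix.of_apply, hE, Matrix.one_apply]
  rw [h1, Matrix.det_one, mul_one]

theorem det_reg (P : Place ℂ K) {n : ℕ} (A : Matrix (Fin n) (Fin n) K)
    (h : ∀ i j, Ge P 0 (A i j)) : Ge P 0 A.det := by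
  rw [Matrix.det_apply]
  refine Ge.sum _ _ fun s _ => ?_
  have h1 : Ge P 0 (∏ i, A (s i) i) := by
    have := Ge.prod (P := P) Finset.univ (fun i => A (s i) i) (fun _ => 0) (fun i _ => h _ _)
    simpa using this
  rcases Int.units_eq_one_or (Equiv.Perm.sign s) with h2 | h2
  · rw [h2, one_smul]
    exact h1
  · rw [h2, Units.neg_smul, one_smul]
    exact h1.neg

/-- a regular differential on the generic fibre defines a canonical form which is regular on the
generic fibre -/
theorem stdForm_fibre [IsFF L K] {t : Fin m → L} (ht : IsTranscendenceBasis ℂ t) {x : K}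
    (hx : Transcendental L x) (D0 : Derivation L K K) (hD0 : D0 x = 1) {T : K}
    (hT : ∀ (p : Place L K) (π : K), p.ord π = 1 → Ge p (p.ord (D0 π)) T) :
    FibreForm L (m + 1) (stdForm (Fin.snoc (α := fun _ => K) (fun i => (t i : K)) x) T) := by
  classical
  refine ⟨stdForm_pluri _ _, fun P hP D hD => ?_⟩
  have hcL : CharZero L := charZero_of_injective_algebraMap (algebraMap ℂ L).injective
  obtain ⟨π, hπ0, hπ⟩ := P.surj
  let p : Place L K :=
    { ord := P.ord
      ord_zero := P.ord_zero
      ord_mul := P.ord_mul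
      ord_add := P.ord_add
      ord_const := fun {l} hl => hP l l.2 (fun h => hl (Subtype.ext h))
      surj := P.surj }
  have hpπ : p.ord π = 1 := hπ
  have hπt : Transcendental L π := p.transcendental_of_ord_ne (by omega)
  have hD0π : D0 π ≠ 0 := by
    intro h0
    have h1 : D0 = 0 := by
      refine derv_eq_zero D0 {π} (IsFF.isAlgebraic hπt) ?_
      intro s hs
      rw [Set.mem_singleton_iff] at hs
      rw [hs, h0]
    rw [h1] at hD0
    exact zero_ne_one hD0
  have hb := snoc_tb (A := K) ht (IsFF.basis hπt)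
  have hcast : (fun i => algebraMap L K (t i)) = fun i => (t i : K) := rfl
  rw [hcast] at hb
  obtain ⟨y, hy⟩ : ∃ y, y = Fin.snoc (α := fun _ => K) (fun i => (t i : K)) π := ⟨_, rfl⟩
  obtain ⟨z, hz⟩ : ∃ z, z = Fin.snoc (α := fun _ => K) (fun i => (t i : K)) x := ⟨_, rfl⟩
  rw [← hy] at hb
  rw [← hz]
  have hyc : ∀ i : Fin m, y (Fin.castSucc i) = (t i : K) := fun i => by
    rw [hy, Fin.snoc_castSucc]
  have hyl : y (Fin.last m) = π := by rw [hy, Fin.snoc_last]
  have hzc : ∀ i : Fin m, z (Fin.castSucc i) = (t i : K) := fun i => by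
    rw [hz, Fin.snoc_castSucc]
  have hzl : z (Fin.last m) = x := by rw [hz, Fin.snoc_last]
  choose H0 hH0 using fun i : Fin (m + 1) => Pool.Agent.W602.GT.exists_der y hb
    fun j => if i = j then (1 : K) else 0
  let D0' : Derivation ℂ K K := D0.restrictScalars ℂ
  have hD0' : ∀ a, D0' a = D0 a := fun a => rfl
  -- the dual vector fields of `y`
  have hHl : ∀ a, D0 a = D0 π * H0 (Fin.last m) a := by
    have h1 : D0' = D0 π • H0 (Fin.last m) := by
      refine Pool.Agent.W602.GT.der_ext y hb fun i => ?_
      rw [Derivation.smul_apply, hH0]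
      refine Fin.lastCases ?_ (fun j => ?_) i
      · rw [hyl, if_pos rfl, hD0', smul_eq_mul, mul_one]
      · rw [hyc, if_neg (Fin.castSucc_lt_last j).ne', hD0', smul_zero]
        exact D0.map_algebraMap (t j)
    intro a
    rw [← hD0', h1]
    rfl
  have hexp : ∀ (D1 : Derivation ℂ K K) (a : K), D1 a = ∑ k, D1 (y k) * H0 k a := by
    intro D1 a
    have h1 : D1 = ∑ k, D1 (y k) • H0 k := by
      refine Pool.Agent.W602.GT.der_ext y hb fun i => ?_
      have h2 : (∑ k, D1 (y k) • H0 k) (y i) = ∑ k, (D1 (y k) • H0 k) (y i) := by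
        rw [← Derivation.coeFnAddMonoidHom_apply, map_sum, Finset.sum_apply]
        rfl
      rw [h2]
      have h3 : ∀ k, (D1 (y k) • H0 k) (y i) = if k = i then D1 (y k) else 0 := by
        intro k
        rw [Derivation.smul_apply, hH0, smul_eq_mul]
        split_ifs
        · rw [mul_one]
        · rw [mul_zero]
      rw [Finset.sum_congr rfl fun k _ => h3 k, Finset.sum_ite_eq' Finset.univ i, if_pos (Finset.mem_univ _)]
    have h2 : (∑ k, D1 (y k) • H0 k) a = ∑ k, (D1 (y k) • H0 k) a := by
      rw [← Derivation.coeFnAddMonoidHom_apply, map_sum, Finset.sum_apply]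
      rfl
    conv_lhs => rw [h1]
    rw [h2]
    rfl
  have hmat : (Matrix.of fun i j => D i (z j)) =
      (Matrix.of fun i k => D i (y k)) * Matrix.of fun k j => H0 k (z j) := by
    ext i j
    rw [Matrix.mul_apply, Matrix.of_apply, hexp]
    rfl
  have hdet : (Matrix.of fun k j => H0 k (z j)).det = (D0 π)⁻¹ := by
    rw [det_tri]
    · rw [Matrix.of_apply, hzl]
      have h1 := hHl x
      rw [hD0] at h1
      exact eq_inv_of_mul_eq_one_right h1.symm
    · intro i j
      rw [Matrix.of_apply, hzc, ← hyc, hH0]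
  unfold stdForm
  rw [hmat, Matrix.det_mul, hdet]
  have h1 : Ge P 0 ((Matrix.of fun i k => D i (y k)).det) := by
    refine det_reg P _ fun i k => ?_
    rw [Matrix.of_apply]
    refine hD i (y k) ?_
    refine Fin.lastCases ?_ (fun j => ?_) k
    · rw [hyl]
      exact Or.inr (by omega)
    · rw [hyc]
      by_cases h0 : (t j : K) = 0
      · exact Or.inl h0
      · exact Or.inr (hP _ (t j).2 h0).ge
  have h2 : Ge P 0 (T * (D0 π)⁻¹) := by
    have h3 : Ge P (P.ord (D0 π)) T := hT p π hpπ
    have h4 : Ge P (-P.ord (D0 π)) (D0 π)⁻¹ := Or.inr (by rw [P.ord_inv])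
    have h5 := h3.mul h4
    rwa [add_neg_cancel] at h5
  have h3 := h2.mul h1
  rw [add_zero] at h3
  have h4 : T * ((Matrix.of fun i k => D i (y k)).det * (D0 π)⁻¹) =
      T * (D0 π)⁻¹ * (Matrix.of fun i k => D i (y k)).det := by ring
  rw [h4]
  exact h3

end

end Pool.Agent.N162.BC
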