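import Pool.Agent.N162.BC.Lie

/-!
Traces of Gauss-Manin derivatives.
-/

set_option autoImplicit false
set_option linter.overlappingInstances false
set_option linter.unusedSectionVars false
set_option linter.unusedDecidableInType false
set_option linter.unusedFintypeInType false
set_option linter.unusedVariables false
set_option maxHeartbeats 4000000
set_option synthInstance.maxHeartbeats 400000

open FF Polynomial Pool.Agent.W603.LV Pool.Agent.W602.GT

namespace Pool.Agent.N162.BC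

section

variable {K Ω : Type} [Field K] [Algebra ℂ K] [Field Ω] [Algebra ℂ Ω] {m : ℕ}

/-- the dual vector fields preserve the function field of the base -/
theorem dual_mem (L : IntermediateField ℂ K) {t : Fin m → L} (ht : IsTranscendenceBasis ℂ t)
    (D : Derivation ℂ K K) (hD : ∀ i, D (t i : K) ∈ L) (l : L) : D (l : K) ∈ L := by
  choose a ha using fun i : Fin m => (⟨⟨D (t i : K), hD i⟩, rfl⟩ : ∃ a : L, (a : K) = D (t i : K))
  obtain ⟨D', hD'⟩ := Pool.Agent.W602.GT.exists_der t ht a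
  have h1 := hom_der_ext L.val ht (fun l => D (l : K) - (D' l : K))
    (fun a b => by
      rw [map_add]
      change D ((a : K) + (b : K)) - ((D' a : K) + (D' b : K)) = _
      rw [map_add]
      ring)
    (fun c a => by
      rw [D'.map_smul]
      change D (c • (a : K)) - c • (D' a : K) = _
      rw [D.map_smul, smul_sub])
    (fun a b => by
      rw [D'.leibniz]
      change D ((a : K) * (b : K)) - ((a : K) * (D' b : K) + (b : K) * (D' a : K)) =
        (a : K) * _ + (b : K) * _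
      rw [D.leibniz, smul_eq_mul, smul_eq_mul]
      ring)
    (fun i => by
      rw [hD', ha, sub_self]) l
  rw [sub_eq_zero.1 h1]
  exact (D' l).2

theorem gm_step (L : IntermediateField ℂ K) {t : Fin m → L} (ht : IsTranscendenceBasis ℂ t)
    {x : K} {z : Fin (m + 1) → K} (hzt : ∀ i : Fin m, z (Fin.castSucc i) = (t i : K))
    (hzx : z (Fin.last m) = x)
    (hz : IsTranscendenceBasis ℂ z) {E : Fin (m + 1) → Derivation ℂ K K}
    (hE : ∀ i j, E i (z j) = if i = j then 1 else 0) (u : L →ₐ[ℂ] Ω) {w : Ω}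
    {y : Fin (m + 1) → Ω} (hyt : ∀ i : Fin m, y (Fin.castSucc i) = u (t i))
    (hyw : y (Fin.last m) = w)
    (hy : IsTranscendenceBasis ℂ y) (δ : Derivation ℂ Ω Ω) (hδt : ∀ i, δ (u (t i)) = 0)
    (hδw : δ w = 1) (c : (K →ₐ[ℂ] Ω) →₀ ℤ) (S : Finset (K →ₐ[ℂ] Ω))
    (hS : ∀ σ ∈ S, σ.comp L.val = u) (D : Derivation ℂ K K) (hD : ∀ l ∈ L, D l ∈ L) (g : K)
    (G : Ω) (hG : ∑ σ ∈ S, (c σ : Ω) * (σ g * δ (σ x)) = δ G) :
    ∃ G' : Ω, ∑ σ ∈ S, (c σ : Ω) * (σ (D g + g * ∑ i, E i (D (z i))) * δ (σ x)) = δ G' := by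
  classical
  have hσu : ∀ σ ∈ S, ∀ l : L, σ (l : K) = u l := by
    intro σ hσ l
    rw [← hS σ hσ]
    rfl
  -- `δ` vanishes on the base
  have hδu : ∀ l : L, δ (u l) = 0 := by
    intro l
    refine hom_der_ext u ht (fun l => δ (u l)) (fun a b => by rw [map_add, map_add])
      (fun c a => by rw [map_smul, δ.map_smul]) (fun a b => by
        rw [map_mul, δ.leibniz, smul_eq_mul, smul_eq_mul]) (fun i => hδt i) l
  -- the derivation of `Ω`
  let DL : L → L := fun l => ⟨D (l : K), hD l l.2⟩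
  have hDL : ∀ l : L, (DL l : K) = D (l : K) := fun l => rfl
  obtain ⟨B, hB⟩ := Pool.Agent.W602.GT.exists_der y hy
    (Fin.snoc (α := fun _ => Ω) (fun i => u (DL (t i))) 0)
  have hBt : ∀ i : Fin m, B (u (t i)) = u (DL (t i)) := by
    intro i
    rw [← hyt, hB, Fin.snoc_castSucc]
  have hBw : B w = 0 := by rw [← hyw, hB, Fin.snoc_last]
  have hBu : ∀ l : L, B (u l) = u (DL l) := by
    intro l
    refine sub_eq_zero.1 (hom_der_ext u ht (fun l => B (u l) - u (DL l)) (fun a b => ?_)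
      (fun c a => ?_) (fun a b => ?_) (fun i => ?_) l)
    · have h1 : DL (a + b) = DL a + DL b := by
        apply Subtype.ext
        change D ((a : K) + (b : K)) = D (a : K) + D (b : K)
        rw [map_add]
      rw [map_add, map_add, h1, map_add]
      ring
    · have h1 : DL (c • a) = c • DL a := by
        apply Subtype.ext
        change D (c • (a : K)) = c • D (a : K)
        rw [D.map_smul]
      rw [map_smul, B.map_smul, h1, map_smul, smul_sub]
    · have h1 : DL (a * b) = a * DL b + b * DL a := by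
        apply Subtype.ext
        change D ((a : K) * (b : K)) = (a : K) * D (b : K) + (b : K) * D (a : K)
        rw [D.leibniz, smul_eq_mul, smul_eq_mul]
      rw [map_mul, B.leibniz, h1, map_add, map_mul, map_mul, smul_eq_mul, smul_eq_mul]
      ring
    · rw [hBt, sub_self]
  -- the commutator
  have hcomm : ∀ a, B (δ a) = δ (B a) := by
    have h1 : ⁅B, δ⁆ = 0 := by
      refine Pool.Agent.W602.GT.der_ext y hy fun i => ?_
      rw [Derivation.commutator_apply, Derivation.zero_apply, hB]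
      refine Fin.lastCases ?_ (fun j => ?_) i
      · rw [Fin.snoc_last, hyw, hδw, B.map_one_eq_zero, map_zero, sub_zero]
      · rw [Fin.snoc_castSucc, hyt, hδt, map_zero, hδu, sub_zero]
    intro a
    have h2 : ⁅B, δ⁆ a = 0 := by rw [h1]; rfl
    rw [Derivation.commutator_apply] at h2
    exact sub_eq_zero.1 h2
  -- `δ` on the points
  have hδσ : ∀ σ ∈ S, ∀ a : K, δ (σ a) = δ (σ x) * σ (E (Fin.last m) a) := by
    intro σ hσ a
    refine sub_eq_zero.1 (hom_der_ext σ hz (fun a => δ (σ a) - δ (σ x) * σ (E (Fin.last m) a))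
      (fun a b => ?_) (fun c a => ?_) (fun a b => ?_) (fun i => ?_) a)
    · rw [map_add, map_add, map_add, map_add]
      ring
    · rw [map_smul, δ.map_smul, Derivation.map_smul, map_smul, smul_sub, mul_smul_comm]
    · rw [map_mul, δ.leibniz, Derivation.leibniz, smul_eq_mul, smul_eq_mul, smul_eq_mul,
        smul_eq_mul, map_add, map_mul, map_mul]
      ring
    · rw [hE]
      refine Fin.lastCases ?_ (fun j => ?_) i
      · rw [if_pos rfl, map_one, mul_one, hzx, sub_self]
      · rw [if_neg (Fin.castSucc_lt_last j).ne', map_zero, mul_zero, hzt, hσu σ hσ, hδt, sub_zero]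
  -- `B` on the points
  have hBσ : ∀ σ ∈ S, ∀ a : K,
      B (σ a) = σ (D a) + (B (σ x) - σ (D x)) * σ (E (Fin.last m) a) := by
    intro σ hσ a
    have h1 := hom_der_ext σ hz
      (fun a => B (σ a) - σ (D a) - (B (σ x) - σ (D x)) * σ (E (Fin.last m) a))
      (fun a b => ?_) (fun c a => ?_) (fun a b => ?_) (fun i => ?_) a
    · linear_combination h1
    · rw [map_add, map_add, map_add, map_add, map_add, map_add]
      ring
    · rw [map_smul, B.map_smul, D.map_smul, map_smul, Derivation.map_smul, map_smul,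
        mul_smul_comm, smul_sub, smul_sub]
    · rw [map_mul, B.leibniz, D.leibniz, Derivation.leibniz]
      simp only [smul_eq_mul, map_add, map_mul]
      ring
    · rw [hE]
      refine Fin.lastCases ?_ (fun j => ?_) i
      · rw [if_pos rfl, map_one, mul_one, hzx, sub_self]
      · rw [if_neg (Fin.castSucc_lt_last j).ne', map_zero, mul_zero, hzt, hσu σ hσ, hBt,
          ← hDL, hσu σ hσ, sub_self, sub_zero]
  -- the divergence of the base field
  obtain ⟨lam, hlam⟩ : ∃ lam : L, (lam : K) = ∑ i : Fin m, E (Fin.castSucc i) (D (t i : K)) := by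
    refine ⟨⟨∑ i : Fin m, E (Fin.castSucc i) (D (t i : K)), sum_mem fun i _ => ?_⟩, rfl⟩
    have h1 := dual_mem L ht (E (Fin.castSucc i)) (fun j => ?_) (DL (t i))
    · exact h1
    · rw [← hzt, hE]
      split_ifs
      · exact one_mem L
      · exact zero_mem L
  have hdiv : ∑ i, E i (D (z i)) = (lam : K) + E (Fin.last m) (D x) := by
    rw [Fin.sum_univ_castSucc, hlam, hzx]
    congr 1
    exact Finset.sum_congr rfl fun i _ => by rw [hzt]
  refine ⟨B G - ∑ σ ∈ S, (c σ : Ω) * ((B (σ x) - σ (D x)) * σ g) + u lam * G, ?_⟩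
  have h1 : ∀ σ ∈ S, (c σ : Ω) * (σ (D g + g * ∑ i, E i (D (z i))) * δ (σ x)) =
      B ((c σ : Ω) * (σ g * δ (σ x))) - δ ((c σ : Ω) * ((B (σ x) - σ (D x)) * σ g)) +
        u lam * ((c σ : Ω) * (σ g * δ (σ x))) := by
    intro σ hσ
    have e1 : B ((c σ : Ω) * (σ g * δ (σ x))) = (c σ : Ω) * B (σ g * δ (σ x)) := by
      rw [B.leibniz, B.map_intCast, smul_zero, add_zero, smul_eq_mul]
    have e2 : δ ((c σ : Ω) * ((B (σ x) - σ (D x)) * σ g)) =
        (c σ : Ω) * δ ((B (σ x) - σ (D x)) * σ g) := by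
      rw [δ.leibniz, δ.map_intCast, smul_zero, add_zero, smul_eq_mul]
    rw [e1, e2, B.leibniz, δ.leibniz, hcomm, hBσ σ hσ g, hdiv, hδσ σ hσ g, map_sub,
      hδσ σ hσ (D x)]
    simp only [smul_eq_mul, map_add, map_mul]
    rw [hσu σ hσ]
    ring
  rw [Finset.sum_congr rfl h1, Finset.sum_add_distrib, Finset.sum_sub_distrib, ← map_sum,
    ← map_sum, ← Finset.mul_sum, hG, map_add, map_sub, hcomm, δ.leibniz, hδu, smul_zero, add_zero,
    smul_eq_mul]

theorem gm_exact (L : IntermediateField ℂ K) {t : Fin m → L} (ht : IsTranscendenceBasis ℂ t)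
    {x : K} {z : Fin (m + 1) → K} (hzt : ∀ i : Fin m, z (Fin.castSucc i) = (t i : K))
    (hzx : z (Fin.last m) = x)
    (hz : IsTranscendenceBasis ℂ z) {E : Fin (m + 1) → Derivation ℂ K K}
    (hE : ∀ i j, E i (z j) = if i = j then 1 else 0) (u : L →ₐ[ℂ] Ω) {w : Ω}
    {y : Fin (m + 1) → Ω} (hyt : ∀ i : Fin m, y (Fin.castSucc i) = u (t i))
    (hyw : y (Fin.last m) = w)
    (hy : IsTranscendenceBasis ℂ y) (δ : Derivation ℂ Ω Ω) (hδt : ∀ i, δ (u (t i)) = 0)
    (hδw : δ w = 1) (c : (K →ₐ[ℂ] Ω) →₀ ℤ) (S : Finset (K →ₐ[ℂ] Ω))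
    (hS : ∀ σ ∈ S, σ.comp L.val = u) {V : ((Fin (m + 1) → Derivation ℂ K K) → K) → Prop}
    (hV : ∀ ω, V ω → IsPluri 1 ω ∧ ∑ σ ∈ S, (c σ : Ω) * (σ (ω E) * δ (σ x)) = 0)
    {ω : (Fin (m + 1) → Derivation ℂ K K) → K} (hω : GMSpan L V ω) :
    IsPluri 1 ω ∧ ∃ G : Ω, ∑ σ ∈ S, (c σ : Ω) * (σ (ω E) * δ (σ x)) = δ G := by
  have hδu : ∀ l : L, δ (u l) = 0 := by
    intro l
    refine hom_der_ext u ht (fun l => δ (u l)) (fun a b => by rw [map_add, map_add])
      (fun c a => by rw [map_smul, δ.map_smul]) (fun a b => by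
        rw [map_mul, δ.leibniz, smul_eq_mul, smul_eq_mul]) (fun i => hδt i) l
  induction hω with
  | base h =>
    obtain ⟨h1, h2⟩ := hV _ h
    exact ⟨h1, 0, by rw [h2, map_zero]⟩
  | @add ω ω' _ _ h1 h2 =>
    obtain ⟨p1, G1, q1⟩ := h1
    obtain ⟨p2, G2, q2⟩ := h2
    refine ⟨?_, G1 + G2, ?_⟩
    · intro A X
      change ω _ + ω' _ = _ * (ω X + ω' X)
      rw [p1 A X, p2 A X]
      ring
    · rw [map_add, ← q1, ← q2, ← Finset.sum_add_distrib]
      refine Finset.sum_congr rfl fun σ _ => ?_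
      rw [map_add]
      ring
  | @mul l ω hl _ h1 =>
    obtain ⟨p1, G1, q1⟩ := h1
    refine ⟨?_, u ⟨l, hl⟩ * G1, ?_⟩
    · intro A X
      change l * ω _ = _ * (l * ω X)
      rw [p1 A X]
      ring
    · rw [δ.leibniz, hδu, smul_zero, add_zero, smul_eq_mul, ← q1, Finset.mul_sum]
      refine Finset.sum_congr rfl fun σ hσ => ?_
      have h2 : σ l = u ⟨l, hl⟩ := by
        rw [← hS σ hσ]
        rfl
      rw [map_mul, h2]
      ring
  | @lie D ω hD _ h1 =>
    obtain ⟨p1, G1, q1⟩ := h1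
    refine ⟨lieForm_pluri hz p1 D, ?_⟩
    obtain ⟨G', hG'⟩ := gm_step L ht hzt hzx hz hE u hyt hyw hy δ hδt hδw c S hS D hD (ω E) G1 q1
    refine ⟨G', ?_⟩
    rw [← hG', lieForm_dual hz hE p1 D]

end

end Pool.Agent.N162.BC
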