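import Pool.Agent.N162.BC.Forms

/-!
Lie derivatives of canonical forms.
-/

set_option autoImplicit false
set_option linter.overlappingInstances false
set_option linter.unusedSectionVars false
set_option linter.unusedDecidableInType false
set_option linter.unusedFintypeInType false
set_option linter.unusedVariables false
set_option maxHeartbeats 4000000
set_option synthInstance.maxHeartbeats 400000

open FF Polynomial Pool.Agent.W603.LV Pool.Agent.W602.GT

namespace Pool.Agent.N162.BC

section

variable {K : Type} [Field K] [Algebra ℂ K] {n : ℕ}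

theorem der_expand {z : Fin n → K} (hz : IsTranscendenceBasis ℂ z)
    {E : Fin n → Derivation ℂ K K} (hE : ∀ i j, E i (z j) = if i = j then 1 else 0)
    (D : Derivation ℂ K K) : D = ∑ k, D (z k) • E k := by
  refine Pool.Agent.W602.GT.der_ext z hz fun i => ?_
  have h2 : (∑ k, D (z k) • E k) (z i) = ∑ k, (D (z k) • E k) (z i) := by
    rw [← Derivation.coeFnAddMonoidHom_apply, map_sum, Finset.sum_apply]
    rfl
  rw [h2]
  have h3 : ∀ k, (D (z k) • E k) (z i) = if k = i then D (z k) else 0 := by
    intro k
    rw [Derivation.smul_apply, hE, smul_eq_mul]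
    split_ifs
    · rw [mul_one]
    · rw [mul_zero]
  rw [Finset.sum_congr rfl fun k _ => h3 k, Finset.sum_ite_eq' Finset.univ i,
    if_pos (Finset.mem_univ _)]

theorem der_expand_apply {z : Fin n → K} (hz : IsTranscendenceBasis ℂ z)
    {E : Fin n → Derivation ℂ K K} (hE : ∀ i j, E i (z j) = if i = j then 1 else 0)
    (D : Derivation ℂ K K) (a : K) : D a = ∑ k, D (z k) * E k a := by
  have h2 : (∑ k, D (z k) • E k) a = ∑ k, (D (z k) • E k) a := by
    rw [← Derivation.coeFnAddMonoidHom_apply, map_sum, Finset.sum_apply]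
    rfl
  conv_lhs => rw [der_expand hz hE D]
  rw [h2]
  rfl

theorem pluri_eq {z : Fin n → K} (hz : IsTranscendenceBasis ℂ z)
    {E : Fin n → Derivation ℂ K K} (hE : ∀ i j, E i (z j) = if i = j then 1 else 0)
    {ω : (Fin n → Derivation ℂ K K) → K} (hω : IsPluri 1 ω) (X : Fin n → Derivation ℂ K K) :
    ω X = stdForm z (ω E) X := by
  have h1 : X = fun i => ∑ j, (Matrix.of fun i j => X i (z j)) i j • E j := by
    funext i
    exact der_expand hz hE (X i)
  conv_lhs => rw [h1]
  rw [hω, pow_one]
  unfold stdForm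
  ring

theorem der_prod (D : Derivation ℂ K K) {ι : Type} [DecidableEq ι] (s : Finset ι) (f : ι → K) :
    D (∏ i ∈ s, f i) = ∑ i ∈ s, ∏ j ∈ s, Function.update f i (D (f i)) j := by
  induction s using Finset.induction_on with
  | empty => rw [Finset.prod_empty, Finset.sum_empty, D.map_one_eq_zero]
  | insert a s ha ih =>
    rw [Finset.prod_insert ha, D.leibniz, ih, Finset.sum_insert ha, Finset.prod_insert ha,
      Function.update_self, smul_eq_mul, smul_eq_mul, Finset.mul_sum, add_comm]
    congr 1
    · rw [mul_comm]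
      congr 1
      refine Finset.prod_congr rfl fun j hj => ?_
      rw [Function.update_of_ne]
      rintro rfl
      exact ha hj
    · refine Finset.sum_congr rfl fun i hi => ?_
      rw [Finset.prod_insert ha, Function.update_of_ne]
      rintro rfl
      exact ha hi

theorem det_deriv_col (D : Derivation ℂ K K) (M : Matrix (Fin n) (Fin n) K) :
    D M.det = ∑ i, (M.updateCol i (fun k => D (M k i))).det := by
  simp only [Matrix.det_apply']
  rw [map_sum, Finset.sum_comm]
  refine Finset.sum_congr rfl fun s _ => ?_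
  rw [D.leibniz, D.map_intCast, smul_zero, add_zero, smul_eq_mul, der_prod, Finset.mul_sum]
  refine Finset.sum_congr rfl fun i _ => ?_
  congr 1
  refine Finset.prod_congr rfl fun j _ => ?_
  rw [Matrix.updateCol_apply, Function.update_apply]
  split_ifs with h
  · rw [h]
  · rfl

theorem det_deriv (D : Derivation ℂ K K) (M : Matrix (Fin n) (Fin n) K) :
    D M.det = ∑ i, (M.updateRow i (fun j => D (M i j))).det := by
  rw [← Matrix.det_transpose, det_deriv_col]
  refine Finset.sum_congr rfl fun i _ => ?_
  rw [Matrix.updateCol_transpose, Matrix.det_transpose]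
  rfl

theorem sum_updateRow (M C : Matrix (Fin n) (Fin n) K) :
    ∑ i, (M.updateRow i ((M * C) i)).det = M.det * C.trace := by
  have h1 : ∀ i, (M.updateRow i ((M * C) i)).det = ∑ j, M.adjugate j i * (M * C) i j := by
    intro i
    rw [← Matrix.cramer_transpose_apply, Matrix.cramer_eq_adjugate_mulVec, Matrix.mulVec,
      dotProduct, ← Matrix.adjugate_transpose]
    rfl
  rw [Finset.sum_congr rfl fun i _ => h1 i, Finset.sum_comm]
  have h2 : ∑ j, ∑ i, M.adjugate j i * (M * C) i j = (M.adjugate * (M * C)).trace := by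
    unfold Matrix.trace
    refine Finset.sum_congr rfl fun j _ => ?_
    rw [Matrix.diag_apply, Matrix.mul_apply]
  rw [h2, ← Matrix.mul_assoc, Matrix.adjugate_mul, Matrix.smul_mul, Matrix.one_mul,
    Matrix.trace_smul, smul_eq_mul]

/-- the Lie derivative of `g dz_1 ∧ ... ∧ dz_n` -/
theorem lieForm_eq {z : Fin n → K} (hz : IsTranscendenceBasis ℂ z)
    {E : Fin n → Derivation ℂ K K} (hE : ∀ i j, E i (z j) = if i = j then 1 else 0)
    {ω : (Fin n → Derivation ℂ K K) → K} (hω : IsPluri 1 ω) (D : Derivation ℂ K K) :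
    lieForm D ω = stdForm z (D (ω E) + ω E * ∑ i, E i (D (z i))) := by
  funext X
  obtain ⟨M, hM⟩ : ∃ M : Matrix (Fin n) (Fin n) K, M = Matrix.of fun i j => X i (z j) :=
    ⟨_, rfl⟩
  have hMij : ∀ i j, M i j = X i (z j) := fun i j => by rw [hM]; rfl
  obtain ⟨C, hC⟩ : ∃ C : Matrix (Fin n) (Fin n) K, C = Matrix.of fun k j => E k (D (z j)) :=
    ⟨_, rfl⟩
  have hMC : ∀ i j, (M * C) i j = X i (D (z j)) := by
    intro i j
    rw [Matrix.mul_apply, der_expand_apply hz hE (X i) (D (z j))]
    refine Finset.sum_congr rfl fun k _ => ?_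
    rw [hMij, hC, Matrix.of_apply]
  have h1 : ω X = ω E * M.det := by
    rw [pluri_eq hz hE hω X, hM]
    rfl
  have h2 : ∀ i, ω (Function.update X i ⁅D, X i⁆) = ω E *
      ((M.updateRow i (fun j => D (M i j))).det - (M.updateRow i ((M * C) i)).det) := by
    intro i
    rw [pluri_eq hz hE hω]
    unfold stdForm
    have h3 : (Matrix.of fun a j => Function.update X i ⁅D, X i⁆ a (z j)) =
        M.updateRow i ((fun j => D (M i j)) + -((M * C) i)) := by
      ext a j
      rw [Matrix.of_apply, Matrix.updateRow_apply]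
      split_ifs with h
      · subst h
        rw [Function.update_self, Derivation.commutator_apply, Pi.add_apply, Pi.neg_apply, hMij,
          hMC]
        ring
      · rw [Function.update_of_ne h, hMij]
    rw [h3, Matrix.det_updateRow_add, ← neg_one_smul K, Matrix.det_updateRow_smul]
    ring
  unfold lieForm
  rw [h1, Finset.sum_congr rfl fun i _ => h2 i, ← Finset.mul_sum, Finset.sum_sub_distrib,
    ← det_deriv, sum_updateRow, D.leibniz, smul_eq_mul, smul_eq_mul]
  unfold stdForm
  rw [← hM]
  have h4 : C.trace = ∑ i, E i (D (z i)) := by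
    unfold Matrix.trace
    refine Finset.sum_congr rfl fun i _ => ?_
    rw [Matrix.diag_apply, hC, Matrix.of_apply]
  rw [h4]
  ring

theorem lieForm_pluri {z : Fin n → K} (hz : IsTranscendenceBasis ℂ z)
    {ω : (Fin n → Derivation ℂ K K) → K} (hω : IsPluri 1 ω) (D : Derivation ℂ K K) :
    IsPluri 1 (lieForm D ω) := by
  choose E hE using fun i : Fin n => Pool.Agent.W602.GT.exists_der z hz
    fun j => if i = j then (1 : K) else 0
  rw [lieForm_eq hz hE hω D]
  exact stdForm_pluri _ _

theorem lieForm_dual {z : Fin n → K} (hz : IsTranscendenceBasis ℂ z)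
    {E : Fin n → Derivation ℂ K K} (hE : ∀ i j, E i (z j) = if i = j then 1 else 0)
    {ω : (Fin n → Derivation ℂ K K) → K} (hω : IsPluri 1 ω) (D : Derivation ℂ K K) :
    lieForm D ω E = D (ω E) + ω E * ∑ i, E i (D (z i)) := by
  rw [lieForm_eq hz hE hω D, stdForm_dual z _ hE]

end

/-- a derivation with values in an extension vanishes if it vanishes on a transcendence basis -/
theorem hom_der_ext {A B : Type} [Field A] [Field B] [Algebra ℂ A] [Algebra ℂ B]
    (f : A →ₐ[ℂ] B) {ι : Type} {z : ι → A} (hz : IsTranscendenceBasis ℂ z) (Φ : A → B)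
    (hadd : ∀ a b, Φ (a + b) = Φ a + Φ b) (hsmul : ∀ (c : ℂ) a, Φ (c • a) = c • Φ a)
    (hmul : ∀ a b, Φ (a * b) = f a * Φ b + f b * Φ a) (h0 : ∀ i, Φ (z i) = 0) (a : A) :
    Φ a = 0 := by
  let _ : Algebra A B := f.toRingHom.toAlgebra
  have hst : IsScalarTower ℂ A B := IsScalarTower.of_algebraMap_eq fun z => (f.commutes z).symm
  have hsm : ∀ (b : A) (c : B), b • c = f b * c := fun b c => Algebra.smul_def b c
  let E : Derivation ℂ A B := Derivation.mk'
    { toFun := Φ
      map_add' := hadd
      map_smul' := hsmul }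
    (fun y z => by
      change Φ (y * z) = y • Φ z + z • Φ y
      rw [hmul, hsm, hsm])
  have h1 : E = 0 := by
    refine derv_eq_zero E (Set.range z) hz.isAlgebraic_field ?_
    rintro _ ⟨i, rfl⟩
    exact h0 i
  have h2 : E a = 0 := by
    rw [h1]
    rfl
  exact h2

end Pool.Agent.N162.BC
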