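import Pool.Agent.W619.PQ.Genus
import Pool.Agent.W602.GT.Defs
import Pool.Agent.W602.GT.Der

/-!
Local rings of a curve which is obtained by an extension of an algebraically closed constant field.
-/

set_option autoImplicit false
set_option linter.overlappingInstances false
set_option linter.unusedSectionVars false
set_option linter.unusedDecidableInType false
set_option maxHeartbeats 4000000
set_option synthInstance.maxHeartbeats 400000

open FF Polynomial Pool.Agent.W603.LV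

namespace Pool.Agent.N162.BC

section general

variable {Ω M : Type} [Field Ω] [Field M] [Algebra Ω M]

/-- `P` is the only zero of ... : every regular element is a quotient of elements of `B`. -/
theorem loc_step (P : Place Ω M) (B : Subalgebra Ω M) (hB : ∀ b ∈ B, Ge P 0 b) {π : M}
    (hπB : π ∈ B) (hπ : 0 < P.ord π)
    (hdiv : ∀ b ∈ B, Ge P 1 b → ∃ s ∈ B, ∃ s' ∈ B, s' ≠ 0 ∧ P.ord s' = 0 ∧ b * s' = π * s) :
    ∀ (n : ℕ) (b : M), b ∈ B → b ≠ 0 → P.ord b ≤ n →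
      ∃ (m : ℕ), ∃ s ∈ B, ∃ s' ∈ B, s ≠ 0 ∧ s' ≠ 0 ∧ P.ord s = 0 ∧ P.ord s' = 0 ∧
        b * s' = π ^ m * s := by
  have hπ0 : π ≠ 0 := by
    rintro rfl
    rw [P.ord_zero] at hπ
    exact lt_irrefl _ hπ
  intro n
  induction n with
  | zero =>
    intro b hb hb0 hn
    have h1 := (hB b hb).resolve_left hb0
    refine ⟨0, b, hb, 1, one_mem _, hb0, one_ne_zero, ?_, P.ord_one, by ring⟩
    push_cast at hn
    omega
  | succ n ih =>
    intro b hb hb0 hn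
    have h1 := (hB b hb).resolve_left hb0
    by_cases h2 : P.ord b = 0
    · exact ⟨0, b, hb, 1, one_mem _, hb0, one_ne_zero, h2, P.ord_one, by ring⟩
    obtain ⟨s, hs, s', hs', hs'0, hs'1, hbs⟩ := hdiv b hb (Or.inr (by omega))
    have hs0 : s ≠ 0 := by
      rintro rfl
      rw [mul_zero] at hbs
      rcases mul_eq_zero.1 hbs with h | h
      · exact hb0 h
      · exact hs'0 h
    have h3 := congrArg P.ord hbs
    rw [P.ord_mul hb0 hs'0, P.ord_mul hπ0 hs0, hs'1, add_zero] at h3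
    obtain ⟨m, t, ht, t', ht', ht0, ht'0, ht1, ht'1, hst⟩ := ih s hs hs0 (by
      push_cast at hn
      omega)
    refine ⟨m + 1, t, ht, s' * t', mul_mem hs' ht', ht0, mul_ne_zero hs'0 ht'0, ht1, ?_, ?_⟩
    · rw [P.ord_mul hs'0 ht'0, hs'1, ht'1, add_zero]
    · rw [← mul_assoc, hbs, mul_assoc, hst]
      ring

/-- the element `π` is a uniformizer -/
theorem loc_unif (P : Place Ω M) (B : Subalgebra Ω M) (hB : ∀ b ∈ B, Ge P 0 b) {π : M}
    (hπB : π ∈ B) (hπ : 0 < P.ord π)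
    (hdiv : ∀ b ∈ B, Ge P 1 b → ∃ s ∈ B, ∃ s' ∈ B, s' ≠ 0 ∧ P.ord s' = 0 ∧ b * s' = π * s)
    (hfr : ∀ f : M, ∃ a ∈ B, ∃ b ∈ B, b ≠ 0 ∧ f * b = a) : P.ord π = 1 := by
  obtain ⟨t, ht0, ht⟩ := P.surj
  have hπ0 : π ≠ 0 := by
    rintro rfl
    rw [P.ord_zero] at hπ
    exact lt_irrefl _ hπ
  have key : ∀ b ∈ B, b ≠ 0 → P.ord π ∣ P.ord b := by
    intro b hb hb0
    have h1 := (hB b hb).resolve_left hb0
    obtain ⟨m, s, -, s', -, hs0, hs'0, hs1, hs'1, h⟩ := loc_step P B hB hπB hπ hdiv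
      (P.ord b).toNat b hb hb0 (by omega)
    have h3 := congrArg P.ord h
    rw [P.ord_mul hb0 hs'0, P.ord_mul (pow_ne_zero _ hπ0) hs0, hs1, hs'1, P.ord_pow, add_zero,
      add_zero] at h3
    rw [h3]
    exact Dvd.intro_left _ rfl
  obtain ⟨a, ha, b, hb, hb0, hab⟩ := hfr t
  have ha0 : a ≠ 0 := by
    rw [← hab]
    exact mul_ne_zero ht0 hb0
  have h1 := congrArg P.ord hab
  rw [P.ord_mul ht0 hb0, ht] at h1
  have h2 := key a ha ha0
  have h3 := key b hb hb0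
  have h4 : P.ord π ∣ 1 := by
    have h5 := dvd_sub h2 h3
    rw [← h1] at h5
    simpa using h5
  exact Int.eq_one_of_dvd_one hπ.le h4

/-- the local ring is a localization of `B` -/
theorem loc_frac (P : Place Ω M) (B : Subalgebra Ω M) (hB : ∀ b ∈ B, Ge P 0 b) {π : M}
    (hπB : π ∈ B) (hπ : 0 < P.ord π)
    (hdiv : ∀ b ∈ B, Ge P 1 b → ∃ s ∈ B, ∃ s' ∈ B, s' ≠ 0 ∧ P.ord s' = 0 ∧ b * s' = π * s)
    (hfr : ∀ f : M, ∃ a ∈ B, ∃ b ∈ B, b ≠ 0 ∧ f * b = a) {f : M} (hf : Ge P 0 f) :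
    ∃ s ∈ B, ∃ s' ∈ B, s' ≠ 0 ∧ P.ord s' = 0 ∧ f * s' = s := by
  have hu := loc_unif P B hB hπB hπ hdiv hfr
  have hπ0 : π ≠ 0 := by
    rintro rfl
    rw [P.ord_zero] at hπ
    exact lt_irrefl _ hπ
  by_cases hf0 : f = 0
  · exact ⟨0, zero_mem _, 1, one_mem _, one_ne_zero, P.ord_one, by rw [hf0]; ring⟩
  have hf1 := hf.resolve_left hf0
  obtain ⟨a, ha, b, hb, hb0, hab⟩ := hfr f
  have ha0 : a ≠ 0 := by
    rw [← hab]
    exact mul_ne_zero hf0 hb0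
  obtain ⟨m, s, hs, s', hs', hs0, hs'0, hs1, hs'1, h⟩ := loc_step P B hB hπB hπ hdiv
    (P.ord a).toNat a ha ha0 (by have := (hB a ha).resolve_left ha0; omega)
  obtain ⟨k, t, ht, t', ht', ht0, ht'0, ht1, ht'1, h'⟩ := loc_step P B hB hπB hπ hdiv
    (P.ord b).toNat b hb hb0 (by have := (hB b hb).resolve_left hb0; omega)
  have h1 := congrArg P.ord h
  rw [P.ord_mul ha0 hs'0, P.ord_mul (pow_ne_zero _ hπ0) hs0, hs1, hs'1, P.ord_pow, hu] at h1
  have h2 := congrArg P.ord h'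
  rw [P.ord_mul hb0 ht'0, P.ord_mul (pow_ne_zero _ hπ0) ht0, ht1, ht'1, P.ord_pow, hu] at h2
  have h3 := congrArg P.ord hab
  rw [P.ord_mul hf0 hb0] at h3
  obtain ⟨j, hj⟩ : ∃ j, m = k + j := Nat.exists_eq_add_of_le (by omega)
  refine ⟨π ^ j * s * t', mul_mem (mul_mem (pow_mem hπB _) hs) ht', s' * t, mul_mem hs' ht,
    mul_ne_zero hs'0 ht0, ?_, ?_⟩
  · rw [P.ord_mul hs'0 ht0, hs'1, ht1, add_zero]
  · apply mul_left_cancel₀ (pow_ne_zero k hπ0)
    have e1 : π ^ k * (f * (s' * t)) = f * s' * (π ^ k * t) := by ring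
    rw [e1, ← h']
    have e2 : f * s' * (b * t') = (f * b) * s' * t' := by ring
    rw [e2, hab, h, hj]
    ring

/-- derivations preserve the local ring -/
theorem loc_der {F : Type} [Field F] [Algebra F M] (P : Place Ω M) (B : Subalgebra Ω M)
    (hB : ∀ b ∈ B, Ge P 0 b) {π : M}
    (hπB : π ∈ B) (hπ : 0 < P.ord π)
    (hdiv : ∀ b ∈ B, Ge P 1 b → ∃ s ∈ B, ∃ s' ∈ B, s' ≠ 0 ∧ P.ord s' = 0 ∧ b * s' = π * s)
    (hfr : ∀ f : M, ∃ a ∈ B, ∃ b ∈ B, b ≠ 0 ∧ f * b = a)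
    (D : Derivation F M M) (hD : ∀ b ∈ B, D b ∈ B) {f : M} (hf : Ge P 0 f) : Ge P 0 (D f) := by
  obtain ⟨s, hs, s', hs', hs'0, hs'1, h⟩ := loc_frac P B hB hπB hπ hdiv hfr hf
  have h1 := congrArg D h
  rw [D.leibniz, smul_eq_mul, smul_eq_mul] at h1
  have h2 : s' * D f = D s - f * D s' := by rw [← h1]; ring
  refine Ge.of_mul' hs'0 hs'1 ?_
  rw [h2, add_zero]
  have h3 := hf.mul (hB _ (hD _ hs'))
  rw [add_zero] at h3
  exact (hB _ (hD _ hs)).sub h3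

/-- division by `π` for linear combinations, if it works for generators -/
theorem div_span (P : Place Ω M) (B : Subalgebra Ω M)
    {π : M} (hπ : 0 < P.ord π) (G : Set M) (hGB : ∀ e ∈ G, e ∈ B)
    (hB : ∀ b ∈ B, Ge P 0 b)
    (hG : ∀ e ∈ G, ∃ c : Ω, ∃ s ∈ B, ∃ s' ∈ B, s' ≠ 0 ∧ P.ord s' = 0 ∧
      (e - algebraMap Ω M c) * s' = π * s) {b : M} (hb : b ∈ Submodule.span Ω G) :
    ∃ c : Ω, ∃ s ∈ B, ∃ s' ∈ B, s' ≠ 0 ∧ P.ord s' = 0 ∧
      (b - algebraMap Ω M c) * s' = π * s := by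
  induction hb using Submodule.span_induction with
  | mem e he => exact hG e he
  | zero => exact ⟨0, 0, zero_mem _, 1, one_mem _, one_ne_zero, P.ord_one, by simp⟩
  | add a b _ _ ha hb =>
    obtain ⟨c, s, hs, s', hs', hs'0, hs'1, h⟩ := ha
    obtain ⟨d, t, ht, t', ht', ht'0, ht'1, h'⟩ := hb
    refine ⟨c + d, s * t' + t * s', add_mem (mul_mem hs ht') (mul_mem ht hs'), s' * t',
      mul_mem hs' ht', mul_ne_zero hs'0 ht'0, ?_, ?_⟩
    · rw [P.ord_mul hs'0 ht'0, hs'1, ht'1, add_zero]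
    · rw [map_add]
      linear_combination t' * h + s' * h'
  | smul r a _ ha =>
    obtain ⟨c, s, hs, s', hs', hs'0, hs'1, h⟩ := ha
    refine ⟨r * c, algebraMap Ω M r * s, mul_mem (B.algebraMap_mem r) hs, s', hs', hs'0, hs'1, ?_⟩
    rw [Algebra.smul_def, map_mul]
    linear_combination algebraMap Ω M r * h

theorem div_of_span (P : Place Ω M) (B : Subalgebra Ω M)
    {π : M} (hπ : 0 < P.ord π) (G : Set M) (hGB : ∀ e ∈ G, e ∈ B)
    (hB : ∀ b ∈ B, Ge P 0 b) (hBs : ∀ b ∈ B, b ∈ Submodule.span Ω G)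
    (hG : ∀ e ∈ G, ∃ c : Ω, ∃ s ∈ B, ∃ s' ∈ B, s' ≠ 0 ∧ P.ord s' = 0 ∧
      (e - algebraMap Ω M c) * s' = π * s) :
    ∀ b ∈ B, Ge P 1 b → ∃ s ∈ B, ∃ s' ∈ B, s' ≠ 0 ∧ P.ord s' = 0 ∧ b * s' = π * s := by
  intro b hb hb1
  obtain ⟨c, s, hs, s', hs', hs'0, hs'1, h⟩ := div_span P B hπ G hGB hB hG (hBs b hb)
  have h1 : Ge P 1 (b - algebraMap Ω M c) := by
    refine Ge.of_mul' (h := s') (m := 0) hs'0 hs'1 ?_
    rw [mul_comm, h, add_zero]
    have h2 : Ge P 1 π := Or.inr (by omega)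
    have h3 := h2.mul (hB s hs)
    rwa [add_zero] at h3
  have h2 : Ge P 1 (algebraMap Ω M c) := by
    have h3 := hb1.sub h1
    rwa [sub_sub_cancel] at h3
  have h3 : c = 0 := by
    by_contra hc
    rcases h2 with h4 | h4
    · exact hc (by simpa using h4)
    · rw [P.ord_const hc] at h4
      omega
  rw [h3, map_zero, sub_zero] at h
  exact ⟨s, hs, s', hs', hs'0, hs'1, h⟩

end general

end Pool.Agent.N162.BC
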