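import Pool.Agent.N162.BC.Model

/-!
The local rings of the compositum at the places which are trivial on `K`, and at the others.
-/

set_option autoImplicit false
set_option linter.overlappingInstances false
set_option linter.unusedSectionVars false
set_option linter.unusedDecidableInType false
set_option linter.unusedVariables false
set_option maxHeartbeats 4000000
set_option synthInstance.maxHeartbeats 400000

open FF Polynomial Pool.Agent.W603.LV

namespace Pool.Agent.N162.BC

section

variable {F A A' : Type} [CommRing F] [CommRing A] [Algebra F A] [CommRing A'] [Algebra F A']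

/-- evaluation of a polynomial in two variables -/
noncomputable def ev2 (a b : A) (G : F[X][X]) : A :=
  eval₂ ((aeval a : F[X] →ₐ[F] A) : F[X] →+* A) b G

theorem ev2_hom (φ : A →+* A') (hφ : ∀ c : F, φ (algebraMap F A c) = algebraMap F A' c)
    (a b : A) (G : F[X][X]) : φ (ev2 a b G) = ev2 (φ a) (φ b) G := by
  unfold ev2
  rw [hom_eval₂]
  congr 1
  ext c
  · simp [hφ]
  · simp

theorem ev2_sub (a a' b b' : A) (G : F[X][X]) : ∃ s k : A,
    ev2 a' b' G - ev2 a b G = (a' - a) * s + (b' - b) * (ev2 a b (derivative G) + k * (b' - b)) := by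
  have h1 : ∃ s, ev2 a' b' G - ev2 a b' G = (a' - a) * s := by
    induction G using Polynomial.induction_on' with
    | add p q hp hq =>
      obtain ⟨s, hs⟩ := hp
      obtain ⟨t, ht⟩ := hq
      refine ⟨s + t, ?_⟩
      unfold ev2 at *
      rw [eval₂_add, eval₂_add]
      linear_combination hs + ht
    | monomial n g =>
      obtain ⟨s, hs⟩ := sub_dvd_eval_sub a' a (g.map (algebraMap F A))
      refine ⟨s * b' ^ n, ?_⟩
      unfold ev2
      rw [eval₂_monomial, eval₂_monomial]
      have e1 : ∀ z : A, ((aeval z : F[X] →ₐ[F] A) : F[X] →+* A) g =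
          (g.map (algebraMap F A)).eval z := fun z => by
        rw [eval_map_algebraMap]
        rfl
      rw [e1, e1, ← sub_mul, hs]
      ring
  obtain ⟨s, hs⟩ := h1
  obtain ⟨k, hk⟩ := binomExpansion (G.map ((aeval a : F[X] →ₐ[F] A) : F[X] →+* A)) b (b' - b)
  refine ⟨s, k, ?_⟩
  rw [add_sub_cancel, derivative_map, eval_map, eval_map, eval_map] at hk
  have hk' : ev2 a b' G = ev2 a b G + ev2 a b (derivative G) * (b' - b) + k * (b' - b) ^ 2 := hk
  linear_combination hs + hk'

end

section

variable {F K Ω M : Type} [Field F] [Field K] [Field Ω] [Field M]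
  [Algebra F K] [Algebra F Ω] [Algebra Ω M] [Algebra K M] [Algebra F M] [IsScalarTower F Ω M]
  [IsScalarTower F K M] [CharZero Ω] [IsAlgClosed Ω] [IsFF Ω M]
  [CharZero F] [IsAlgClosed F] [IsFF F K]

theorem gen_div {P : Place Ω M} {σ : K →ₐ[F] Ω} (h : Cen P σ) {x : K} (hx : Transcendental F x)
    (hπ : 0 < P.ord (algebraMap K M x - algebraMap Ω M (σ x))) :
    ∀ b ∈ BR Ω M (⊤ : Subring K), Ge P 1 b →
      ∃ s ∈ BR Ω M (⊤ : Subring K), ∃ s' ∈ BR Ω M (⊤ : Subring K), s' ≠ 0 ∧ P.ord s' = 0 ∧
        b * s' = (algebraMap K M x - algebraMap Ω M (σ x)) * s := by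
  have hB : ∀ b ∈ BR Ω M (⊤ : Subring K), Ge P 0 b := BR_reg P fun r _ => h.gen.reg r
  refine div_of_span P _ hπ (algebraMap K M '' ((⊤ : Subring K) : Set K)) ?_ hB
    (fun b hb => BR_span hb) ?_
  · rintro _ ⟨r, hr, rfl⟩
    exact mem_BR hr
  · rintro _ ⟨e, -, rfl⟩
    obtain ⟨G, hG, hG'⟩ := exists_poly hx e
    obtain ⟨B, hBdef⟩ : ∃ B, B = BR Ω M (⊤ : Subring K) := ⟨_, rfl⟩
    have hKB : ∀ r : K, algebraMap K M r ∈ B := fun r => by
      rw [hBdef]
      exact mem_BR trivial
    have hΩB : ∀ r : Ω, algebraMap Ω M r ∈ B := fun r => B.algebraMap_mem r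
    obtain ⟨s, k, hsk⟩ := ev2_sub (F := F) (A := B) ⟨_, hΩB (σ x)⟩ ⟨_, hKB x⟩ ⟨_, hΩB (σ e)⟩
      ⟨_, hKB e⟩ G
    have hBM : ∀ (a b : B) (H : F[X][X]), ((ev2 a b H : B) : M) = ev2 (a : M) (b : M) H :=
      fun a b H => ev2_hom (F := F) (B.val : B →+* M) (fun c => rfl) a b H
    have hΩM : ∀ (a b : Ω) (H : F[X][X]), algebraMap Ω M (ev2 a b H) =
        ev2 (algebraMap Ω M a) (algebraMap Ω M b) H :=
      fun a b H => ev2_hom (algebraMap Ω M) (fun c => (IsScalarTower.algebraMap_apply F Ω M c).symm)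
        a b H
    have hKM : ∀ (a b : K) (H : F[X][X]), algebraMap K M (ev2 a b H) =
        ev2 (algebraMap K M a) (algebraMap K M b) H :=
      fun a b H => ev2_hom (algebraMap K M) (fun c => (IsScalarTower.algebraMap_apply F K M c).symm)
        a b H
    have hKΩ : ∀ (a b : K) (H : F[X][X]), σ (ev2 a b H) = ev2 (σ a) (σ b) H :=
      fun a b H => ev2_hom (σ : K →+* Ω) (fun c => σ.commutes c) a b H
    have hsk' := congrArg (Subtype.val : B → M) hsk
    have hG0 : ev2 x e G = 0 := hG
    have hG1 : ev2 x e (derivative G) ≠ 0 := hG'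
    simp only [Subalgebra.coe_add, Subalgebra.coe_sub, Subalgebra.coe_mul, hBM] at hsk'
    rw [← hKM, ← hΩM, ← hΩM, ← hKΩ, ← hKΩ, hG0, map_zero, map_zero, map_zero, sub_zero] at hsk'
    obtain ⟨γ, hγ⟩ : ∃ γ, γ = σ (ev2 x e (derivative G)) := ⟨_, rfl⟩
    have hγ0 : γ ≠ 0 := by
      rw [hγ]
      simpa using hG1
    rw [← hγ] at hsk'
    obtain ⟨v, hv⟩ : ∃ v, v = algebraMap Ω M γ +
      (k : M) * (algebraMap K M e - algebraMap Ω M (σ e)) := ⟨_, rfl⟩
    have hk1 : Ge P 1 ((k : M) * (algebraMap K M e - algebraMap Ω M (σ e))) := by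
      have h1 := (hB k (by rw [← hBdef]; exact k.2)).mul (h e)
      rwa [zero_add] at h1
    have hv0 : v ≠ 0 ∧ P.ord v = 0 := by
      by_cases h0 : (k : M) * (algebraMap K M e - algebraMap Ω M (σ e)) = 0
      · rw [hv, h0, add_zero]
        exact ⟨by simpa using hγ0, P.ord_const hγ0⟩
      · have h2 := hk1.resolve_left h0
        have h3 := P.ord_add_eq (f := algebraMap Ω M γ) (by simpa using hγ0) h0
          (by rw [P.ord_const hγ0]; omega)
        rw [hv]
        rw [P.ord_const hγ0] at h3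
        exact h3
    refine ⟨σ e, -(s : M), ?_, v, ?_, hv0.1, hv0.2, ?_⟩
    · rw [← hBdef]
      exact neg_mem s.2
    · rw [hv, ← hBdef]
      exact add_mem (hΩB γ) (mul_mem k.2 (sub_mem (hKB e) (hΩB _)))
    · rw [hv]
      linear_combination -hsk'

variable (hM : ∀ f : M, ∃ a ∈ BR Ω M (⊤ : Subring K), ∃ b ∈ BR Ω M (⊤ : Subring K),
  b ≠ 0 ∧ f * b = a)

include hM

theorem gen_pos {P : Place Ω M} {σ : K →ₐ[F] Ω} (h : Cen P σ) {x : K} (hx : Transcendental F x) :
    0 < P.ord (algebraMap K M x - algebraMap Ω M (σ x)) := by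
  rcases h x with h1 | h1
  · exfalso
    -- then every element of `K` is algebraic over ... : use another point
    have h2 : ∀ b ∈ BR Ω M (⊤ : Subring K), IsAlgebraic Ω b := by
      intro b hb
      unfold BR at hb
      induction hb using Algebra.adjoin_induction with
      | mem z hz =>
        obtain ⟨e, -, rfl⟩ := hz
        obtain ⟨G, hG, hG'⟩ := exists_poly hx e
        have hG0 : ev2 x e G = 0 := hG
        have hGne : G ≠ 0 := by
          rintro rfl
          exact hG' (by simp)
        have hinj : Function.Injective (aeval (σ x) : F[X] →ₐ[F] Ω) :=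
          transcendental_iff_injective.1 (fun hal => hx ((isAlgebraic_algHom_iff σ σ.injective).1 hal))
        refine ⟨G.map ((aeval (σ x) : F[X] →ₐ[F] Ω) : F[X] →+* Ω), ?_, ?_⟩
        · intro h0
          exact hGne ((Polynomial.map_eq_zero_iff
            (f := ((aeval (σ x) : F[X] →ₐ[F] Ω) : F[X] →+* Ω)) hinj).1 h0)
        · have h3 := congrArg (algebraMap K M) hG0
          rw [ev2_hom (algebraMap K M) (fun c => (IsScalarTower.algebraMap_apply F K M c).symm),
            map_zero] at h3
          rw [← h3, sub_eq_zero.1 h1]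
          unfold ev2
          rw [aeval_def, eval₂_map]
          congr 1
          ext c
          · simp only [RingHom.comp_apply, RingHom.coe_coe, aeval_C]
            exact (IsScalarTower.algebraMap_apply F Ω M c).symm
          · simp
      | algebraMap r => exact isAlgebraic_algebraMap r
      | add a b _ _ ha hb => exact ha.add hb
      | mul a b _ _ ha hb => exact ha.mul hb
    obtain ⟨t, ht⟩ := IsFF.exists_transcendental (k := Ω) (K := M)
    obtain ⟨a, ha, b, hb, hb0, hab⟩ := hM t
    apply ht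
    have h3 : t = a * b⁻¹ := by
      rw [← hab]
      field_simp
    rw [h3]
    exact (h2 a ha).mul (h2 b hb).inv
  · omega

/-- at a point which is not a constant point, `x` minus its value is a uniformizer -/
theorem gen_unif {P : Place Ω M} {σ : K →ₐ[F] Ω} (h : Cen P σ) {x : K} (hx : Transcendental F x) :
    P.ord (algebraMap K M x - algebraMap Ω M (σ x)) = 1 :=
  loc_unif P _ (BR_reg P fun r _ => h.gen.reg r)
    (sub_mem (mem_BR (R := ⊤) (Subring.mem_top _)) (Subalgebra.algebraMap_mem _ _)) (gen_pos hM h hx)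
    (gen_div h hx (gen_pos hM h hx)) hM

theorem gen_frac {P : Place Ω M} {σ : K →ₐ[F] Ω} (h : Cen P σ) {f : M} (hf : Ge P 0 f) :
    ∃ s ∈ BR Ω M (⊤ : Subring K), ∃ s' ∈ BR Ω M (⊤ : Subring K),
      s' ≠ 0 ∧ P.ord s' = 0 ∧ f * s' = s := by
  obtain ⟨x, hx⟩ := IsFF.exists_transcendental (k := F) (K := K)
  exact loc_frac P _ (BR_reg P fun r _ => h.gen.reg r)
    (sub_mem (mem_BR (R := ⊤) (Subring.mem_top _)) (Subalgebra.algebraMap_mem _ _)) (gen_pos hM h hx)
    (gen_div h hx (gen_pos hM h hx)) hM hf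

theorem gen_der {P : Place Ω M} {σ : K →ₐ[F] Ω} (h : Cen P σ) (D : Derivation F M M)
    (hK : ∀ e : K, D (algebraMap K M e) = 0)
    (hΩ : ∀ a : Ω, ∃ b : Ω, D (algebraMap Ω M a) = algebraMap Ω M b) {f : M} (hf : Ge P 0 f) :
    Ge P 0 (D f) := by
  obtain ⟨x, hx⟩ := IsFF.exists_transcendental (k := F) (K := K)
  exact loc_der P _ (BR_reg P fun r _ => h.gen.reg r)
    (sub_mem (mem_BR (R := ⊤) (Subring.mem_top _)) (Subalgebra.algebraMap_mem _ _)) (gen_pos hM h hx)
    (gen_div h hx (gen_pos hM h hx)) hM D (BR_der D hK hΩ _) hf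

theorem gen_unique {P Q : Place Ω M} {σ : K →ₐ[F] Ω} (h : Cen P σ) (h' : Cen Q σ) : P = Q := by
  have hval : ∀ b ∈ BR Ω M (⊤ : Subring K), ∃ c : Ω, Ge P 1 (b - algebraMap Ω M c) ∧
      Ge Q 1 (b - algebraMap Ω M c) := by
    intro b hb
    have h1 := BR_span hb
    induction h1 using Submodule.span_induction with
    | mem z hz =>
      obtain ⟨e, -, rfl⟩ := hz
      exact ⟨σ e, h e, h' e⟩
    | zero => exact ⟨0, by simpa using Ge.zero, by simpa using Ge.zero⟩
    | add a b ha hb' ha' hb'' =>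
      have hmem : ∀ z ∈ Submodule.span Ω (algebraMap K M '' ((⊤ : Subring K) : Set K)),
          z ∈ BR Ω M (⊤ : Subring K) := by
        intro z hz
        have h2 : Submodule.span Ω (algebraMap K M '' ((⊤ : Subring K) : Set K)) ≤
            Subalgebra.toSubmodule (BR Ω M (⊤ : Subring K)) := by
          rw [Submodule.span_le]
          rintro _ ⟨e, he, rfl⟩
          exact mem_BR he
        exact h2 hz
      obtain ⟨c, h1, h2⟩ := ha' (hmem _ ha)
      obtain ⟨d, h3, h4⟩ := hb'' (hmem _ hb')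
      refine ⟨c + d, ?_, ?_⟩
      · rw [map_add, add_sub_add_comm]
        exact h1.add h3
      · rw [map_add, add_sub_add_comm]
        exact h2.add h4
    | smul r a ha ha' =>
      have hmem : a ∈ BR Ω M (⊤ : Subring K) := by
        have h2 : Submodule.span Ω (algebraMap K M '' ((⊤ : Subring K) : Set K)) ≤
            Subalgebra.toSubmodule (BR Ω M (⊤ : Subring K)) := by
          rw [Submodule.span_le]
          rintro _ ⟨e, he, rfl⟩
          exact mem_BR he
        exact h2 ha
      obtain ⟨c, h1, h2⟩ := ha' hmem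
      refine ⟨r * c, ?_, ?_⟩
      · rw [Algebra.smul_def, map_mul, ← mul_sub]
        have := (Ge.const (P := P) r).mul h1
        rwa [zero_add] at this
      · rw [Algebra.smul_def, map_mul, ← mul_sub]
        have := (Ge.const (P := Q) r).mul h2
        rwa [zero_add] at this
  refine Place.eq_of_le P Q fun f hf0 hf => ?_
  obtain ⟨s, hs, s', hs', hs'0, hs'1, hfs⟩ := gen_frac hM h (f := f) (Or.inr hf)
  obtain ⟨c, h1, h2⟩ := hval s' hs'
  have hc : c ≠ 0 := by
    rintro rfl
    rw [map_zero, sub_zero] at h1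
    have h3 := h1.resolve_left hs'0
    omega
  have hQ : Q.ord s' = 0 := by
    by_cases h0 : s' - algebraMap Ω M c = 0
    · rw [sub_eq_zero.1 h0]
      exact Q.ord_const hc
    · have h3 := h2.resolve_left h0
      have h4 := Q.ord_add_eq (f := algebraMap Ω M c) (by simpa using hc) h0
        (by rw [Q.ord_const hc]; omega)
      rw [add_sub_cancel, Q.ord_const hc] at h4
      exact h4.2
  have h3 : Ge Q 0 s := BR_reg Q (fun r _ => h'.gen.reg r) s hs
  have h4 : Ge Q 0 f := by
    refine Ge.of_mul' (h := s') (m := 0) hs'0 hQ ?_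
    rw [mul_comm, hfs, add_zero]
    exact h3
  exact h4.resolve_left hf0

end

end Pool.Agent.N162.BC
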