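import Pool.Agent.N162.BC.Local

/-!
The places of the compositum which are not trivial on `K`.
-/

set_option autoImplicit false
set_option linter.overlappingInstances false
set_option linter.unusedSectionVars false
set_option linter.unusedDecidableInType false
set_option linter.unusedVariables false
set_option maxHeartbeats 4000000
set_option synthInstance.maxHeartbeats 400000

open FF Polynomial Pool.Agent.W603.LV

namespace Pool.Agent.N162.BC

section

variable {F K Ω M : Type} [Field F] [Field K] [Field Ω] [Field M]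
  [Algebra F K] [Algebra F Ω] [Algebra Ω M] [Algebra K M] [Algebra F M] [IsScalarTower F Ω M]
  [IsScalarTower F K M] [CharZero Ω] [IsAlgClosed Ω] [IsFF Ω M]
  [CharZero F] [IsAlgClosed F] [IsFF F K]

theorem over_ge {P : Place Ω M} {p : Place F K} {e0 : ℕ} (hp : Over (rc F P) p e0) {e : K} :
    Ge p 0 e ↔ Ge P 0 (algebraMap K M e) := by
  have h1 : P.ord (algebraMap K M e) = e0 * p.ord e := hp.2 e
  have h2 : (0 : ℤ) < e0 := by exact_mod_cast hp.1
  unfold Ge
  rw [h1]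
  constructor
  · rintro (h | h)
    · left
      rw [h, map_zero]
    · right
      positivity
  · rintro (h | h)
    · left
      simpa using h
    · right
      by_contra hcon
      push Not at hcon
      have := mul_neg_of_pos_of_neg h2 hcon
      omega

/-- a place which is not trivial on `K` is unramified over `K` -/
theorem nongen (hM : ∀ f : M, ∃ a ∈ BR Ω M (⊤ : Subring K), ∃ b ∈ BR Ω M (⊤ : Subring K),
    b ≠ 0 ∧ f * b = a) {P : Place Ω M} (hP : ¬ Gen K P) :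
    ∃ p : Place F K, (∀ e : K, P.ord (algebraMap K M e) = p.ord e) ∧
      ∀ D : Derivation F M M, (∀ e : K, D (algebraMap K M e) = 0) →
        (∀ a : Ω, ∃ b : Ω, D (algebraMap Ω M a) = algebraMap Ω M b) →
        ∀ f, Ge P 0 f → Ge P 0 (D f) := by
  unfold Gen at hP
  push Not at hP
  obtain ⟨e, he, hne⟩ := hP
  obtain ⟨e0, p, hp⟩ := exists_over (K := K) (rc F P) ⟨e, hne⟩
  have hp2 : ∀ f, P.ord (algebraMap K M f) = e0 * p.ord f := hp.2
  have he0 : (0 : ℤ) < e0 := by exact_mod_cast hp.1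
  obtain ⟨π, hπ0, hπ1⟩ := p.surj
  obtain ⟨R, hRdef⟩ : ∃ R, R = p.O.toSubring := ⟨_, rfl⟩
  have hRm : ∀ r, r ∈ R ↔ Ge p 0 r := fun r => by
    rw [hRdef]
    exact Iff.rfl
  have hRreg : ∀ r ∈ R, Ge P 0 (algebraMap K M r) := fun r hr => (over_ge hp).1 ((hRm r).1 hr)
  have hπR : π ∈ R := (hRm π).2 (Or.inr (by omega))
  have hB : ∀ b ∈ BR Ω M R, Ge P 0 b := BR_reg P hRreg
  have hππ : 0 < P.ord (algebraMap K M π) := by
    rw [hp2, hπ1]
    omega
  have hRfr : ∀ e : K, ∃ r ∈ R, ∃ s ∈ R, s ≠ 0 ∧ e * s = r := by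
    intro e
    by_cases h0 : Ge p 0 e
    · exact ⟨e, (hRm e).2 h0, 1, one_mem _, one_ne_zero, mul_one e⟩
    · have h1 : e ≠ 0 := fun h => h0 (Or.inl h)
      refine ⟨1, one_mem _, e⁻¹, (hRm _).2 (Or.inr ?_), inv_ne_zero h1, mul_inv_cancel₀ h1⟩
      rw [p.ord_inv]
      by_contra hcon
      exact h0 (Or.inr (by omega))
  have hfr := BR_frac hM hRfr
  have hdiv : ∀ b ∈ BR Ω M R, Ge P 1 b → ∃ s ∈ BR Ω M R, ∃ s' ∈ BR Ω M R,
      s' ≠ 0 ∧ P.ord s' = 0 ∧ b * s' = algebraMap K M π * s := by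
    refine div_of_span P _ hππ (algebraMap K M '' (R : Set K)) ?_ hB (fun b hb => BR_span hb) ?_
    · rintro _ ⟨r, hr, rfl⟩
      exact mem_BR hr
    · rintro _ ⟨r, hr, rfl⟩
      obtain ⟨c, hc⟩ := exists_const p ((hRm r).1 hr)
      obtain ⟨r', hr'⟩ : ∃ r', r' = (r - algebraMap F K c) / π := ⟨_, rfl⟩
      have h1 : r - algebraMap F K c = π * r' := by
        rw [hr']
        field_simp
      have h2 : Ge p 0 r' := by
        refine Ge.of_mul' (h := π) (m := 1) hπ0 hπ1 ?_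
        rw [← h1]
        simpa using hc
      refine ⟨algebraMap F Ω c, algebraMap K M r', mem_BR ((hRm _).2 h2), 1, one_mem _,
        one_ne_zero, P.ord_one, ?_⟩
      rw [tower (F := F) (K := K) (Ω := Ω) (M := M) c, ← map_sub, h1, map_mul, mul_one]
  have hu := loc_unif P _ hB (mem_BR hπR) hππ hdiv hfr
  have he1 : (e0 : ℤ) = 1 := by
    rw [hp2, hπ1, mul_one] at hu
    exact hu
  refine ⟨p, fun f => by rw [hp2, he1, one_mul], ?_⟩
  intro D hK hΩ f hf
  exact loc_der P _ hB (mem_BR hπR) hππ hdiv hfr D (BR_der D hK hΩ _) hf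

variable (hM : ∀ f : M, ∃ a ∈ BR Ω M (⊤ : Subring K), ∃ b ∈ BR Ω M (⊤ : Subring K),
  b ≠ 0 ∧ f * b = a)

include hM

/-- logarithmic derivatives at the places which are not trivial on `K` -/
theorem dlog_nongen {P : Place Ω M} (hP : ¬ Gen K P) (D : Derivation F M M)
    (hK : ∀ e : K, D (algebraMap K M e) = 0)
    (hΩ : ∀ a : Ω, ∃ b : Ω, D (algebraMap Ω M a) = algebraMap Ω M b) {f : M} (hf : f ≠ 0) :
    Ge P 0 (D f / f) := by
  obtain ⟨p, hp, hD⟩ := nongen (F := F) hM hP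
  obtain ⟨π, hπ0, hπ1⟩ := p.surj
  have h1 : algebraMap K M π ≠ 0 := by simpa using hπ0
  obtain ⟨u, hu⟩ : ∃ u, u = f * algebraMap K M π ^ (-P.ord f) := ⟨_, rfl⟩
  have hu0 : u ≠ 0 := by
    rw [hu]
    exact mul_ne_zero hf (zpow_ne_zero _ h1)
  have hu1 : P.ord u = 0 := by
    rw [hu, P.ord_mul hf (zpow_ne_zero _ h1), P.ord_zpow, hp, hπ1]
    ring
  have hfu : f = u * algebraMap K M (π ^ P.ord f) := by
    rw [hu, map_zpow₀, mul_assoc, ← zpow_add₀ h1]
    simp
  have h2 : D f = D u * algebraMap K M (π ^ P.ord f) := by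
    conv_lhs => rw [hfu]
    rw [D.leibniz, hK, smul_zero, zero_add, smul_eq_mul, mul_comm]
  have h3 : algebraMap K M (π ^ P.ord f) ≠ 0 := by
    rw [map_zpow₀]
    exact zpow_ne_zero _ h1
  have h4 : D f / f = D u / u := by
    obtain ⟨w, hw⟩ : ∃ w, w = algebraMap K M (π ^ P.ord f) := ⟨_, rfl⟩
    rw [← hw] at h2 h3 hfu
    rw [h2, hfu, mul_div_mul_right _ _ h3]
  rw [h4, div_eq_mul_inv]
  have h5 : Ge P 0 u⁻¹ := Or.inr (by rw [P.ord_inv, hu1]; simp)
  have h6 := (hD D hK hΩ u (Or.inr hu1.ge)).mul h5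
  rwa [add_zero] at h6

/-- logarithmic derivatives at the places which are trivial on `K` -/
theorem dlog_gen {P : Place Ω M} {σ : K →ₐ[F] Ω} (h : Cen P σ) {x : K} (hx : Transcendental F x)
    (D : Derivation F M M) (hK : ∀ e : K, D (algebraMap K M e) = 0)
    (hΩ : ∀ a : Ω, ∃ b : Ω, D (algebraMap Ω M a) = algebraMap Ω M b) {f : M} (hf : f ≠ 0) :
    Ge P 0 (D f / f + (P.ord f : M) * D (algebraMap Ω M (σ x)) /
      (algebraMap K M x - algebraMap Ω M (σ x))) := by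
  have hπ1 := gen_unif hM h hx
  obtain ⟨π, hπ⟩ : ∃ π, π = algebraMap K M x - algebraMap Ω M (σ x) := ⟨_, rfl⟩
  rw [← hπ] at hπ1 ⊢
  have hπ0 : π ≠ 0 := by
    rintro rfl
    rw [P.ord_zero] at hπ1
    omega
  have hDπ : D π = - D (algebraMap Ω M (σ x)) := by
    rw [hπ, map_sub, hK, zero_sub]
  obtain ⟨m, hm⟩ : ∃ m, m = P.ord f := ⟨_, rfl⟩
  rw [← hm]
  obtain ⟨u, hu⟩ : ∃ u, u = f * π ^ (-m) := ⟨_, rfl⟩
  have hu0 : u ≠ 0 := by
    rw [hu]
    exact mul_ne_zero hf (zpow_ne_zero _ hπ0)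
  have hu1 : P.ord u = 0 := by
    rw [hu, P.ord_mul hf (zpow_ne_zero _ hπ0), P.ord_zpow, hπ1, hm]
    ring
  have hfu : f = u * π ^ m := by
    rw [hu, mul_assoc, ← zpow_add₀ hπ0]
    simp
  have h2 : D (π ^ m) = (m : M) * π ^ (m - 1) * D π := by
    have h3 := D.leibniz_zpow π m
    rw [h3, zsmul_eq_mul, smul_eq_mul, ← mul_assoc]
  have h4 : D f / f + (m : M) * D (algebraMap Ω M (σ x)) / π = D u / u := by
    conv_lhs => rw [hfu]
    rw [D.leibniz, h2, hDπ, zpow_sub_one₀ hπ0]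
    simp only [smul_eq_mul]
    have h5 : π ^ m ≠ 0 := zpow_ne_zero _ hπ0
    field_simp
    ring
  rw [h4, div_eq_mul_inv]
  have h5 : Ge P 0 u⁻¹ := Or.inr (by rw [P.ord_inv, hu1]; simp)
  have h6 := (gen_der hM h D hK hΩ (Or.inr hu1.ge : Ge P 0 u)).mul h5
  rwa [add_zero] at h6

end

end Pool.Agent.N162.BC
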