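import Pool.Agent.N162.BC.Dual

/-!
Functions with prescribed simple poles at points which are not constant.
-/

set_option autoImplicit false
set_option linter.overlappingInstances false
set_option linter.unusedSectionVars false
set_option linter.unusedDecidableInType false
set_option linter.unusedFintypeInType false
set_option linter.unusedVariables false
set_option maxHeartbeats 4000000
set_option synthInstance.maxHeartbeats 400000

open FF Polynomial Pool.Agent.W603.LV IntermediateField Pool.Agent.W619.PQ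

namespace Pool.Agent.N162.BC

section

variable {F K : Type} [Field F] [Field K] [Algebra F K] [CharZero F] [IsAlgClosed F] [IsFF F K]

theorem exists_bound {x : K} (hx : Transcendental F x) (y : K) :
    ∃ N : ℕ, ∀ l : ℕ, N ≤ l → x ^ (-(l : ℤ)) * y ∈ BI (k := F) x := by
  classical
  have hfin := finite_support (k := F) y
  have hx0 : x ≠ 0 := by
    rintro rfl
    exact hx isAlgebraic_zero
  refine ⟨∑ P ∈ hfin.toFinset, (P.ord y).natAbs, fun l hl P hP => ?_⟩
  by_cases hy : y = 0
  · left
    rw [hy, mul_zero]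
  right
  rw [P.ord_mul (zpow_ne_zero _ hx0) hy, P.ord_zpow]
  have h1 : -((∑ P ∈ hfin.toFinset, (P.ord y).natAbs : ℕ) : ℤ) ≤ P.ord y := by
    by_cases h2 : P ∈ hfin.toFinset
    · have := Finset.single_le_sum (f := fun P : Place F K => (P.ord y).natAbs)
        (fun _ _ => Nat.zero_le _) h2
      have h3 : (P.ord y).natAbs ≤ ∑ P ∈ hfin.toFinset, (P.ord y).natAbs := this
      omega
    · have h3 : P.ord y = 0 := by
        by_contra h
        exact h2 (hfin.mem_toFinset.2 h)
      rw [h3]
      have : (0 : ℤ) ≤ ((∑ P ∈ hfin.toFinset, (P.ord y).natAbs : ℕ) : ℤ) := by positivity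
      omega
  have h2 : (l : ℤ) ≤ -(l : ℤ) * P.ord x := by nlinarith
  have h3 : ((∑ P ∈ hfin.toFinset, (P.ord y).natAbs : ℕ) : ℤ) ≤ l := by exact_mod_cast hl
  omega

/-- the multiplier of a functional, in terms of dual bases -/
theorem mult_formula {x : K} (hx : Transcendental F x) {n : ℕ} (e b : Fin n → K)
    (heB : ∀ i, e i ∈ BB (k := F) x)
    (hb : ∀ f : K, f = ∑ i, ((Algebra.trace F⟮x⟯ K (f * e i) : F⟮x⟯) : K) * b i)
    {N : ℕ} (hN : ∀ i, ∀ l : ℕ, N ≤ l → x ^ (-(l : ℤ)) * e i ∈ BI (k := F) x)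
    (lam : K →ₗ[F] F) (hI : ∀ y ∈ BI (k := F) x, lam y = 0)
    (hB : ∀ y ∈ BB (k := F) x, lam y = 0) {f : K}
    (hf : ∀ y, iota hx (Algebra.trace F⟮x⟯ K (f * y)) = SS lam hI y) :
    f = ∑ i, ∑ l ∈ Finset.range N,
      algebraMap F K (lam (x ^ (-((l : ℤ) + 1)) * e i)) * (x ^ l * b i) := by
  conv_lhs => rw [hb f]
  refine Finset.sum_congr rfl fun i _ => ?_
  obtain ⟨p, hp⟩ := SS_of_BB lam hI hB (heB i)
  have h1 : Algebra.trace F⟮x⟯ K (f * e i) = px x p := by
    apply iota_injective hx
    rw [hf, iota_px, hp]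
  have hc : ∀ l : ℕ, p.coeff l = lam (x ^ (-((l : ℤ) + 1)) * e i) := by
    intro l
    have h2 := coeff_eU p (-(l : ℤ))
    rw [if_pos (by omega), neg_neg, Int.toNat_natCast, hp, SS_coeff] at h2
    rw [← h2]
    congr 2
    ring_nf
  have hdeg : p.natDegree < N ∨ p = 0 := by
    by_cases hp0 : p = 0
    · exact Or.inr hp0
    left
    by_contra hcon
    push Not at hcon
    have h2 := hc p.natDegree
    have h3 : lam (x ^ (-(((p.natDegree : ℕ) : ℤ) + 1)) * e i) = 0 := by
      apply hI
      have h4 := hN i (p.natDegree + 1) (by omega)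
      push_cast at h4
      exact h4
    rw [h3, coeff_natDegree, leadingCoeff_eq_zero] at h2
    exact hp0 h2
  rw [h1, coe_px]
  have h2 : aeval x p = ∑ l ∈ Finset.range N, algebraMap F K (p.coeff l) * x ^ l := by
    rcases hdeg with h | h
    · rw [aeval_eq_sum_range' h]
      refine Finset.sum_congr rfl fun l _ => ?_
      rw [Algebra.smul_def]
    · rw [h, map_zero]
      symm
      refine Finset.sum_eq_zero fun l _ => ?_
      rw [coeff_zero, map_zero, zero_mul]
  rw [h2, Finset.sum_mul]
  refine Finset.sum_congr rfl fun l _ => ?_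
  rw [hc, mul_assoc]

end

section

variable {F K Ω M : Type} [Field F] [Field K] [Field Ω] [Field M]
  [Algebra F K] [Algebra F Ω] [Algebra Ω M] [Algebra K M] [Algebra F M] [IsScalarTower F Ω M]
  [IsScalarTower F K M]

/-- linear algebra over an extension field -/
theorem tensor_aux (V0 : Submodule F K) {J : Type} (s : Finset J) (Λ : J → Ω) (w : J → K)
    (h : ∀ lam : K →ₗ[F] F, (∀ y ∈ V0, lam y = 0) →
      ∑ j ∈ s, Λ j * algebraMap F Ω (lam (w j)) = 0) :
    ∃ (ι : Type) (t : Finset ι) (ω : ι → Ω) (v : ι → K), (∀ i, v i ∈ V0) ∧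
      ∑ j ∈ s, algebraMap Ω M (Λ j) * algebraMap K M (w j) =
        ∑ i ∈ t, algebraMap Ω M (ω i) * algebraMap K M (v i) := by
  classical
  let ω := Module.Basis.ofVectorSpace F Ω
  let v : Module.Basis.ofVectorSpaceIndex F Ω → K := fun i => ∑ j ∈ s, ω.repr (Λ j) i • w j
  refine ⟨_, s.biUnion fun j => (ω.repr (Λ j)).support, ω, v, ?_, ?_⟩
  · intro i
    by_contra hcon
    obtain ⟨lam, hlam, hle⟩ := Submodule.exists_le_ker_of_notMem hcon
    apply hlam
    have h1 := h lam fun y hy => hle hy
    have h2 := congrArg (fun z => ω.repr z i) h1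
    simp only [map_sum, map_zero, Finsupp.coe_zero, Pi.zero_apply, Finsupp.coe_finsetSum,
      Finset.sum_apply] at h2
    rw [← h2]
    simp only [v, map_sum, map_smul]
    refine Finset.sum_congr rfl fun j _ => ?_
    rw [mul_comm (Λ j), ← Algebra.smul_def, map_smul, Finsupp.smul_apply, smul_eq_mul,
      smul_eq_mul, mul_comm]
  · have h1 : ∀ j ∈ s, Λ j = ∑ i ∈ s.biUnion fun j => (ω.repr (Λ j)).support,
        ω.repr (Λ j) i • ω i := by
      intro j hj
      have h2 := ω.linearCombination_repr (Λ j)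
      rw [Finsupp.linearCombination_apply, Finsupp.sum] at h2
      conv_lhs => rw [← h2]
      refine Finset.sum_subset (Finset.subset_biUnion_of_mem
        (fun j => (ω.repr (Λ j)).support) hj) fun i _ hi => ?_
      rw [Finsupp.notMem_support_iff.1 hi, zero_smul]
    have h3 : ∀ j ∈ s, algebraMap Ω M (Λ j) * algebraMap K M (w j) =
        ∑ i ∈ s.biUnion fun j => (ω.repr (Λ j)).support,
          algebraMap Ω M (ω i) * algebraMap K M (ω.repr (Λ j) i • w j) := by
      intro j hj
      conv_lhs => rw [h1 j hj]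
      rw [map_sum, Finset.sum_mul]
      refine Finset.sum_congr rfl fun i _ => ?_
      rw [Algebra.smul_def, Algebra.smul_def, map_mul, map_mul,
        tower (F := F) (K := K) (Ω := Ω) (M := M)]
      ring
    rw [Finset.sum_congr rfl h3, Finset.sum_comm]
    refine Finset.sum_congr rfl fun i _ => ?_
    rw [← Finset.mul_sum, ← map_sum]

end

end Pool.Agent.N162.BC
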