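import Pool.Agent.N162.BC.ML

/-!
Functions with prescribed simple poles at points which are not constant: the existence theorem.
-/

set_option autoImplicit false
set_option linter.overlappingInstances false
set_option linter.unusedSectionVars false
set_option linter.unusedDecidableInType false
set_option linter.unusedFintypeInType false
set_option linter.unusedVariables false
set_option maxHeartbeats 4000000
set_option synthInstance.maxHeartbeats 400000

open FF Polynomial Pool.Agent.W603.LV IntermediateField Pool.Agent.W619.PQ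

namespace Pool.Agent.N162.BC

theorem geom {M : Type} [Field M] {X s : M} (hX : X ≠ 0) (hs : X - s ≠ 0) (N : ℕ) :
    (X - s)⁻¹ = ∑ l ∈ Finset.range N, s ^ l * X ^ (-((l : ℤ) + 1)) +
      s ^ N * X ^ (-(N : ℤ)) * (X - s)⁻¹ := by
  induction N with
  | zero => simp
  | succ N ih =>
    rw [Finset.sum_range_succ, add_assoc]
    have h1 : s ^ N * X ^ (-((N : ℤ) + 1)) + s ^ (N + 1) * X ^ (-((N + 1 : ℕ) : ℤ)) * (X - s)⁻¹ =
        s ^ N * X ^ (-(N : ℤ)) * (X - s)⁻¹ := by
      have h2 : X ^ (-(N : ℤ)) = X ^ (-((N : ℤ) + 1)) * X := by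
        rw [← zpow_add_one₀ hX]
        congr 1
        ring
      have h3 : (X : M) ^ (-((N + 1 : ℕ) : ℤ)) = X ^ (-((N : ℤ) + 1)) := by
        congr 1
      rw [h2, h3]
      obtain ⟨u, hu⟩ : ∃ u, u = X ^ (-((N : ℤ) + 1)) := ⟨_, rfl⟩
      rw [← hu]
      field_simp
      ring
    rw [h1]
    exact ih

section

variable {F K Ω M : Type} [Field F] [Field K] [Field Ω] [Field M]
  [Algebra F K] [Algebra F Ω] [Algebra Ω M] [Algebra K M] [Algebra F M] [IsScalarTower F Ω M]
  [IsScalarTower F K M] [CharZero Ω] [IsAlgClosed Ω] [IsFF Ω M]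
  [CharZero F] [IsAlgClosed F] [IsFF F K]

/-- Euler's function with a simple pole at `σ` -/
noncomputable def hs (M : Type) [Field M] [Algebra Ω M] [Algebra K M] {n : ℕ} (x : K)
    (e b : Fin n → K) (σ : K →ₐ[F] Ω) : M :=
  (∑ i, algebraMap Ω M (σ (b i)) * algebraMap K M (e i)) *
    (algebraMap K M x - algebraMap Ω M (σ x))⁻¹

variable (hM : ∀ f : M, ∃ a ∈ BR Ω M (⊤ : Subring K), ∃ b ∈ BR Ω M (⊤ : Subring K),
  b ≠ 0 ∧ f * b = a)

include hM

theorem reg_of_BB {x : K} (P : Place Ω M) (hP : 0 ≤ P.ord (algebraMap K M x)) {y : K}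
    (hy : y ∈ BB (k := F) x) : Ge P 0 (algebraMap K M y) := by
  by_cases hG : Gen K P
  · exact hG.reg y
  · obtain ⟨p, hp, -⟩ := nongen (F := F) hM hG
    have h1 := hy p (by rw [← hp]; exact hP)
    rcases h1 with h2 | h2
    · left
      rw [h2, map_zero]
    · right
      rw [hp]
      exact h2

theorem reg_of_BI {x : K} (P : Place Ω M) (hP : P.ord (algebraMap K M x) < 0) {y : K}
    (hy : y ∈ BI (k := F) x) : Ge P 0 (algebraMap K M y) := by
  by_cases hG : Gen K P
  · exact hG.reg y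
  · obtain ⟨p, hp, -⟩ := nongen (F := F) hM hG
    have h1 := hy p (by rw [← hp]; exact hP)
    rcases h1 with h2 | h2
    · left
      rw [h2, map_zero]
    · right
      rw [hp]
      exact h2

variable {n : ℕ} {x : K} (hx : Transcendental F x) (e b : Fin n → K)
  (heB : ∀ i, e i ∈ BB (k := F) x)

include hx

theorem ord_sub_nongen {P : Place Ω M} (hP : ¬ Gen K P) (hPx : 0 ≤ P.ord (algebraMap K M x))
    (σ : K →ₐ[F] Ω) : algebraMap K M x - algebraMap Ω M (σ x) ≠ 0 ∧
      P.ord (algebraMap K M x - algebraMap Ω M (σ x)) = 0 := by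
  have hσx : Transcendental F (σ x) := fun h => hx ((isAlgebraic_algHom_iff σ σ.injective).1 h)
  have h1 : ¬ Ge P 1 (algebraMap K M x - algebraMap Ω M (σ x)) :=
    fun h => hP (gen_of_val (F := F) hσx h)
  have h2 : Ge P 0 (algebraMap K M x - algebraMap Ω M (σ x)) :=
    Ge.sub (Or.inr hPx) (Ge.const _)
  have h3 : algebraMap K M x - algebraMap Ω M (σ x) ≠ 0 := fun h => h1 (Or.inl h)
  refine ⟨h3, le_antisymm ?_ (h2.resolve_left h3)⟩
  by_contra hcon
  exact h1 (Or.inr (by omega))

include heB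

theorem hs_nongen {P : Place Ω M} (hP : ¬ Gen K P) (hPx : 0 ≤ P.ord (algebraMap K M x))
    (σ : K →ₐ[F] Ω) : Ge P 0 (hs M x e b σ) := by
  obtain ⟨h1, h2⟩ := ord_sub_nongen hM hx hP hPx σ
  have h3 : Ge P 0 (∑ i, algebraMap Ω M (σ (b i)) * algebraMap K M (e i)) := by
    refine Ge.sum _ _ fun i _ => ?_
    have h4 := (Ge.const (P := P) (σ (b i))).mul (reg_of_BB (F := F) hM P hPx (heB i))
    rwa [add_zero] at h4
  have h4 : Ge P 0 (algebraMap K M x - algebraMap Ω M (σ x))⁻¹ :=
    Or.inr (by rw [P.ord_inv, h2]; simp)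
  have h5 := h3.mul h4
  rwa [add_zero] at h5

theorem hs_gen (hn : n = Module.finrank F⟮x⟯ K)
    (htr : ∀ i j, Algebra.trace F⟮x⟯ K (b i * e j) = if i = j then 1 else 0)
    {P : Place Ω M} {τ : K →ₐ[F] Ω} (hP : Cen P τ) (σ : K →ₐ[F] Ω) [Decidable (σ = τ)] :
    Ge P 0 (hs M x e b σ - if σ = τ then (algebraMap K M x - algebraMap Ω M (τ x))⁻¹ else 0) := by
  have hreg : ∀ i, Ge P 0 (algebraMap Ω M (σ (b i)) * algebraMap K M (e i)) := by
    intro i
    have h4 := (Ge.const (P := P) (σ (b i))).mul (hP.gen.reg (e i))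
    rwa [add_zero] at h4
  by_cases hx' : τ x = σ x
  · have h1 : Ge P 1 ((∑ i, algebraMap Ω M (σ (b i)) * algebraMap K M (e i)) -
        algebraMap Ω M (if σ = τ then 1 else 0)) := by
      rw [← dual_sum hx e b hn htr hx', map_sum, ← Finset.sum_sub_distrib]
      refine Ge.sum _ _ fun i _ => ?_
      rw [map_mul, ← mul_sub]
      have h2 := (Ge.const (P := P) (σ (b i))).mul (hP (e i))
      rwa [zero_add] at h2
    have h2 : P.ord (algebraMap K M x - algebraMap Ω M (τ x)) = 1 := gen_unif hM hP hx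
    have h3 : Ge P (-1) (algebraMap K M x - algebraMap Ω M (τ x))⁻¹ :=
      Or.inr (by rw [P.ord_inv, h2])
    have h4 := h1.mul h3
    have h5 : hs M x e b σ - (if σ = τ then (algebraMap K M x - algebraMap Ω M (τ x))⁻¹ else 0) =
        ((∑ i, algebraMap Ω M (σ (b i)) * algebraMap K M (e i)) -
          algebraMap Ω M (if σ = τ then 1 else 0)) *
            (algebraMap K M x - algebraMap Ω M (τ x))⁻¹ := by
      unfold hs
      rw [hx']
      split_ifs
      · rw [map_one]
        ring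
      · rw [map_zero]
        ring
    rw [h5]
    simpa using h4
  · have hne : ¬ σ = τ := fun h => hx' (by rw [h])
    rw [if_neg hne, sub_zero]
    have h1 : algebraMap K M x - algebraMap Ω M (σ x) ≠ 0 ∧
        P.ord (algebraMap K M x - algebraMap Ω M (σ x)) = 0 := by
      have hc : τ x - σ x ≠ 0 := sub_ne_zero.2 hx'
      have h2 : algebraMap K M x - algebraMap Ω M (σ x) = algebraMap Ω M (τ x - σ x) +
          (algebraMap K M x - algebraMap Ω M (τ x)) := by
        rw [map_sub]
        ring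
      rw [h2]
      have h3 : P.ord (algebraMap K M x - algebraMap Ω M (τ x)) = 1 := gen_unif hM hP hx
      have h4 : algebraMap K M x - algebraMap Ω M (τ x) ≠ 0 := by
        intro h
        rw [h, P.ord_zero] at h3
        omega
      have h5 := P.ord_add_eq (f := algebraMap Ω M (τ x - σ x))
        (fun h => hc ((map_eq_zero (algebraMap Ω M)).1 h)) h4
        (by rw [P.ord_const hc, h3]; norm_num)
      rw [P.ord_const hc] at h5
      exact h5
    have h4 : Ge P 0 (algebraMap K M x - algebraMap Ω M (σ x))⁻¹ :=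
      Or.inr (by rw [P.ord_inv, h1.2]; simp)
    have h5 := (Ge.sum (P := P) Finset.univ _ fun i _ => hreg i).mul h4
    rwa [add_zero] at h5

omit heB in
theorem hs_inf {N : ℕ} {P : Place Ω M} (hPx : P.ord (algebraMap K M x) < 0)
    (hN : ∀ i, x ^ (-(N : ℤ)) * e i ∈ BI (k := F) x) (σ : K →ₐ[F] Ω) :
    Ge P 0 (hs M x e b σ - ∑ i, ∑ l ∈ Finset.range N, algebraMap Ω M (σ (b i) * σ x ^ l) *
      algebraMap K M (x ^ (-((l : ℤ) + 1)) * e i)) := by
  have hX : algebraMap K M x ≠ 0 := by
    intro h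
    rw [h, P.ord_zero] at hPx
    omega
  have hord : algebraMap K M x - algebraMap Ω M (σ x) ≠ 0 ∧
      P.ord (algebraMap K M x - algebraMap Ω M (σ x)) = P.ord (algebraMap K M x) := by
    by_cases h0 : σ x = 0
    · rw [h0, map_zero, sub_zero]
      exact ⟨hX, rfl⟩
    · have h1 : -algebraMap Ω M (σ x) ≠ 0 := by simpa using h0
      have h2 := P.ord_add_eq hX h1 (by rw [P.ord_neg, P.ord_const h0]; exact hPx)
      rwa [← sub_eq_add_neg] at h2
  have h1 := geom hX hord.1 N
  obtain ⟨v, hv⟩ : ∃ v, v = (algebraMap K M x - algebraMap Ω M (σ x))⁻¹ := ⟨_, rfl⟩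
  have hv0 : Ge P 0 v := Or.inr (by rw [hv, P.ord_inv, hord.2]; omega)
  have h2 : hs M x e b σ - ∑ i, ∑ l ∈ Finset.range N, algebraMap Ω M (σ (b i) * σ x ^ l) *
      algebraMap K M (x ^ (-((l : ℤ) + 1)) * e i) =
      ∑ i, algebraMap Ω M (σ (b i) * σ x ^ N) * algebraMap K M (x ^ (-(N : ℤ)) * e i) * v := by
    unfold hs
    rw [Finset.sum_mul, ← Finset.sum_sub_distrib]
    refine Finset.sum_congr rfl fun i _ => ?_
    rw [← hv]
    have h3 : ∑ l ∈ Finset.range N, algebraMap Ω M (σ (b i) * σ x ^ l) *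
        algebraMap K M (x ^ (-((l : ℤ) + 1)) * e i) =
        algebraMap Ω M (σ (b i)) * algebraMap K M (e i) *
          ∑ l ∈ Finset.range N, algebraMap Ω M (σ x) ^ l *
            algebraMap K M x ^ (-((l : ℤ) + 1)) := by
      rw [Finset.mul_sum]
      refine Finset.sum_congr rfl fun l _ => ?_
      rw [map_mul, map_mul, map_pow, map_zpow₀]
      ring
    rw [h3]
    have h4 : v - ∑ l ∈ Finset.range N, algebraMap Ω M (σ x) ^ l *
        algebraMap K M x ^ (-((l : ℤ) + 1)) =
        algebraMap Ω M (σ x) ^ N * algebraMap K M x ^ (-(N : ℤ)) * v := by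
      rw [← hv] at h1
      rw [sub_eq_iff_eq_add]
      conv_lhs => rw [h1]
      ring
    rw [← mul_sub, h4, map_mul, map_mul, map_pow, map_zpow₀]
    ring
  rw [h2]
  refine Ge.sum _ _ fun i _ => ?_
  have h5 := ((Ge.const (P := P) (σ (b i) * σ x ^ N)).mul
    (reg_of_BI (F := F) hM P hPx (hN i))).mul hv0
  simpa using h5

end

end Pool.Agent.N162.BC
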