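import Pool.Agent.N162.BC.ML2

/-!
Functions with prescribed simple poles at points which are not constant: the existence theorem.
-/

set_option autoImplicit false
set_option linter.overlappingInstances false
set_option linter.unusedSectionVars false
set_option linter.unusedDecidableInType false
set_option linter.unusedFintypeInType false
set_option linter.unusedVariables false
set_option maxHeartbeats 4000000
set_option synthInstance.maxHeartbeats 400000

open FF Polynomial Pool.Agent.W603.LV IntermediateField Pool.Agent.W619.PQ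

namespace Pool.Agent.N162.BC

section

variable {F K Ω M : Type} [Field F] [Field K] [Field Ω] [Field M]
  [Algebra F K] [Algebra F Ω] [Algebra Ω M] [Algebra K M] [Algebra F M] [IsScalarTower F Ω M]
  [IsScalarTower F K M] [CharZero Ω] [IsAlgClosed Ω] [IsFF Ω M]
  [CharZero F] [IsAlgClosed F] [IsFF F K]

/-- **Functions with prescribed simple poles.** -/
theorem ml (hM : ∀ f : M, ∃ a ∈ BR Ω M (⊤ : Subring K), ∃ b ∈ BR Ω M (⊤ : Subring K),
    b ≠ 0 ∧ f * b = a) {x : K} (hx : Transcendental F x) (D0 : Derivation F K K) (hD0 : D0 x = 1)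
    (T : Finset (K →ₐ[F] Ω)) (γ : (K →ₐ[F] Ω) → Ω)
    (hγ : ∀ f : K, (∀ p : Place F K, vo p D0 ≤ p.ord f) → ∑ σ ∈ T, γ σ * σ f = 0) [DecidableEq (K →ₐ[F] Ω)] :
    ∃ h : M, (∀ P : Place Ω M, ¬ Gen K P → Ge P 0 h) ∧
      ∀ (P : Place Ω M) (τ : K →ₐ[F] Ω), Cen P τ →
        Ge P 0 (h - (if τ ∈ T then algebraMap Ω M (γ τ) else 0) *
          (algebraMap K M x - algebraMap Ω M (τ x))⁻¹) := by
  classical
  have hfin : FiniteDimensional F⟮x⟯ K := IsFF.finite hx
  have hchar : CharZero F⟮x⟯ := charZero_of_injective_algebraMap (algebraMap F F⟮x⟯).injective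
  have hnd := traceForm_nondegenerate F⟮x⟯ K
  obtain ⟨e, heB⟩ := exists_basis (F := F) hx
  let b := LinearMap.BilinForm.dualBasis (Algebra.traceForm F⟮x⟯ K) hnd e
  have htr : ∀ i j, Algebra.trace F⟮x⟯ K (b i * e j) = if i = j then 1 else 0 := by
    intro i j
    have h1 := LinearMap.BilinForm.apply_dualBasis_left (B := Algebra.traceForm F⟮x⟯ K) hnd e i j
    rw [Algebra.traceForm_apply] at h1
    have h2 : (if i = j then (1 : F⟮x⟯) else 0) = if j = i then 1 else 0 := by
      simp only [eq_comm]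
    rw [h2]
    exact h1
  have hb : ∀ f : K, f = ∑ i, ((Algebra.trace F⟮x⟯ K (f * e i) : F⟮x⟯) : K) * b i := by
    intro f
    conv_lhs => rw [← b.sum_repr f]
    refine Finset.sum_congr rfl fun i _ => ?_
    have h1 := LinearMap.BilinForm.dualBasis_repr_apply (B := Algebra.traceForm F⟮x⟯ K) hnd e f i
    rw [Algebra.traceForm_apply] at h1
    have h2 : b.repr f i = Algebra.trace F⟮x⟯ K (f * e i) := h1
    rw [h2, Algebra.smul_def]
    rfl
  choose N0 hN0 using fun i => exists_bound (F := F) hx (e i)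
  obtain ⟨N, hN⟩ : ∃ N : ℕ, ∀ i, N0 i ≤ N := ⟨∑ i, N0 i, fun i =>
    Finset.single_le_sum (f := N0) (fun _ _ => Nat.zero_le _) (Finset.mem_univ i)⟩
  have hNI : ∀ i, ∀ l : ℕ, N ≤ l → x ^ (-(l : ℤ)) * e i ∈ BI (k := F) x :=
    fun i l hl => hN0 i l ((hN i).trans hl)
  -- the functionals
  have hfun : ∀ lam : K →ₗ[F] F, (∀ y ∈ BB (k := F) x ⊔ BI (k := F) x, lam y = 0) →
      ∑ j ∈ Finset.univ ×ˢ Finset.range N,
        (∑ σ ∈ T, γ σ * (σ (b j.1) * σ x ^ j.2)) *
          algebraMap F Ω (lam (x ^ (-((j.2 : ℤ) + 1)) * e j.1)) = 0 := by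
    intro lam hlam
    by_cases hne : lam = 0
    · refine Finset.sum_eq_zero fun j _ => ?_
      rw [hne, LinearMap.zero_apply, map_zero, mul_zero]
    have hB : ∀ y ∈ BB (k := F) x, lam y = 0 := fun y hy => hlam y (Submodule.mem_sup_left hy)
    have hI : ∀ y ∈ BI (k := F) x, lam y = 0 := fun y hy => hlam y (Submodule.mem_sup_right hy)
    obtain ⟨f, hf0, hf⟩ := exists_mult lam hI hx hB hne
    have h1 := hγ f fun p => mult_regular hx D0 hD0 lam hI hB hf0 hf p
    have h2 := mult_formula hx e b heB hb hNI lam hI hB hf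
    rw [← h1]
    have h3 : ∀ σ ∈ T, γ σ * σ f = ∑ j ∈ Finset.univ ×ˢ Finset.range N,
        γ σ * (σ (b j.1) * σ x ^ j.2) *
          algebraMap F Ω (lam (x ^ (-((j.2 : ℤ) + 1)) * e j.1)) := by
      intro σ _
      conv_lhs => rw [h2]
      rw [Finset.sum_product, map_sum, Finset.mul_sum]
      refine Finset.sum_congr rfl fun i _ => ?_
      rw [map_sum, Finset.mul_sum]
      refine Finset.sum_congr rfl fun l _ => ?_
      obtain ⟨c, hc⟩ : ∃ c, c = lam (x ^ (-((l : ℤ) + 1)) * e i) := ⟨_, rfl⟩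
      simp only [← hc]
      rw [map_mul, map_mul, map_pow, AlgHom.commutes]
      ring
    rw [Finset.sum_congr rfl h3, Finset.sum_comm]
    refine Finset.sum_congr rfl fun j _ => ?_
    rw [Finset.sum_mul]
  obtain ⟨ι, t, ω, v, hv, hsum⟩ := tensor_aux (M := M) (BB (k := F) x ⊔ BI (k := F) x)
    (Finset.univ ×ˢ Finset.range N) (fun j => ∑ σ ∈ T, γ σ * (σ (b j.1) * σ x ^ j.2))
    (fun j => x ^ (-((j.2 : ℤ) + 1)) * e j.1) hfun
  choose β hβ ι' hι' hβι using fun i => Submodule.mem_sup.1 (hv i)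
  refine ⟨∑ σ ∈ T, algebraMap Ω M (γ σ) * hs M x e b σ -
    ∑ k ∈ t, algebraMap Ω M (ω k) * algebraMap K M (β k), ?_, ?_⟩
  · intro P hP
    rcases lt_or_ge (P.ord (algebraMap K M x)) 0 with hPx | hPx
    · have h1 : ∑ σ ∈ T, algebraMap Ω M (γ σ) * hs M x e b σ -
          ∑ k ∈ t, algebraMap Ω M (ω k) * algebraMap K M (β k) =
          ∑ σ ∈ T, algebraMap Ω M (γ σ) * (hs M x e b σ - ∑ i, ∑ l ∈ Finset.range N,
            algebraMap Ω M (σ (b i) * σ x ^ l) * algebraMap K M (x ^ (-((l : ℤ) + 1)) * e i)) +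
          ∑ k ∈ t, algebraMap Ω M (ω k) * algebraMap K M (ι' k) := by
        have h2 : ∑ σ ∈ T, algebraMap Ω M (γ σ) * (∑ i, ∑ l ∈ Finset.range N,
            algebraMap Ω M (σ (b i) * σ x ^ l) * algebraMap K M (x ^ (-((l : ℤ) + 1)) * e i)) =
            ∑ k ∈ t, algebraMap Ω M (ω k) * algebraMap K M (v k) := by
          rw [← hsum]
          have h3 : ∀ σ ∈ T, algebraMap Ω M (γ σ) * (∑ i, ∑ l ∈ Finset.range N,
              algebraMap Ω M (σ (b i) * σ x ^ l) *
                algebraMap K M (x ^ (-((l : ℤ) + 1)) * e i)) =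
              ∑ j ∈ Finset.univ ×ˢ Finset.range N,
                algebraMap Ω M (γ σ * (σ (b j.1) * σ x ^ j.2)) *
                  algebraMap K M (x ^ (-((j.2 : ℤ) + 1)) * e j.1) := by
            intro σ _
            rw [Finset.sum_product, Finset.mul_sum]
            refine Finset.sum_congr rfl fun i _ => ?_
            rw [Finset.mul_sum]
            refine Finset.sum_congr rfl fun l _ => ?_
            rw [← mul_assoc, ← map_mul]
          rw [Finset.sum_congr rfl h3, Finset.sum_comm]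
          refine Finset.sum_congr rfl fun j _ => ?_
          rw [map_sum, Finset.sum_mul]
        have h4 : ∑ k ∈ t, algebraMap Ω M (ω k) * algebraMap K M (v k) =
            ∑ k ∈ t, algebraMap Ω M (ω k) * algebraMap K M (β k) +
              ∑ k ∈ t, algebraMap Ω M (ω k) * algebraMap K M (ι' k) := by
          rw [← Finset.sum_add_distrib]
          refine Finset.sum_congr rfl fun k _ => ?_
          rw [← hβι k, map_add]
          ring
        rw [h4] at h2
        simp only [mul_sub, Finset.sum_sub_distrib]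
        linear_combination h2
      rw [h1]
      refine (Ge.sum _ _ fun σ _ => ?_).add (Ge.sum _ _ fun k _ => ?_)
      · have h2 := (Ge.const (P := P) (γ σ)).mul
          (hs_inf hM hx e b hPx (fun i => hNI i N le_rfl) σ)
        rwa [add_zero] at h2
      · have h2 := (Ge.const (P := P) (ω k)).mul (reg_of_BI (F := F) hM P hPx (hι' k))
        rwa [add_zero] at h2
    · refine (Ge.sum _ _ fun σ _ => ?_).sub (Ge.sum _ _ fun k _ => ?_)
      · have h2 := (Ge.const (P := P) (γ σ)).mul (hs_nongen hM hx e b heB hP hPx σ)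
        rwa [add_zero] at h2
      · have h2 := (Ge.const (P := P) (ω k)).mul (reg_of_BB (F := F) hM P hPx (hβ k))
        rwa [add_zero] at h2
  · intro P τ hP
    obtain ⟨u, hu⟩ : ∃ u, u = (algebraMap K M x - algebraMap Ω M (τ x))⁻¹ := ⟨_, rfl⟩
    have h1 : ∑ σ ∈ T, algebraMap Ω M (γ σ) * hs M x e b σ -
        ∑ k ∈ t, algebraMap Ω M (ω k) * algebraMap K M (β k) -
          (if τ ∈ T then algebraMap Ω M (γ τ) else 0) * u =
        ∑ σ ∈ T, algebraMap Ω M (γ σ) * (hs M x e b σ - if σ = τ then u else 0) -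
          ∑ k ∈ t, algebraMap Ω M (ω k) * algebraMap K M (β k) := by
      have h2 : ∑ σ ∈ T, algebraMap Ω M (γ σ) * (if σ = τ then u else 0) =
          (if τ ∈ T then algebraMap Ω M (γ τ) else 0) * u := by
        simp only [mul_ite, mul_zero, Finset.sum_ite_eq', ite_mul, zero_mul]
      simp only [mul_sub, Finset.sum_sub_distrib]
      rw [h2]
      ring
    rw [← hu, h1]
    refine (Ge.sum _ _ fun σ _ => ?_).sub (Ge.sum _ _ fun k _ => ?_)
    · have h2 := (Ge.const (P := P) (γ σ)).mul (hs_gen hM hx e b heB rfl htr hP σ)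
      rw [← hu, add_zero] at h2
      exact h2
    · have h2 := (Ge.const (P := P) (ω k)).mul (hP.gen.reg (β k))
      rwa [add_zero] at h2

end

end Pool.Agent.N162.BC
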