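import Pool.Agent.N162.BC.GM
import Pool.Agent.N162.BC.Exact

/-!
Bloch's conjecture for correspondences which hit few fibres of a fibration in curves.
-/

set_option autoImplicit false
set_option linter.overlappingInstances false
set_option linter.unusedSectionVars false
set_option linter.unusedDecidableInType false
set_option linter.unusedFintypeInType false
set_option linter.unusedVariables false
set_option maxHeartbeats 4000000
set_option synthInstance.maxHeartbeats 400000

open FF Polynomial Pool.Agent.W603.LV Pool.Agent.W602.GT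

namespace Pool.Agent.N162.BC

theorem trdeg_one {k L A : Type} [Field k] [Field L] [Field A] [Algebra k L] [Algebra L A]
    [Algebra k A] [IsScalarTower k L A] {m : ℕ} (hA : Algebra.trdeg k A = (m + 1 : ℕ))
    (hL : Algebra.trdeg k L = (m : ℕ)) : Algebra.trdeg L A = 1 := by
  have h1 := trdeg_add_eq k L (A := A)
  rw [hA, hL] at h1
  have h3 : Algebra.trdeg L A < Cardinal.aleph0 := by
    by_contra hcon
    push Not at hcon
    have h4 : (m : Cardinal.{0}) + Algebra.trdeg L A = Algebra.trdeg L A :=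
      Cardinal.add_eq_right hcon ((Cardinal.natCast_lt_aleph0 (n := m)).le.trans hcon)
    rw [h4] at h1
    rw [h1] at hcon
    exact absurd hcon (not_le.2 Cardinal.natCast_lt_aleph0)
  obtain ⟨n, hn⟩ := Cardinal.lt_aleph0.1 h3
  rw [hn] at h1 ⊢
  have h4 : m + n = m + 1 := by exact_mod_cast h1
  have h5 : n = 1 := by omega
  rw [h5, Nat.cast_one]

section

variable {K Ω : Type} [Field K] [Algebra ℂ K] [Field Ω] [Algebra ℂ Ω]

theorem pullback_add {n : ℕ} (σ : K →ₐ[ℂ] Ω) (z : Fin n → K) (E : Fin n → Derivation ℂ K K)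
    (ω ω' : (Fin n → Derivation ℂ K K) → K) (D : Fin n → Derivation ℂ Ω Ω) :
    pullback σ z E (fun D => ω D + ω' D) D = pullback σ z E ω D + pullback σ z E ω' D := by
  unfold pullback
  rw [map_add]
  ring

theorem pullback_mul {n : ℕ} (σ : K →ₐ[ℂ] Ω) (z : Fin n → K) (E : Fin n → Derivation ℂ K K)
    (ω : (Fin n → Derivation ℂ K K) → K) (l : K) (D : Fin n → Derivation ℂ Ω Ω) :
    pullback σ z E (fun D => l * ω D) D = σ l * pullback σ z E ω D := by
  unfold pullback
  rw [map_mul]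
  ring

/-- the forms in `V` have trace zero on every fibre -/
theorem trace_fibre {n : ℕ} {L : IntermediateField ℂ K}
    {G V : ((Fin n → Derivation ℂ K K) → K) → Prop} {U : Finset (L →ₐ[ℂ] Ω)}
    (hsep : Separates L G V U) {c : (K →ₐ[ℂ] Ω) →₀ ℤ} (hc : ∀ ω, G ω →
      ∀ (z : Fin n → K) (E : Fin n → Derivation ℂ K K), IsTranscendenceBasis ℂ z →
        (∀ i j, E i (z j) = if i = j then 1 else 0) → ∀ D : Fin n → Derivation ℂ Ω Ω,
          ∑ σ ∈ c.support, (c σ : Ω) * pullback σ z E ω D = 0)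
    (hU : ∀ σ ∈ c.support, σ.comp L.val ∈ U) {z : Fin n → K} {E : Fin n → Derivation ℂ K K}
    (hz : IsTranscendenceBasis ℂ z) (hE : ∀ i j, E i (z j) = if i = j then 1 else 0)
    (D : Fin n → Derivation ℂ Ω Ω) [DecidableEq (L →ₐ[ℂ] Ω)] {u : L →ₐ[ℂ] Ω} (hu : u ∈ U)
    {ω : (Fin n → Derivation ℂ K K) → K} (hω : V ω) :
    ∑ σ ∈ c.support with σ.comp L.val = u, (c σ : Ω) * pullback σ z E ω D = 0 := by
  refine hsep (fun u ω => ∑ σ ∈ c.support with σ.comp L.val = u,
    (c σ : Ω) * pullback σ z E ω D) ?_ ?_ ?_ u hu ω hω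
  · intro u _ ω ω' _ _
    simp only [pullback_add, mul_add, Finset.sum_add_distrib]
  · intro u _ l ω _
    simp only [pullback_mul]
    rw [Finset.mul_sum]
    refine Finset.sum_congr rfl fun σ hσ => ?_
    have h1 : σ (l : K) = u l := by
      rw [← (Finset.mem_filter.1 hσ).2]
      rfl
    rw [h1]
    ring
  · intro ω hω
    have h1 := Finset.sum_fiberwise_of_maps_to (s := c.support) (t := U)
      (g := fun σ => σ.comp L.val) hU (fun σ => (c σ : Ω) * pullback σ z E ω D)
    rw [h1]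
    exact hc ω hω z E hz hE D

/-- the part of the cycle over one fibre -/
theorem part_mem [Algebra.EssFiniteType ℂ K] [IsAlgClosed Ω] {m : ℕ}
    (hK : Algebra.trdeg ℂ K = (m + 1 : ℕ)) (hΩ : Algebra.trdeg ℂ Ω = (m + 1 : ℕ))
    (L : IntermediateField ℂ K) (hL : Algebra.trdeg ℂ L = (m : ℕ))
    (hLK : ∀ a : K, IsAlgebraic L a → a ∈ L)
    {G V : ((Fin (m + 1) → Derivation ℂ K K) → K) → Prop} (hV : ∀ ω, V ω → FibreForm L (m + 1) ω)
    (hgm : ∀ ω, FibreForm L (m + 1) ω → GMSpan L V ω) {U : Finset (L →ₐ[ℂ] Ω)}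
    (hsep : Separates L G V U) {c : (K →ₐ[ℂ] Ω) →₀ ℤ} (hc : ∀ ω, G ω →
      ∀ (z : Fin (m + 1) → K) (E : Fin (m + 1) → Derivation ℂ K K), IsTranscendenceBasis ℂ z →
        (∀ i j, E i (z j) = if i = j then 1 else 0) → ∀ D : Fin (m + 1) → Derivation ℂ Ω Ω,
          ∑ σ ∈ c.support, (c σ : Ω) * pullback σ z E ω D = 0)
    (hU : ∀ σ ∈ c.support, σ.comp L.val ∈ U) [DecidableEq (L →ₐ[ℂ] Ω)] {u : L →ₐ[ℂ] Ω}
    (hu : u ∈ U) : c.filter (fun σ => σ.comp L.val = u) ∈ Rat K Ω := by
  classical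
  have hcΩ : CharZero Ω := charZero_of_injective_algebraMap (algebraMap ℂ Ω).injective
  have hcL : CharZero L := charZero_of_injective_algebraMap (algebraMap ℂ L).injective
  have hess : Algebra.EssFiniteType L K := Algebra.EssFiniteType.of_comp ℂ L K
  have hFF : IsFF L K := ⟨hess, trdeg_one hK hL⟩
  have hac : algebraicClosure L K = ⊥ := by
    rw [eq_bot_iff]
    intro a ha
    rw [mem_algebraicClosure_iff] at ha
    exact IntermediateField.mem_bot.2 ⟨⟨a, hLK a ha⟩, rfl⟩
  obtain ⟨x, hx⟩ := IsFF.exists_transcendental (k := L) (K := K)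
  obtain ⟨t, ht⟩ := exists_tb hL
  obtain ⟨D0, hD0⟩ := Pool.Agent.W602.GT.exists_der (fun _ : Unit => x) (IsFF.basis hx)
    (fun _ => 1)
  have hD0x : D0 x = 1 := hD0 ()
  -- coordinates on the variety
  have hb := snoc_tb (A := K) ht (IsFF.basis hx)
  have hcast : (fun i => algebraMap L K (t i)) = fun i => (t i : K) := rfl
  rw [hcast] at hb
  choose E hE using fun i : Fin (m + 1) => Pool.Agent.W602.GT.exists_der _ hb
    fun j => if i = j then (1 : K) else 0
  -- coordinates on Ω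
  let i1 : Algebra L Ω := u.toRingHom.toAlgebra
  have hi1 : ∀ l : L, algebraMap L Ω l = u l := fun l => rfl
  have i2 : IsScalarTower ℂ L Ω := IsScalarTower.of_algebraMap_eq fun z => by
    rw [hi1]
    exact (u.commutes z).symm
  have htrΩ : Algebra.trdeg L Ω = 1 := trdeg_one hΩ hL
  obtain ⟨w, hw⟩ := exists_transc (L := L) (Ω := Ω) htrΩ
  have hbΩ := snoc_tb (A := Ω) ht (basis_one htrΩ hw)
  obtain ⟨y, hy⟩ : ∃ y, y = Fin.snoc (α := fun _ => Ω) (fun i => algebraMap L Ω (t i)) w :=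
    ⟨_, rfl⟩
  rw [← hy] at hbΩ
  have hyc : ∀ i : Fin m, y (Fin.castSucc i) = u (t i) := fun i => by
    rw [hy, Fin.snoc_castSucc, hi1]
  have hyl : y (Fin.last m) = w := by rw [hy, Fin.snoc_last]
  choose H hH using fun i : Fin (m + 1) => Pool.Agent.W602.GT.exists_der y hbΩ
    fun j => if i = j then (1 : Ω) else 0
  obtain ⟨δ, hδ⟩ := Pool.Agent.W602.GT.exists_der (fun _ : Unit => w) (basis_one htrΩ hw)
    (fun _ => 1)
  have hδw : δ w = 1 := hδ ()
  have hδne : δ ≠ 0 := by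
    rintro rfl
    simp at hδw
  have hHδ : ∀ a, H (Fin.last m) a = δ a := by
    have h1 : H (Fin.last m) = δ.restrictScalars ℂ := by
      refine Pool.Agent.W602.GT.der_ext y hbΩ fun i => ?_
      rw [hH]
      refine Fin.lastCases ?_ (fun j => ?_) i
      · rw [if_pos rfl, hyl]
        exact hδw.symm
      · rw [if_neg (Fin.castSucc_lt_last j).ne', hyc]
        exact (δ.map_algebraMap (t j)).symm
    intro a
    rw [h1]
    rfl
  -- the cycle over `L`
  let rs : (K →ₐ[L] Ω) → (K →ₐ[ℂ] Ω) := fun σ => σ.restrictScalars ℂ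
  have hrs : Function.Injective rs := AlgHom.restrictScalars_injective ℂ
  have hrsu : ∀ σ : K →ₐ[L] Ω, (rs σ).comp L.val = u := by
    intro σ
    ext l
    exact σ.commutes l
  have hrs' : ∀ σ : K →ₐ[ℂ] Ω, σ.comp L.val = u → ∃ σ' : K →ₐ[L] Ω, rs σ' = σ := by
    intro σ hσ
    refine ⟨{ σ with commutes' := fun l => ?_ }, rfl⟩
    have h1 := congrArg (fun g : L →ₐ[ℂ] Ω => g l) hσ
    exact h1
  let cL : (K →ₐ[L] Ω) →₀ ℤ := c.comapDomain rs hrs.injOn
  have hcL' : ∀ σ, cL σ = c (rs σ) := fun σ => rfl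
  have hsum : ∀ g : (K →ₐ[ℂ] Ω) → Ω, ∑ σ ∈ cL.support, g (rs σ) =
      ∑ σ ∈ c.support with σ.comp L.val = u, g σ := by
    intro g
    have h1 : c.support.filter (fun σ => σ.comp L.val = u) = cL.support.map ⟨rs, hrs⟩ := by
      ext σ
      rw [Finset.mem_filter, Finset.mem_map, Finsupp.mem_support_iff]
      constructor
      · rintro ⟨h1, h2⟩
        obtain ⟨σ', hσ'⟩ := hrs' σ h2
        refine ⟨σ', ?_, hσ'⟩
        rw [Finsupp.mem_support_iff, hcL', hσ']
        exact h1
      · rintro ⟨σ', h1, rfl⟩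
        rw [Finsupp.mem_support_iff, hcL'] at h1
        exact ⟨h1, hrsu σ'⟩
    rw [h1, Finset.sum_map]
    rfl
  -- the pullback of a form
  obtain ⟨zz, hzz⟩ : ∃ zz : Fin (m + 1) → K, zz = Fin.snoc (α := fun _ => K) (fun i => (t i : K)) x :=
    ⟨_, rfl⟩
  have hzt : ∀ i : Fin m, zz (Fin.castSucc i) = (t i : K) := fun i => by
    rw [hzz, Fin.snoc_castSucc]
  have hzx : zz (Fin.last m) = x := by rw [hzz, Fin.snoc_last]
  rw [← hzz] at hb hE
  have hpull : ∀ σ : K →ₐ[ℂ] Ω, σ.comp L.val = u → ∀ ω : (Fin (m + 1) → Derivation ℂ K K) → K,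
      pullback σ zz E ω H = σ (ω E) * δ (σ x) := by
    intro σ hσu ω
    unfold pullback
    rw [det_tri]
    · rw [Matrix.of_apply, hzx, hHδ]
      ring
    · intro i j
      rw [Matrix.of_apply, hzt]
      have h4 : σ (t j : K) = y (Fin.castSucc j) := by
        rw [hyc, ← hσu]
        rfl
      rw [h4, hH]
  have hδt : ∀ i, (δ.restrictScalars ℂ) (u (t i)) = 0 := fun i => δ.map_algebraMap (t i)
  have htrV : ∀ ω, V ω → IsPluri 1 ω ∧ ∑ σ ∈ c.support with σ.comp L.val = u,
      (c σ : Ω) * (σ (ω E) * (δ.restrictScalars ℂ) (σ x)) = 0 := by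
    intro ω hω
    refine ⟨(hV ω hω).1, ?_⟩
    have h1 := trace_fibre hsep hc hU hb hE H hu hω
    rw [← h1]
    refine Finset.sum_congr rfl fun σ hσ => ?_
    rw [hpull σ (Finset.mem_filter.1 hσ).2]
    rfl
  have hrel : ∀ T : K, (∀ (p : Place L K) (π : K), p.ord π = 1 → Ge p (p.ord (D0 π)) T) →
      ∑ σ ∈ cL.support, (cL σ : Ω) * (σ T * δ (σ x)) = 0 := by
    intro T hT
    have h0 := stdForm_fibre L ht hx D0 hD0x hT
    rw [← hzz] at h0
    obtain ⟨-, G, hG⟩ := gm_exact L ht hzt hzx hb hE u hyc hyl hbΩ (δ.restrictScalars ℂ) hδt hδw c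
      (c.support.filter fun σ => σ.comp L.val = u) (fun σ hσ => (Finset.mem_filter.1 hσ).2) htrV
      (hgm _ h0)
    rw [stdForm_dual _ _ hE] at hG
    have h2 := hsum fun σ => (c σ : Ω) * (σ T * δ (σ x))
    have h3 : ∑ σ ∈ cL.support, (cL σ : Ω) * (σ T * δ (σ x)) =
        ∑ σ ∈ cL.support, (c (rs σ) : Ω) * ((rs σ) T * δ ((rs σ) x)) := rfl
    have h4 : ∑ σ ∈ cL.support, (cL σ : Ω) * (σ T * δ (σ x)) = δ G := by
      rw [h3, h2]
      exact hG
    rw [h4]
    exact exact_fibre L K Ω hac htrΩ δ hδne hx D0 hD0x cL hT G h4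
  obtain ⟨M, hM, a1, a2, hMF, hLM, f, hf0, hf⟩ := fibre L K Ω hac htrΩ δ hδne hx D0 hD0x cL hrel
  refine AddSubgroup.subset_closure ⟨M, hM, a1, hMF, algebraMap K M, f, ?_, hf0, ?_⟩
  · intro z
    have h1 := hLM (algebraMap ℂ L z)
    rw [hi1, u.commutes] at h1
    rw [h1]
    rfl
  · intro σ
    by_cases hσ : σ.comp L.val = u
    · rw [Finsupp.filter_apply, if_pos hσ]
      obtain ⟨σ', rfl⟩ := hrs' σ hσ
      obtain ⟨P, hP, hPv⟩ := hf σ'
      have h1 : {v : Place Ω M | CentredAt (algebraMap K M) v (rs σ')} = {P} := by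
        ext v
        rw [Set.mem_ofPred_eq, Set.mem_singleton_iff, ← hPv v]
        unfold CentredAt Ge
        refine forall_congr' fun κ => ?_
        have h2 : (rs σ') κ = σ' κ := rfl
        rw [h2, sub_eq_zero]
        constructor
        · rintro (h | h)
          · exact Or.inl h
          · exact Or.inr (by omega)
        · rintro (h | h)
          · exact Or.inl h
          · exact Or.inr (by omega)
      rw [h1, finsum_mem_singleton, hP]
      rfl
    · rw [Finsupp.filter_apply, if_neg hσ]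
      have h1 : {v : Place Ω M | CentredAt (algebraMap K M) v σ} = ∅ := by
        rw [Set.eq_empty_iff_forall_notMem]
        intro v hv
        apply hσ
        ext l
        have h2 : algebraMap K M (l : K) = algebraMap Ω M (u l) := by
          rw [← hi1, hLM]
          rfl
        have h3 : Ge v 1 (algebraMap Ω M (u l - σ (l : K))) := by
          rw [map_sub, ← h2]
          rcases hv (l : K) with h | h
          · exact Or.inl (sub_eq_zero.2 h)
          · exact Or.inr (by omega)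
        exact (sub_eq_zero.1 (not_ge_const h3)).symm
      rw [h1, finsum_mem_empty]

/-- **Correspondences which hit few fibres.** -/
theorem main [Algebra.EssFiniteType ℂ K] [IsAlgClosed Ω] {m : ℕ}
    (hK : Algebra.trdeg ℂ K = (m + 1 : ℕ)) (hΩ : Algebra.trdeg ℂ Ω = (m + 1 : ℕ))
    (L : IntermediateField ℂ K) (hL : Algebra.trdeg ℂ L = (m : ℕ))
    (hLK : ∀ a : K, IsAlgebraic L a → a ∈ L)
    {G V : ((Fin (m + 1) → Derivation ℂ K K) → K) → Prop} (hV : ∀ ω, V ω → FibreForm L (m + 1) ω)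
    (hgm : ∀ ω, FibreForm L (m + 1) ω → GMSpan L V ω) {U : Finset (L →ₐ[ℂ] Ω)}
    (hsep : Separates L G V U) {c : (K →ₐ[ℂ] Ω) →₀ ℤ} (hc : ∀ ω, G ω →
      ∀ (z : Fin (m + 1) → K) (E : Fin (m + 1) → Derivation ℂ K K), IsTranscendenceBasis ℂ z →
        (∀ i j, E i (z j) = if i = j then 1 else 0) → ∀ D : Fin (m + 1) → Derivation ℂ Ω Ω,
          ∑ σ ∈ c.support, (c σ : Ω) * pullback σ z E ω D = 0)
    (hU : ∀ σ ∈ c.support, σ.comp L.val ∈ U) : c ∈ Rat K Ω := by
  classical
  have h1 : c = ∑ u ∈ U, c.filter (fun σ => σ.comp L.val = u) := by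
    ext σ
    rw [Finset.sum_apply']
    simp only [Finsupp.filter_apply]
    rw [Finset.sum_ite_eq]
    split_ifs with h
    · rfl
    · by_contra hne
      exact h (hU σ (Finsupp.mem_support_iff.2 hne))
  rw [h1]
  exact sum_mem fun u hu => part_mem hK hΩ L hL hLK hV hgm hsep hc hU hu

end

end Pool.Agent.N162.BC
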