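import Pool.Agent.N162.BC.Loc

/-!
The places of the compositum of a function field of one variable and an extension of its
algebraically closed constant field.
-/

set_option autoImplicit false
set_option linter.overlappingInstances false
set_option linter.unusedSectionVars false
set_option linter.unusedDecidableInType false
set_option linter.unusedVariables false
set_option maxHeartbeats 4000000
set_option synthInstance.maxHeartbeats 400000

open FF Polynomial Pool.Agent.W603.LV

namespace Pool.Agent.N162.BC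

section

variable {K Ω M : Type} [Field K] [Field Ω] [Field M] [Algebra Ω M] [Algebra K M]

/-- the algebra generated by the elements of `R ⊂ K` -/
def BR (Ω M : Type) [Field Ω] [Field M] [Algebra Ω M] [Algebra K M] (R : Subring K) :
    Subalgebra Ω M := Algebra.adjoin Ω (algebraMap K M '' (R : Set K))

theorem mem_BR {R : Subring K} {r : K} (hr : r ∈ R) : algebraMap K M r ∈ BR Ω M R :=
  Algebra.subset_adjoin ⟨r, hr, rfl⟩

theorem BR_span {R : Subring K} {b : M} (hb : b ∈ BR Ω M R) :
    b ∈ Submodule.span Ω (algebraMap K M '' (R : Set K)) := by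
  unfold BR at hb
  rw [← Subalgebra.mem_toSubmodule, Algebra.adjoin_eq_span] at hb
  have h1 : (Submonoid.closure (algebraMap K M '' (R : Set K)) : Set M) =
      algebraMap K M '' (R : Set K) := by
    have h2 := Submonoid.closure_eq (R.toSubmonoid.map (algebraMap K M))
    have h3 : ((R.toSubmonoid.map (algebraMap K M) : Submonoid M) : Set M) =
      algebraMap K M '' (R : Set K) := rfl
    rw [h3] at h2
    rw [h2, h3]
  rwa [h1] at hb

theorem BR_reg (P : Place Ω M) {R : Subring K} (hR : ∀ r ∈ R, Ge P 0 (algebraMap K M r)) :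
    ∀ b ∈ BR Ω M R, Ge P 0 b := by
  intro b hb
  unfold BR at hb
  induction hb using Algebra.adjoin_induction with
  | mem x hx =>
    obtain ⟨r, hr, rfl⟩ := hx
    exact hR r hr
  | algebraMap r => exact Ge.const r
  | add x y _ _ hx hy => exact hx.add hy
  | mul x y _ _ hx hy =>
    have := hx.mul hy
    rwa [add_zero] at this

theorem BR_mono {R S : Subring K} (h : R ≤ S) : BR Ω M R ≤ BR Ω M S :=
  Algebra.adjoin_mono (Set.image_mono h)

theorem BR_frac (hM : ∀ f : M, ∃ a ∈ BR Ω M (⊤ : Subring K), ∃ b ∈ BR Ω M (⊤ : Subring K),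
    b ≠ 0 ∧ f * b = a) {R : Subring K} (hR : ∀ e : K, ∃ r ∈ R, ∃ s ∈ R, s ≠ 0 ∧ e * s = r) :
    ∀ f : M, ∃ a ∈ BR Ω M R, ∃ b ∈ BR Ω M R, b ≠ 0 ∧ f * b = a := by
  have key : ∀ a ∈ BR Ω M (⊤ : Subring K), ∃ s ∈ R, s ≠ 0 ∧ a * algebraMap K M s ∈ BR Ω M R := by
    intro a ha
    have h1 := BR_span ha
    induction h1 using Submodule.span_induction with
    | mem x hx =>
      obtain ⟨e, -, rfl⟩ := hx
      obtain ⟨r, hr, s, hs, hs0, h⟩ := hR e
      refine ⟨s, hs, hs0, ?_⟩
      rw [← map_mul, h]
      exact mem_BR hr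
    | zero => exact ⟨1, one_mem _, one_ne_zero, by rw [zero_mul]; exact zero_mem _⟩
    | add x y hx hy hx' hy' =>
      have hx2 : x ∈ BR Ω M (⊤ : Subring K) := by
        refine Submodule.span_induction (p := fun z _ => z ∈ BR Ω M (⊤ : Subring K)) ?_ ?_ ?_ ?_ hx
        · rintro _ ⟨e, he, rfl⟩
          exact mem_BR he
        · exact zero_mem _
        · intro _ _ _ _ h1 h2
          exact add_mem h1 h2
        · intro c _ _ h1
          exact Subalgebra.smul_mem _ h1 c
      have hy2 : y ∈ BR Ω M (⊤ : Subring K) := by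
        refine Submodule.span_induction (p := fun z _ => z ∈ BR Ω M (⊤ : Subring K)) ?_ ?_ ?_ ?_ hy
        · rintro _ ⟨e, he, rfl⟩
          exact mem_BR he
        · exact zero_mem _
        · intro _ _ _ _ h1 h2
          exact add_mem h1 h2
        · intro c _ _ h1
          exact Subalgebra.smul_mem _ h1 c
      obtain ⟨s, hs, hs0, h⟩ := hx' hx2
      obtain ⟨t, ht, ht0, h'⟩ := hy' hy2
      refine ⟨s * t, mul_mem hs ht, mul_ne_zero hs0 ht0, ?_⟩
      rw [map_mul]
      have e : (x + y) * (algebraMap K M s * algebraMap K M t) =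
          x * algebraMap K M s * algebraMap K M t + y * algebraMap K M t * algebraMap K M s := by
        ring
      rw [e]
      exact add_mem (mul_mem h (mem_BR ht)) (mul_mem h' (mem_BR hs))
    | smul c x hx hx' =>
      have hx2 : x ∈ BR Ω M (⊤ : Subring K) := by
        refine Submodule.span_induction (p := fun z _ => z ∈ BR Ω M (⊤ : Subring K)) ?_ ?_ ?_ ?_ hx
        · rintro _ ⟨e, he, rfl⟩
          exact mem_BR he
        · exact zero_mem _
        · intro _ _ _ _ h1 h2
          exact add_mem h1 h2
        · intro c _ _ h1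
          exact Subalgebra.smul_mem _ h1 c
      obtain ⟨s, hs, hs0, h⟩ := hx' hx2
      refine ⟨s, hs, hs0, ?_⟩
      rw [smul_mul_assoc]
      exact Subalgebra.smul_mem _ h c
  intro f
  obtain ⟨a, ha, b, hb, hb0, hab⟩ := hM f
  obtain ⟨s, hs, hs0, h⟩ := key a ha
  obtain ⟨t, ht, ht0, h'⟩ := key b hb
  refine ⟨a * algebraMap K M s * algebraMap K M t, mul_mem h (mem_BR ht),
    b * algebraMap K M t * algebraMap K M s, mul_mem h' (mem_BR hs),
    mul_ne_zero (mul_ne_zero hb0 (by simpa using ht0)) (by simpa using hs0), ?_⟩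
  rw [← hab]
  ring

theorem BR_der {F : Type} [Field F] [Algebra F M] (D : Derivation F M M)
    (hK : ∀ e : K, D (algebraMap K M e) = 0)
    (hΩ : ∀ a : Ω, ∃ b : Ω, D (algebraMap Ω M a) = algebraMap Ω M b) (R : Subring K) :
    ∀ b ∈ BR Ω M R, D b ∈ BR Ω M R := by
  intro b hb
  unfold BR at hb ⊢
  induction hb using Algebra.adjoin_induction with
  | mem x hx =>
    obtain ⟨r, -, rfl⟩ := hx
    rw [hK]
    exact zero_mem _
  | algebraMap r =>
    obtain ⟨s, hs⟩ := hΩ r
    rw [hs]
    exact Subalgebra.algebraMap_mem _ _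
  | add x y _ _ hx hy =>
    rw [map_add]
    exact add_mem hx hy
  | mul x y hx' hy' hx hy =>
    rw [D.leibniz, smul_eq_mul, smul_eq_mul]
    exact add_mem (mul_mem hx' hy) (mul_mem hy' hx)

end

section

variable {F K Ω M : Type} [Field F] [Field K] [Field Ω] [Field M]
  [Algebra F K] [Algebra F Ω] [Algebra Ω M] [Algebra K M] [Algebra F M] [IsScalarTower F Ω M]
  [IsScalarTower F K M]

theorem tower (c : F) : algebraMap Ω M (algebraMap F Ω c) = algebraMap K M (algebraMap F K c) := by
  rw [← IsScalarTower.algebraMap_apply F Ω M, ← IsScalarTower.algebraMap_apply F K M]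

/-- restriction of the constants of a place -/
def rc (F : Type) {Ω M : Type} [Field F] [Field Ω] [Field M] [Algebra F Ω] [Algebra Ω M]
    [Algebra F M] [IsScalarTower F Ω M] (P : Place Ω M) : Place F M where
  ord := P.ord
  ord_zero := P.ord_zero
  ord_mul := P.ord_mul
  ord_add := P.ord_add
  ord_const := by
    intro c hc
    rw [IsScalarTower.algebraMap_apply F Ω M]
    exact P.ord_const (by simpa using hc)
  surj := P.surj

theorem rc_ge {P : Place Ω M} {N : ℤ} {f : M} : Ge (rc F P) N f ↔ Ge P N f := Iff.rfl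

/-- The place is trivial on `K`. -/
def Gen (K : Type) {Ω M : Type} [Field K] [Field Ω] [Field M] [Algebra Ω M] [Algebra K M]
    (P : Place Ω M) : Prop := ∀ e : K, e ≠ 0 → P.ord (algebraMap K M e) = 0

theorem Gen.reg {P : Place Ω M} (hP : Gen K P) (e : K) : Ge P 0 (algebraMap K M e) := by
  by_cases he : e = 0
  · left
    rw [he, map_zero]
  · right
    rw [hP e he]

/-- The place is centred at the point `σ`. -/
def Cen (P : Place Ω M) (σ : K →ₐ[F] Ω) : Prop :=
  ∀ e : K, Ge P 1 (algebraMap K M e - algebraMap Ω M (σ e))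

theorem not_ge_const {P : Place Ω M} {c : Ω} (h : Ge P 1 (algebraMap Ω M c)) : c = 0 := by
  by_contra hc
  rcases h with h1 | h1
  · exact hc (by simpa using h1)
  · rw [P.ord_const hc] at h1
    omega

theorem Cen.gen {P : Place Ω M} {σ : K →ₐ[F] Ω} (h : Cen P σ) : Gen K P := by
  intro e he
  have h1 := h e
  have h2 : σ e ≠ 0 := by simpa using he
  have h3 : algebraMap Ω M (σ e) ≠ 0 := by simpa using h2
  have h4 : algebraMap K M e ≠ 0 := by simpa using he
  rcases h1 with h1 | h1
  · rw [sub_eq_zero.1 h1]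
    exact P.ord_const h2
  · by_cases h0 : algebraMap K M e - algebraMap Ω M (σ e) = 0
    · rw [h0, P.ord_zero] at h1
      omega
    have h5 := P.ord_add_eq h3 h0 (by rw [P.ord_const h2]; omega)
    rw [add_sub_cancel, P.ord_const h2] at h5
    exact h5.2

theorem Cen.unique {P : Place Ω M} {σ τ : K →ₐ[F] Ω} (h : Cen P σ) (h' : Cen P τ) : σ = τ := by
  ext e
  have h1 := (h' e).sub (h e)
  rw [sub_sub_sub_cancel_left, ← map_sub] at h1
  exact sub_eq_zero.1 (not_ge_const h1)

variable [CharZero Ω] [IsAlgClosed Ω] [IsFF Ω M]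

theorem exists_cen {P : Place Ω M} (hP : Gen K P) : ∃ σ : K →ₐ[F] Ω, Cen P σ := by
  choose s hs using fun e : K => exists_const P (hP.reg e)
  have huniq : ∀ {f : M} {c d : Ω}, Ge P 1 (f - algebraMap Ω M c) →
      Ge P 1 (f - algebraMap Ω M d) → c = d := by
    intro f c d h1 h2
    have h3 := h2.sub h1
    rw [sub_sub_sub_cancel_left, ← map_sub] at h3
    exact sub_eq_zero.1 (not_ge_const h3)
  have hconst : ∀ c : Ω, Ge P 1 (algebraMap Ω M c - algebraMap Ω M c) := fun c => by
    rw [sub_self]
    exact Ge.zero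
  refine ⟨⟨⟨⟨⟨s, ?_⟩, ?_⟩, ?_, ?_⟩, ?_⟩, hs⟩
  · refine huniq (hs 1) ?_
    rw [map_one, map_one, sub_self]
    exact Ge.zero
  · intro a b
    refine huniq (hs (a * b)) ?_
    have e : algebraMap K M (a * b) - algebraMap Ω M (s a * s b) =
        algebraMap K M a * (algebraMap K M b - algebraMap Ω M (s b)) +
          algebraMap Ω M (s b) * (algebraMap K M a - algebraMap Ω M (s a)) := by
      rw [map_mul, map_mul]
      ring
    rw [e]
    have h1 := (hP.reg a).mul (hs b)
    have h2 := (Ge.const (P := P) (s b)).mul (hs a)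
    rw [zero_add] at h1 h2
    exact h1.add h2
  · refine huniq (hs 0) ?_
    rw [map_zero, map_zero, sub_self]
    exact Ge.zero
  · intro a b
    refine huniq (hs (a + b)) ?_
    have e : algebraMap K M (a + b) - algebraMap Ω M (s a + s b) =
        (algebraMap K M a - algebraMap Ω M (s a)) + (algebraMap K M b - algebraMap Ω M (s b)) := by
      rw [map_add, map_add]
      ring
    rw [e]
    exact (hs a).add (hs b)
  · intro c
    refine huniq (hs (algebraMap F K c)) ?_
    have h1 := tower (F := F) (K := K) (Ω := Ω) (M := M) c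
    rw [← h1]
    exact hconst _

variable [CharZero F] [IsAlgClosed F] [IsFF F K]

/-- If `x` is transcendental and takes at `P` a value which is not a constant of `K`,
then `P` is trivial on `K`. -/
theorem gen_of_val {P : Place Ω M} {x : K} {s : Ω} (hs : Transcendental F s)
    (h : Ge P 1 (algebraMap K M x - algebraMap Ω M s)) : Gen K P := by
  -- P is trivial on F(x)
  have hreg : Ge P 0 (algebraMap K M x) := by
    have h1 := (h.mono (by norm_num : (0 : ℤ) ≤ 1)).add (Ge.const (P := P) s)
    rwa [sub_add_cancel] at h1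
  by_contra hcon
  unfold Gen at hcon
  push Not at hcon
  obtain ⟨e, he, hne⟩ := hcon
  obtain ⟨e0, p, hp⟩ := exists_over (K := K) (rc F P) ⟨e, hne⟩
  have hx0 : Ge p 0 x := by
    by_cases hx : x = 0
    · left; exact hx
    right
    rcases hreg with h1 | h1
    · exact absurd (by simpa using h1) hx
    · have h2 := hp.2 x
      have h3 : (rc F P).ord (algebraMap K M x) = P.ord (algebraMap K M x) := rfl
      rw [h3] at h2
      by_contra hlt
      push Not at hlt
      have h4 : (e0 : ℤ) * p.ord x < 0 := mul_neg_of_pos_of_neg (by exact_mod_cast hp.1) hlt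
      omega
  obtain ⟨c, hc⟩ := exists_const p hx0
  have h1 : Ge P 1 (algebraMap K M (x - algebraMap F K c)) := by
    rcases hc with h1 | h1
    · left
      rw [h1, map_zero]
    · right
      have h2 := hp.2 (x - algebraMap F K c)
      have h3 : (rc F P).ord (algebraMap K M (x - algebraMap F K c)) =
        P.ord (algebraMap K M (x - algebraMap F K c)) := rfl
      rw [← h3, h2]
      have h4 : (1 : ℤ) ≤ e0 := by exact_mod_cast hp.1
      nlinarith
  rw [map_sub, ← tower (F := F) (K := K) (Ω := Ω) (M := M) c] at h1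
  have h2 := h1.sub h
  rw [sub_sub_sub_cancel_left, ← map_sub] at h2
  have h3 := sub_eq_zero.1 (not_ge_const h2)
  apply hs
  rw [h3]
  exact isAlgebraic_algebraMap c

end

end Pool.Agent.N162.BC
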