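import Pool.Agent.N162.BC.Main

/-!
Fibrations over the projective line.
-/

set_option autoImplicit false
set_option linter.overlappingInstances false
set_option linter.unusedSectionVars false
set_option linter.unusedDecidableInType false
set_option linter.unusedFintypeInType false
set_option linter.unusedVariables false
set_option maxHeartbeats 4000000
set_option synthInstance.maxHeartbeats 400000

open FF Polynomial Pool.Agent.W603.LV Pool.Agent.W602.GT

namespace Pool.Agent.N162.BC

/-- the order of a polynomial at a pole of the variable -/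
theorem ord_aeval_neg {k K : Type} [Field k] [Field K] [Algebra k K] (P : Place k K) {x : K}
    (hx : P.ord x < 0) : ∀ (n : ℕ) (q : k[X]), q ≠ 0 → q.natDegree = n →
      aeval x q ≠ 0 ∧ P.ord (aeval x q) = n * P.ord x := by
  intro n
  induction n with
  | zero =>
    intro q hq hn
    have h1 := eq_C_of_natDegree_eq_zero hn
    have h2 : q.coeff 0 ≠ 0 := by
      intro h0
      rw [h0, C_0] at h1
      exact hq h1
    rw [h1, aeval_C]
    refine ⟨?_, ?_⟩
    · rw [Ne, FaithfulSMul.algebraMap_eq_zero_iff]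
      exact h2
    · rw [P.ord_const h2]
      simp
  | succ n ih =>
    intro q hq hn
    have h1 : q.divX.natDegree = n := by
      rw [natDegree_divX_eq_natDegree_tsub_one, hn]
      rfl
    have h2 : q.divX ≠ 0 := by
      intro h0
      rw [divX_eq_zero_iff] at h0
      rw [h0, natDegree_C] at hn
      omega
    obtain ⟨h3, h4⟩ := ih q.divX h2 h1
    have h5 : aeval x q = x * aeval x q.divX + algebraMap k K (q.coeff 0) := by
      conv_lhs => rw [← X_mul_divX_add q]
      rw [map_add, map_mul, aeval_X, aeval_C]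
    have hx0 : x ≠ 0 := by
      rintro rfl
      rw [P.ord_zero] at hx
      omega
    have h6 : x * aeval x q.divX ≠ 0 := mul_ne_zero hx0 h3
    have h7 : P.ord (x * aeval x q.divX) = ((n + 1 : ℕ) : ℤ) * P.ord x := by
      rw [P.ord_mul hx0 h3, h4]
      push_cast
      ring
    by_cases hc : q.coeff 0 = 0
    · rw [h5, hc, map_zero, add_zero]
      exact ⟨h6, h7⟩
    · have h8 : algebraMap k K (q.coeff 0) ≠ 0 := by
        rw [Ne, FaithfulSMul.algebraMap_eq_zero_iff]
        exact hc
      have h9 : P.ord (x * aeval x q.divX) < P.ord (algebraMap k K (q.coeff 0)) := by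
        rw [h7, P.ord_const hc]
        have : (0 : ℤ) < ((n + 1 : ℕ) : ℤ) := by positivity
        nlinarith
      have h10 : aeval x q ≠ 0 := by
        rw [h5]
        intro h0
        have h11 := eq_neg_of_add_eq_zero_left h0
        rw [h11, P.ord_neg] at h9
        exact lt_irrefl _ h9
      refine ⟨h10, ?_⟩
      rw [h5, (P.ord_add_eq h6 h8 h9).2, h7]

/-- a vector of the first `p` powers -/
theorem vandermonde {A ι : Type} [Field A] (U : Finset ι) (b : ι → A)
    (hb : ∀ u ∈ U, ∀ v ∈ U, b u = b v → u = v) (a : ι → A) {p : ℕ} (hp : U.card ≤ p)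
    (h : ∀ j < p, ∑ u ∈ U, b u ^ j * a u = 0) : ∀ u ∈ U, a u = 0 := by
  classical
  intro u hu
  have h1 : ∀ q : A[X], q.natDegree < p → ∑ v ∈ U, q.eval (b v) * a v = 0 := by
    intro q hq
    have h2 : ∀ v, q.eval (b v) * a v = ∑ j ∈ Finset.range p, q.coeff j * (b v ^ j * a v) := by
      intro v
      rw [eval_eq_sum_range' hq, Finset.sum_mul]
      exact Finset.sum_congr rfl fun j _ => by ring
    simp only [h2]
    rw [Finset.sum_comm]
    refine Finset.sum_eq_zero fun j hj => ?_
    rw [← Finset.mul_sum, h j (Finset.mem_range.1 hj), mul_zero]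
  let q : A[X] := ∏ v ∈ U.erase u, (X - C (b v))
  have h2 : q.natDegree < p := by
    rw [natDegree_prod_of_monic _ _ fun v _ => monic_X_sub_C _]
    simp only [natDegree_X_sub_C, Finset.sum_const, smul_eq_mul, mul_one]
    rw [Finset.card_erase_of_mem hu]
    have : 0 < U.card := Finset.card_pos.2 ⟨u, hu⟩
    omega
  have h3 := h1 q h2
  rw [Finset.sum_eq_single u] at h3
  · rcases mul_eq_zero.1 h3 with h4 | h4
    · exfalso
      rw [eval_prod, Finset.prod_eq_zero_iff] at h4
      obtain ⟨v, hv, h5⟩ := h4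
      rw [eval_sub, eval_X, eval_C, sub_eq_zero] at h5
      rw [Finset.mem_erase] at hv
      exact hv.1 (hb v hv.2 u hu h5.symm)
    · exact h4
  · intro v hv hvu
    have h4 : q.eval (b v) = 0 := by
      rw [eval_prod, Finset.prod_eq_zero_iff]
      exact ⟨v, Finset.mem_erase.2 ⟨hvu, hv⟩, by rw [eval_sub, eval_X, eval_C, sub_self]⟩
    rw [h4, zero_mul]
  · intro h4
    exact absurd hu h4

/-- dimensions of two steps of a filtration -/
theorem step_dim {W : Type} [AddCommGroup W] [Module ℂ W] (A B : Submodule ℂ W) (hBA : B ≤ A)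
    [FiniteDimensional ℂ A] (g : ℕ)
    (h : ∀ ω : Fin (g + 1) → W, (∀ i, ω i ∈ A) →
      ∃ a : Fin (g + 1) → ℂ, a ≠ 0 ∧ ∑ i, a i • ω i ∈ B) :
    Module.finrank ℂ A ≤ Module.finrank ℂ B + g := by
  have h1 := Submodule.finrank_quotient_add_finrank (B.comap A.subtype)
  have h2 : Module.finrank ℂ (B.comap A.subtype) = Module.finrank ℂ B :=
    (Submodule.comapSubtypeEquivOfLe hBA).finrank_eq
  rw [h2] at h1
  by_contra hcon
  push Not at hcon
  have h3 : g + 1 ≤ Module.finrank ℂ (A ⧸ B.comap A.subtype) := by omega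
  let b := Module.finBasis ℂ (A ⧸ B.comap A.subtype)
  have hv : LinearIndependent ℂ (fun i : Fin (g + 1) => b (Fin.castLE h3 i)) :=
    b.linearIndependent.comp _ (Fin.castLE_injective h3)
  choose w hw using fun i : Fin (g + 1) => Submodule.Quotient.mk_surjective _ (b (Fin.castLE h3 i))
  obtain ⟨a, ha, hab⟩ := h (fun i => (w i : W)) (fun i => (w i).2)
  apply ha
  have h4 : ∑ i, a i • b (Fin.castLE h3 i) = 0 := by
    have h5 : (∑ i, a i • w i : A) ∈ B.comap A.subtype := by
      rw [Submodule.mem_comap, map_sum]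
      exact hab
    rw [← Submodule.Quotient.mk_eq_zero, ← Submodule.mkQ_apply, map_sum] at h5
    rw [← h5]
    refine Finset.sum_congr rfl fun i _ => ?_
    rw [map_smul, Submodule.mkQ_apply, hw]
  funext i
  exact Fintype.linearIndependent_iff.1 hv a h4 i

section

variable {K Ω : Type} [Field K] [Algebra ℂ K] [Field Ω] [Algebra ℂ Ω] {n : ℕ}

theorem pluri_smul {ω : (Fin n → Derivation ℂ K K) → K} (h : IsPluri 1 ω) (a : K) :
    IsPluri 1 (fun D => a * ω D) := by
  intro A D
  change a * ω _ = _ * (a * ω D)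
  rw [h A D]
  ring

theorem pluri_sum {ι : Type} (s : Finset ι) {ω : ι → (Fin n → Derivation ℂ K K) → K}
    (h : ∀ i, IsPluri 1 (ω i)) (a : ι → K) : IsPluri 1 (fun D => ∑ i ∈ s, a i * ω i D) := by
  intro A D
  change ∑ i ∈ s, a i * ω i _ = _ * ∑ i ∈ s, a i * ω i D
  rw [Finset.mul_sum]
  refine Finset.sum_congr rfl fun i _ => ?_
  rw [h i A D]
  ring

theorem reg_smul {P : Place ℂ K} {ω : (Fin n → Derivation ℂ K K) → K} (h : RegAt P ω) {a : K}
    (ha : P.Reg a) : RegAt P (fun D => a * ω D) := fun D hD => P.reg_mul ha (h D hD)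

theorem reg_sum {P : Place ℂ K} {ι : Type} (s : Finset ι)
    {ω : ι → (Fin n → Derivation ℂ K K) → K} (h : ∀ i, RegAt P (ω i)) {a : ι → K}
    (ha : ∀ i, P.Reg (a i)) : RegAt P (fun D => ∑ i ∈ s, a i * ω i D) := by
  classical
  intro D hD
  change P.Reg (∑ i ∈ s, a i * ω i D)
  induction s using Finset.induction_on with
  | empty => rw [Finset.sum_empty]; exact P.reg_zero
  | insert i s hi ih =>
    rw [Finset.sum_insert hi]
    exact P.reg_add (P.reg_mul (ha i) (h i D hD)) ih

/-- a global canonical form is regular on the generic fibre -/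
theorem GlobalForm.fibre {L : IntermediateField ℂ K} {m : ℕ} (hL : Algebra.trdeg ℂ L = (m : ℕ))
    {ω : (Fin (m + 1) → Derivation ℂ K K) → K} (h : GlobalForm (m + 1) ω) :
    FibreForm L (m + 1) ω := by
  refine ⟨h.1, fun P hP => h.2 P ?_⟩
  obtain ⟨t, ht⟩ := exists_tb hL
  refine ⟨fun i => (t i : K), fun F hF => ?_⟩
  have h1 : MvPolynomial.aeval (fun i => (t i : K)) F = ((MvPolynomial.aeval t F : L) : K) := by
    have := MvPolynomial.aeval_algebraMap_apply (B := K) t F
    exact this
  have h2 : MvPolynomial.aeval t F ≠ 0 := by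
    intro h0
    exact hF ((injective_iff_map_eq_zero _).1 ht.1 F h0)
  have h3 : ((MvPolynomial.aeval t F : L) : K) ≠ 0 := fun h0 => h2 (Subtype.ext h0)
  refine ⟨?_, ?_⟩
  · change MvPolynomial.aeval (fun i => (t i : K)) F ≠ 0
    rw [h1]
    exact h3
  · change P.ord (MvPolynomial.aeval (fun i => (t i : K)) F) = 0
    rw [h1]
    exact hP _ (MvPolynomial.aeval t F : L).2 h3

/-- elements of a rational function field with a common denominator -/
theorem common_den {x : K} {p : ℕ} (l : Fin p → K)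
    (hl : ∀ i, l i ∈ IntermediateField.adjoin ℂ {x}) :
    ∃ (Q : ℂ[X]) (P : Fin p → ℂ[X]), aeval x Q ≠ 0 ∧ ∀ i, l i * aeval x Q = aeval x (P i) := by
  classical
  have h1 : ∀ i, ∃ r s : ℂ[X], aeval x s ≠ 0 ∧ l i * aeval x s = aeval x r := by
    intro i
    obtain ⟨r, s, hrs⟩ := (IntermediateField.mem_adjoin_simple_iff ℂ _).1 (hl i)
    by_cases h0 : aeval x s = 0
    · refine ⟨0, 1, by rw [map_one]; exact one_ne_zero, ?_⟩
      rw [hrs, h0, div_zero, zero_mul, map_zero]
    · refine ⟨r, s, h0, ?_⟩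
      rw [hrs, div_mul_cancel₀ _ h0]
  choose r s hs hrs using h1
  refine ⟨∏ i, s i, fun i => r i * ∏ j ∈ Finset.univ.erase i, s j, ?_, fun i => ?_⟩
  · rw [map_prod, Finset.prod_ne_zero_iff]
    exact fun i _ => hs i
  · rw [← Finset.mul_prod_erase Finset.univ s (Finset.mem_univ i), map_mul, ← mul_assoc, hrs,
      map_mul]

/-- The forms `ω` such that `x ^ i ω`, `i ≤ j`, are global forms. -/
def mulForms (x : K) (n j : ℕ) : Submodule ℂ ((Fin n → Derivation ℂ K K) → K) where
  carrier := {ω | ∀ i ≤ j, GlobalForm n (fun X => x ^ i * ω X)}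
  zero_mem' := by
    intro i _
    refine ⟨fun A X => ?_, fun P _ X _ => ?_⟩
    · change x ^ i * 0 = _ * (x ^ i * 0)
      rw [mul_zero, mul_zero]
    · change P.Reg (x ^ i * 0)
      rw [mul_zero]
      exact P.reg_zero
  add_mem' := by
    intro a b ha hb i hi
    obtain ⟨p1, q1⟩ := ha i hi
    obtain ⟨p2, q2⟩ := hb i hi
    refine ⟨fun A X => ?_, fun P hP X hX => ?_⟩
    · have e1 := p1 A X
      have e2 := p2 A X
      change x ^ i * (a _ + b _) = _ * (x ^ i * (a X + b X))
      change x ^ i * a _ = _ * (x ^ i * a X) at e1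
      change x ^ i * b _ = _ * (x ^ i * b X) at e2
      rw [mul_add, e1, e2]
      ring
    · have e1 := q1 P hP X hX
      have e2 := q2 P hP X hX
      change P.Reg (x ^ i * (a X + b X))
      rw [mul_add]
      exact P.reg_add e1 e2
  smul_mem' := by
    intro c a ha i hi
    obtain ⟨p1, q1⟩ := ha i hi
    refine ⟨fun A X => ?_, fun P hP X hX => ?_⟩
    · have e1 := p1 A X
      change x ^ i * (c • a _) = _ * (x ^ i * (c • a X))
      change x ^ i * a _ = _ * (x ^ i * a X) at e1
      rw [Algebra.smul_def, Algebra.smul_def, mul_left_comm, e1]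
      ring
    · have e1 := q1 P hP X hX
      change P.Reg (x ^ i * (c • a X))
      rw [Algebra.smul_def, mul_left_comm]
      exact P.reg_mul (P.reg_const c) e1

theorem mem_mulForms {x : K} {j : ℕ} {ω : (Fin n → Derivation ℂ K K) → K} :
    ω ∈ mulForms x n j ↔ ∀ i ≤ j, GlobalForm n (fun X => x ^ i * ω X) := Iff.rfl

/-- one step: a linear relation between the forms gives a form with a zero at infinity -/
theorem mul_step {x : K} (hx : Transcendental ℂ x) {g j : ℕ}
    {ω : Fin (g + 1) → (Fin n → Derivation ℂ K K) → K} (hω : ∀ i, ω i ∈ mulForms x n j)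
    (l : Fin (g + 1) → K) (hl : ∀ i, l i ∈ IntermediateField.adjoin ℂ {x}) (hl0 : l ≠ 0)
    (hrel : ∀ X, ∑ i, l i * ω i X = 0) :
    ∃ a : Fin (g + 1) → ℂ, a ≠ 0 ∧ ∑ i, a i • ω i ∈ mulForms x n (j + 1) := by
  classical
  obtain ⟨Q, P, hQ, hP⟩ := common_den l hl
  have hx0 : x ≠ 0 := by
    rintro rfl
    exact hx isAlgebraic_zero
  have hinj : Function.Injective (aeval x : ℂ[X] →ₐ[ℂ] K) := transcendental_iff_injective.1 hx
  have hPrel : ∀ X, ∑ i, aeval x (P i) * ω i X = 0 := by
    intro X
    have h1 : ∑ i, aeval x (P i) * ω i X = aeval x Q * ∑ i, l i * ω i X := by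
      rw [Finset.mul_sum]
      refine Finset.sum_congr rfl fun i _ => ?_
      rw [← hP]
      ring
    rw [h1, hrel, mul_zero]
  obtain ⟨N, hN⟩ : ∃ N, N = Finset.univ.sup fun i => (P i).natDegree := ⟨_, rfl⟩
  have hdeg : ∀ i, (P i).natDegree ≤ N := fun i => by
    rw [hN]
    exact Finset.le_sup (f := fun i => (P i).natDegree) (Finset.mem_univ i)
  refine ⟨fun i => (P i).coeff N, ?_, ?_⟩
  · intro h0
    apply hl0
    -- all leading coefficients vanish
    obtain ⟨im, -, him⟩ := Finset.exists_mem_eq_sup (Finset.univ : Finset (Fin (g + 1)))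
      ⟨0, Finset.mem_univ _⟩ (fun i => (P i).natDegree)
    rw [← hN] at him
    have h1 := congrFun h0 im
    change (P im).coeff N = 0 at h1
    rw [him, coeff_natDegree, leadingCoeff_eq_zero] at h1
    have hN0 : N = 0 := by rw [him, h1, natDegree_zero]
    funext i
    have h2 := hdeg i
    rw [hN0] at h2
    have h3 := eq_C_of_natDegree_le_zero h2
    have h4 := congrFun h0 i
    change (P i).coeff N = 0 at h4
    rw [hN0] at h4
    rw [h4, C_0] at h3
    have h5 := hP i
    rw [h3, map_zero] at h5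
    exact (mul_eq_zero.1 h5).resolve_right hQ
  · have hsum : (∑ i, (P i).coeff N • ω i) ∈ mulForms x n j :=
      Submodule.sum_mem _ fun i _ => Submodule.smul_mem _ _ (hω i)
    have hform : ∀ X, (∑ i, (P i).coeff N • ω i) X =
        ∑ i, algebraMap ℂ K ((P i).coeff N) * ω i X := by
      intro X
      rw [Finset.sum_apply]
      refine Finset.sum_congr rfl fun i _ => ?_
      rw [Pi.smul_apply, Algebra.smul_def]
    intro i hi
    rcases Nat.lt_or_ge i (j + 1) with hi' | hi'
    · exact hsum i (by omega)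
    obtain rfl : i = j + 1 := by omega
    refine ⟨?_, fun v hv => ?_⟩
    · have h1 := (hsum 0 (Nat.zero_le _)).1
      have h2 : IsPluri 1 (∑ i, (P i).coeff N • ω i) := by
        have h3 : (fun X => x ^ 0 * (∑ i, (P i).coeff N • ω i) X) =
            ∑ i, (P i).coeff N • ω i := by
          funext X
          rw [pow_zero, one_mul]
        rwa [h3] at h1
      exact pluri_smul h2 _
    · by_cases hvx : 0 ≤ v.ord x
      · have h1 := (hsum j le_rfl).2 v hv
        have h2 : (fun X => x ^ (j + 1) * (∑ i, (P i).coeff N • ω i) X) =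
            fun X => x * (x ^ j * (∑ i, (P i).coeff N • ω i) X) := by
          funext X
          ring
        rw [h2]
        exact reg_smul h1 ((v.reg_iff hx0).2 hvx)
      · push Not at hvx
        have h2 : (fun X => x ^ (j + 1) * (∑ i, (P i).coeff N • ω i) X) =
            fun X => ∑ i, (x * (algebraMap ℂ K ((P i).coeff N) - aeval x (P i) / x ^ N)) *
              (x ^ j * ω i X) := by
          funext X
          rw [hform]
          have h3 : ∑ i, (x * (algebraMap ℂ K ((P i).coeff N) - aeval x (P i) / x ^ N)) *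
              (x ^ j * ω i X) = x ^ (j + 1) * ∑ i, algebraMap ℂ K ((P i).coeff N) * ω i X -
                x ^ (j + 1) / x ^ N * ∑ i, aeval x (P i) * ω i X := by
            rw [Finset.mul_sum, Finset.mul_sum, ← Finset.sum_sub_distrib]
            refine Finset.sum_congr rfl fun i _ => ?_
            ring
          rw [h3, hPrel, mul_zero, sub_zero]
        rw [h2]
        refine reg_sum _ (fun i => (hω i j le_rfl).2 v hv) fun i => ?_
        -- the coefficients are regular at infinity
        obtain ⟨R, hR⟩ : ∃ R : ℂ[X], R = C ((P i).coeff N) * X ^ N - P i := ⟨_, rfl⟩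
        have hRx : x * (algebraMap ℂ K ((P i).coeff N) - aeval x (P i) / x ^ N) =
            x * aeval x R / x ^ N := by
          rw [hR, map_sub, map_mul, aeval_C, map_pow, aeval_X]
          have hxN : x ^ N ≠ 0 := pow_ne_zero _ hx0
          field_simp
        rw [hRx]
        by_cases hR0 : R = 0
        · rw [hR0, map_zero, mul_zero, zero_div]
          exact v.reg_zero
        have hRdeg : R.natDegree + 1 ≤ N := by
          by_contra hcon
          push Not at hcon
          have h3 : R.natDegree ≤ N := by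
            rw [hR]
            refine (natDegree_sub_le _ _).trans (max_le ?_ (hdeg i))
            exact (natDegree_C_mul_le _ _).trans (natDegree_X_pow_le N)
          have h4 : R.natDegree = N := by omega
          have h5 : R.coeff N = 0 := by
            rw [hR, coeff_sub, coeff_C_mul, coeff_X_pow, if_pos rfl, mul_one, sub_self]
          rw [← h4, coeff_natDegree, leadingCoeff_eq_zero] at h5
          exact hR0 h5
        obtain ⟨h6, h7⟩ := ord_aeval_neg v hvx _ R hR0 rfl
        have h8 : x * aeval x R ≠ 0 := mul_ne_zero hx0 h6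
        have h9 : x ^ N ≠ 0 := pow_ne_zero _ hx0
        refine (v.reg_iff (div_ne_zero h8 h9)).2 ?_
        rw [v.ord_div h8 h9, v.ord_mul hx0 h6, v.ord_pow, h7]
        have h10 : (1 + (R.natDegree : ℤ) - N) ≤ 0 := by omega
        nlinarith

/-- **A form with many multiples which are global forms.** -/
theorem exists_mulForm {x : K} (hx : Transcendental ℂ x) {g p d : ℕ}
    (hg : ∀ ω : Fin (g + 1) → (Fin n → Derivation ℂ K K) → K, (∀ i, GlobalForm n (ω i)) →
      ∃ l : Fin (g + 1) → K, (∀ i, l i ∈ IntermediateField.adjoin ℂ {x}) ∧ l ≠ 0 ∧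
        ∀ X, ∑ i, l i * ω i X = 0)
    {ω : Fin p → (Fin n → Derivation ℂ K K) → K} (hω : ∀ i, GlobalForm n (ω i))
    (hind : LinearIndependent ℂ ω) (hd : d * g < p) :
    ∃ ω₀ ∈ mulForms x n d, ω₀ ≠ 0 := by
  classical
  obtain ⟨W, hW⟩ : ∃ W : Submodule ℂ ((Fin n → Derivation ℂ K K) → K),
    W = Submodule.span ℂ (Set.range ω) := ⟨_, rfl⟩
  have hWf : FiniteDimensional ℂ W := by
    rw [hW]
    exact FiniteDimensional.span_of_finite ℂ (Set.finite_range ω)
  have hWr : Module.finrank ℂ W = p := by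
    rw [hW, finrank_span_eq_card hind, Fintype.card_fin]
  have hW0 : W ≤ mulForms x n 0 := by
    rw [hW, Submodule.span_le]
    rintro _ ⟨i, rfl⟩ j hj
    obtain rfl : j = 0 := by omega
    have h1 : (fun X => x ^ 0 * ω i X) = ω i := by
      funext X
      rw [pow_zero, one_mul]
    rw [h1]
    exact hω i
  have hmono : ∀ j, mulForms x n (j + 1) ≤ mulForms x n j := fun j a ha i hi =>
    ha i (by omega)
  have hfd : ∀ j, FiniteDimensional ℂ (W ⊓ mulForms x n j : Submodule ℂ _) := fun j =>
    Submodule.finiteDimensional_of_le inf_le_left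
  have hstep : ∀ j, p ≤ Module.finrank ℂ (W ⊓ mulForms x n j : Submodule ℂ _) + j * g := by
    intro j
    induction j with
    | zero =>
      rw [inf_eq_left.2 hW0, hWr]
      omega
    | succ j ih =>
      have h1 := step_dim (W ⊓ mulForms x n j) (W ⊓ mulForms x n (j + 1))
        (inf_le_inf_left _ (hmono j)) g fun η hη => by
        obtain ⟨l, hl, hl0, hrel⟩ := hg η fun i => by
          have h2 := (hη i).2 0 (Nat.zero_le _)
          have h3 : (fun X => x ^ 0 * η i X) = η i := by
            funext X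
            rw [pow_zero, one_mul]
          rwa [h3] at h2
        obtain ⟨a, ha, hab⟩ := mul_step hx (fun i => (hη i).2) l hl hl0 hrel
        exact ⟨a, ha, Submodule.sum_mem _ fun i _ => Submodule.smul_mem _ _ (hη i).1, hab⟩
      have h2 : (j + 1) * g = j * g + g := by ring
      omega
  have h1 := hstep d
  have h2 : 0 < Module.finrank ℂ (W ⊓ mulForms x n d : Submodule ℂ _) := by omega
  have h3 : (W ⊓ mulForms x n d : Submodule ℂ _) ≠ ⊥ := by
    intro h0
    rw [h0, finrank_bot] at h2
    exact lt_irrefl _ h2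
  obtain ⟨ω₀, h4, h5⟩ := (Submodule.ne_bot_iff _).1 h3
  exact ⟨ω₀, h4.2, h5⟩

theorem adjoin_ext {x : K} {u v : IntermediateField.adjoin ℂ {x} →ₐ[ℂ] Ω}
    (h : u ⟨x, IntermediateField.mem_adjoin_simple_self ℂ x⟩ =
      v ⟨x, IntermediateField.mem_adjoin_simple_self ℂ x⟩) : u = v := by
  refine IntermediateField.adjoin_algHom_ext ℂ fun y hy => ?_
  rw [Set.mem_singleton_iff] at hy
  subst hy
  exact h

theorem GMSpan.mono {L : IntermediateField ℂ K}
    {V V' : ((Fin n → Derivation ℂ K K) → K) → Prop} (h : ∀ ω, V ω → V' ω)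
    {ω : (Fin n → Derivation ℂ K K) → K} (hω : GMSpan L V ω) : GMSpan L V' ω := by
  induction hω with
  | base h1 => exact .base (h _ h1)
  | add _ _ h1 h2 => exact .add h1 h2
  | mul hl _ h1 => exact .mul hl h1
  | lie hD _ h1 => exact .lie hD h1

/-- forms with many global multiples separate the fibres -/
theorem separates_pow {m : ℕ} {L : IntermediateField ℂ K} (hL : Algebra.trdeg ℂ L = (m : ℕ))
    (x : L) {d : ℕ} (U : Finset (L →ₐ[ℂ] Ω)) (hU : U.card ≤ d + 1)
    (hinj : ∀ u ∈ U, ∀ v ∈ U, u x = v x → u = v) :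
    Separates L (GlobalForm (m + 1)) (fun ω => ω ∈ mulForms (x : K) (m + 1) d) U := by
  intro φ hadd hmul hsum u hu ω hω
  have h0 : FibreForm L (m + 1) ω := by
    have h1 := GlobalForm.fibre hL (hω 0 (Nat.zero_le _))
    have h2 : (fun D => (x : K) ^ 0 * ω D) = ω := by
      funext D
      rw [pow_zero, one_mul]
    rwa [h2] at h1
  have hpow : ∀ (j : ℕ), ∀ u ∈ U, φ u (fun D => (x : K) ^ j * ω D) = u x ^ j * φ u ω := by
    intro j u hu
    have h1 := hmul u hu (x ^ j) ω h0
    rw [map_pow] at h1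
    rw [← h1]
    congr 1
  exact vandermonde U (fun u => u x) hinj (fun u => φ u ω) hU (fun j hj => by
    have h1 := hsum _ (hω j (by omega))
    rw [← h1]
    exact Finset.sum_congr rfl fun u hu => (hpow j u hu).symm) u hu

theorem trdeg_adjoin_simple {x : K} (hx : Transcendental ℂ x) :
    Algebra.trdeg ℂ (IntermediateField.adjoin ℂ {x}) = 1 := by
  rw [← (RatFunc.algEquivOfTranscendental x hx).trdeg_eq]
  have h0 : Algebra.IsAlgebraic ℂ[X] (RatFunc ℂ) :=
    IsLocalization.isAlgebraic (S := RatFunc ℂ) (nonZeroDivisors ℂ[X])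
  have h1 := (IsTranscendenceBasis.polynomial Unit ℂ).algebraMap_comp (A := RatFunc ℂ)
  rw [← h1.cardinalMk_eq_trdeg]
  simp

/-- **Correspondences which hit few members of a pencil of curves.** -/
theorem main_pencil [Algebra.EssFiniteType ℂ K] [IsAlgClosed Ω] {m : ℕ}
    (hK : Algebra.trdeg ℂ K = (m + 1 : ℕ)) (hΩ : Algebra.trdeg ℂ Ω = (m + 1 : ℕ))
    {x : K} (hx : Transcendental ℂ x)
    (hL : Algebra.trdeg ℂ (IntermediateField.adjoin ℂ {x}) = (m : ℕ))
    (hLK : ∀ a : K, IsAlgebraic (IntermediateField.adjoin ℂ {x}) a →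
      a ∈ IntermediateField.adjoin ℂ {x}) {g p d : ℕ}
    (hg : ∀ ω : Fin (g + 1) → (Fin (m + 1) → Derivation ℂ K K) → K,
      (∀ i, FibreForm (IntermediateField.adjoin ℂ {x}) (m + 1) (ω i)) →
      ∃ l : Fin (g + 1) → K, (∀ i, l i ∈ IntermediateField.adjoin ℂ {x}) ∧ l ≠ 0 ∧
        ∀ X, ∑ i, l i * ω i X = 0)
    (hirr : ∀ ω, FibreForm (IntermediateField.adjoin ℂ {x}) (m + 1) ω → ω ≠ 0 →
      ∀ ω', FibreForm (IntermediateField.adjoin ℂ {x}) (m + 1) ω' →
        GMSpan (IntermediateField.adjoin ℂ {x}) (fun η => η = ω) ω')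
    {ω : Fin p → (Fin (m + 1) → Derivation ℂ K K) → K}
    (hω : ∀ i, GlobalForm (m + 1) (ω i)) (hind : LinearIndependent ℂ ω) (hd : d * g < p)
    {c : (K →ₐ[ℂ] Ω) →₀ ℤ} (hc : NullTrace (m + 1) c)
    (hcard : ((fun σ : K →ₐ[ℂ] Ω => σ x) '' (c.support : Set (K →ₐ[ℂ] Ω))).ncard ≤ d + 1) :
    c ∈ Rat K Ω := by
  classical
  have h1 : (c.support.image fun σ => σ.comp (IntermediateField.adjoin ℂ {x}).val).card ≤
      d + 1 := by
    refine le_trans ?_ hcard
    rw [← Finset.coe_image, Set.ncard_coe_finset]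
    refine Finset.card_le_card_of_injOn
      (fun u => u ⟨x, IntermediateField.mem_adjoin_simple_self ℂ x⟩) ?_ ?_
    · intro u hu
      rw [Finset.mem_coe, Finset.mem_image] at hu
      obtain ⟨σ, hσ, rfl⟩ := hu
      rw [Finset.mem_coe, Finset.mem_image]
      exact ⟨σ, hσ, rfl⟩
    · intro u _ v _ huv
      exact adjoin_ext huv
  obtain ⟨ω₀, hω₀, hne⟩ := exists_mulForm hx
    (fun η hη => hg η fun i => GlobalForm.fibre hL (hη i)) hω hind hd
  have hfib : ∀ η ∈ mulForms x (m + 1) d,
      FibreForm (IntermediateField.adjoin ℂ {x}) (m + 1) η := by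
    intro η hη
    have h2 := GlobalForm.fibre hL (hη 0 (Nat.zero_le _))
    have h3 : (fun D => (x : K) ^ 0 * η D) = η := by
      funext D
      rw [pow_zero, one_mul]
    rwa [h3] at h2
  refine main hK hΩ _ hL hLK (V := fun η => η ∈ mulForms x (m + 1) d) hfib (fun ω' hω' => ?_)
    (separates_pow hL ⟨x, IntermediateField.mem_adjoin_simple_self ℂ x⟩ _ h1
      fun u _ v _ huv => adjoin_ext huv) hc fun σ hσ => Finset.mem_image_of_mem _ hσ
  refine (hirr ω₀ (hfib ω₀ hω₀) hne ω' hω').mono ?_
  rintro η rfl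
  exact hω₀

end

end Pool.Agent.N162.BC
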